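import Mathlib

/-!
# Chords of a convex curve, visible crossings (fixed file)

`Sy` : chords of a convex curve `z = φ x`: chord `i` is the line `z = p i * x + q i`, it is above the curve
strictly between `a i` and `b i`, meets it at `a i` and `b i` and is below it outside; different chords are
different lines.
`Al y i` : the chord `i` is over `y` (alive at `y`).  `Off y` : `y` is not an end of a chord.
`Vis q s f y` : the chords `q`, `s` cross at the abscissa `f`, above the curve, and this crossing is a
vertex of the upper boundary of the cell of the curve point `y`: the cell is below the chords over `y` and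
above all other chords; `q` is the lowest chord over `y` just before `f` and `s` just after `f`.
`Par S` : the curve is the parabola `z = x ^ 2`; then `p i = a i + b i`, `q i = - a i * b i` and
`v i x - x ^ 2 = (x - a i) * (b i - x)`.
-/

set_option autoImplicit false

namespace Pool.Agent.Work.MP_e64a38_co.CZ

/-- chords of a convex curve -/
structure Sy (ι : Type) where
  a : ι → ℝ
  b : ι → ℝ
  p : ι → ℝ
  q : ι → ℝ
  φ : ℝ → ℝ
  lt : ∀ i, a i < b i
  ea : ∀ i, p i * a i + q i = φ (a i)
  eb : ∀ i, p i * b i + q i = φ (b i)
  above : ∀ i x, a i < x → x < b i → φ x < p i * x + q i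
  below : ∀ i x, x < a i ∨ b i < x → p i * x + q i < φ x
  inj : ∀ i j, p i = p j → q i = q j → i = j

variable {ι : Type}

/-- the line of chord `i` -/
def Sy.v (S : Sy ι) (i : ι) (x : ℝ) : ℝ := S.p i * x + S.q i

/-- the chord `i` is over `y` -/
def Al (S : Sy ι) (y : ℝ) (i : ι) : Prop := S.a i < y ∧ y < S.b i

/-- `y` is not an end of a chord -/
def Off (S : Sy ι) (y : ℝ) : Prop := ∀ i, y ≠ S.a i ∧ y ≠ S.b i

/-- visible crossings -/
structure Vis (S : Sy ι) (q s : ι) (f y : ℝ) : Prop where
  off : Off S y
  aq : Al S y q
  as : Al S y s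
  sl : S.p s < S.p q
  eq : S.v q f = S.v s f
  hi : S.φ f < S.v q f
  up : ∀ c, Al S y c → S.v q f ≤ S.v c f
  ex : ∀ c, Al S y c → S.v c f = S.v q f → S.p s ≤ S.p c ∧ S.p c ≤ S.p q
  dn : ∀ c, ¬ Al S y c → S.v c f < S.v q f

/-- the parabola -/
def Par (S : Sy ι) : Prop :=
  (∀ i, S.p i = S.a i + S.b i) ∧ (∀ i, S.q i = - (S.a i * S.b i)) ∧ ∀ x, S.φ x = x ^ 2

/-- a family of visible crossings, `P` is a set of pairs `(q, s)` -/
def Fam (S : Sy ι) (P : Finset (ι × ι)) (f y : ι × ι → ℝ) : Prop :=
  ∀ t ∈ P, Vis S t.1 t.2 (f t) (y t)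

/-- the mirror image -/
def Sy.mir (S : Sy ι) : Sy ι where
  a i := - S.b i
  b i := - S.a i
  p i := - S.p i
  q := S.q
  φ x := S.φ (-x)
  lt i := by have := S.lt i; linarith
  ea i := by have := S.eb i; simp only [neg_neg]; linarith
  eb i := by have := S.ea i; simp only [neg_neg]; linarith
  above i x h h' := by
    have := S.above i (-x) (by linarith) (by linarith)
    linarith
  below i x h := by
    have := S.below i (-x) (by rcases h with h | h; · right; linarith
                               · left; linarith)
    linarith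
  inj i j h h' := S.inj i j (by linarith) h'

end Pool.Agent.Work.MP_e64a38_co.CZ
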