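import Pool.Agent.Work.MP_e64a38_co.CZ.FBas
import Pool.Agent.Work.MP_e64a38_co.CZ.GDefs

/-!
# The chord system of a set of lines (size M-L)

For the lines `l ∈ L` that meet the region there is a system `S` on the parabola with
`g l p = κ D (z - v l x)` for a constant `κ ≠ 0` depending on `l`, where `x = xx p`, `z = zz p`, `D = cD p > 0`.

Proof. Let `g l = c1 f1 + c2 f2 + c3 f3` (`con_cof`), `P = c1 v - c2 u`, `Q = c1 u + c2 v`, so
`Q + c3 ≠ 0` and, as `f1 = v X + u Y`, `f2 = - u X + v Y` (with `X = cX`, `Y = cY`, `u² + v² = 1`), `g l =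
P X + Q Y + c3 W`, `W = f3`. Put `κ = (Q + c3) / 2`, `p l = - 2 P / (Q + c3)`, `q l = (Q - c3) / (Q + c3)`. For
`D = W - Y > 0`: `κ D (z - p x - q) = κ (W + Y) + P X - (Q - c3) / 2 * (W - Y) = P X + Q Y + c3 W`.
If `l` meets the region in `p0`: `D > 0` there (`|Y| < W` because `X² + Y² = f1² + f2² < W²`), and
`z - x² = (W² - Y² - X²) / D² > 0`, while `z = v l x`; so `x² < p x + q` for some `x`, so the polynomial
`x² - p x - q` has two roots `a < b`, `a + b = p`, `a b = - q`, and `p x + q - x² = (x - a) (b - x)`; this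
gives all fields of `Sy` (with `φ x = x²`) except `inj`. If `p l = p l'` and `q l = q l'` then
`(P, Q, c3) = κ (- p, 1 + q, 1 - q)` for `l`, and `= κ' (...)` for `l'`, so the forms `g l` and `g l'` are
proportional and `l = l'`.
-/

set_option autoImplicit false

namespace Pool.Agent.Work.MP_e64a38_co.CZ

private theorem cXY (C : Con) {u v : ℝ} (huv : u ^ 2 + v ^ 2 = 1) (p : ℝ × ℝ) :
    (cX C u v p) ^ 2 + (cY C u v p) ^ 2 = (C.f1.ev p) ^ 2 + (C.f2.ev p) ^ 2 := by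
  unfold cX cY
  linear_combination ((C.f1.ev p) ^ 2 + (C.f2.ev p) ^ 2) * huv

private theorem inn_par' (C : Con) (u v : ℝ) (huv : u ^ 2 + v ^ 2 = 1) (p : ℝ × ℝ) (hp : p ∈ C.inn) :
    0 < cD C u v p ∧ (xx C u v p) ^ 2 < zz C u v p := by
  obtain ⟨hW, hq⟩ := hp
  rw [← cXY C huv p] at hq
  have h1 : (cY C u v p) ^ 2 < (C.f3.ev p) ^ 2 := by nlinarith [sq_nonneg (cX C u v p)]
  have h2 := abs_lt_of_sq_lt_sq' h1 hW.le
  have hD : 0 < cD C u v p := by
    unfold cD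
    linarith [h2.2]
  refine ⟨hD, ?_⟩
  unfold xx zz
  rw [div_pow, lt_div_iff₀ hD, sq (cD C u v p), div_mul_eq_mul_div, div_lt_iff₀ (by positivity)]
  have h3 : (cX C u v p) ^ 2 < (C.f3.ev p + cY C u v p) * cD C u v p := by
    unfold cD
    nlinarith
  nlinarith

/-- the chord of one line -/
private theorem chord {C : Con} {g : Af} {u v : ℝ} (huv : u ^ 2 + v ^ 2 = 1)
    (hu : ∀ c1 c2 c3 : ℝ, (∀ p, g.ev p = c1 * C.f1.ev p + c2 * C.f2.ev p + c3 * C.f3.ev p) →
      c1 * u + c2 * v + c3 ≠ 0)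
    (hne : ({p | g.ev p = 0} ∩ C.inn).Nonempty) :
    ∃ a b κ : ℝ, κ ≠ 0 ∧ a < b ∧
      (∀ p, g.ev p = κ * (-(a + b) * cX C u v p + (1 - a * b) * cY C u v p + (1 + a * b) * C.f3.ev p)) ∧
      (∀ p, 0 < cD C u v p → g.ev p = κ * cD C u v p * (zz C u v p - ((a + b) * xx C u v p + -(a * b)))) := by
  obtain ⟨c1, c2, c3, hc⟩ := con_cof C g
  have hs := hu c1 c2 c3 hc
  obtain ⟨P, hP⟩ : ∃ P, P = c1 * v - c2 * u := ⟨_, rfl⟩
  obtain ⟨Q, hQ⟩ : ∃ Q, Q = c1 * u + c2 * v := ⟨_, rfl⟩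
  have hs' : Q + c3 ≠ 0 := by rw [hQ]; exact hs
  have hg : ∀ p, g.ev p = P * cX C u v p + Q * cY C u v p + c3 * C.f3.ev p := by
    intro p
    rw [hc p, hP, hQ]
    unfold cX cY
    linear_combination (-(c1 * C.f1.ev p) - c2 * C.f2.ev p) * huv
  obtain ⟨m, hm⟩ : ∃ m, m = -2 * P / (Q + c3) := ⟨_, rfl⟩
  obtain ⟨q, hq⟩ : ∃ q, q = (Q - c3) / (Q + c3) := ⟨_, rfl⟩
  have hm' : m * (Q + c3) = -2 * P := by rw [hm]; field_simp
  have hq' : q * (Q + c3) = Q - c3 := by rw [hq]; field_simp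
  have hg2 : ∀ p, 0 < cD C u v p →
      g.ev p = (Q + c3) / 2 * cD C u v p * (zz C u v p - (m * xx C u v p + q)) := by
    intro p hD
    have hx : cD C u v p * xx C u v p = cX C u v p := by unfold xx; field_simp
    have hz : cD C u v p * zz C u v p = C.f3.ev p + cY C u v p := by unfold zz; field_simp
    have hDe : cD C u v p = C.f3.ev p - cY C u v p := rfl
    rw [hg p]
    have e : (Q + c3) / 2 * cD C u v p * (zz C u v p - (m * xx C u v p + q)) =
        (Q + c3) / 2 * (cD C u v p * zz C u v p) - m * (Q + c3) / 2 * (cD C u v p * xx C u v p) -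
          q * (Q + c3) / 2 * cD C u v p := by ring
    rw [e, hx, hz, hm', hq', hDe]
    ring
  obtain ⟨p0, h0, hin⟩ := hne
  obtain ⟨hD0, hx0⟩ := inn_par' C u v huv p0 hin
  have hz0 : zz C u v p0 = m * xx C u v p0 + q := by
    have h1 := hg2 p0 hD0
    have h2 : g.ev p0 = 0 := h0
    rw [h2] at h1
    have h3 : (Q + c3) / 2 * cD C u v p0 ≠ 0 := mul_ne_zero (div_ne_zero hs' two_ne_zero) hD0.ne'
    have h4 := (mul_eq_zero.1 h1.symm).resolve_left h3
    linarith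
  have hΔ : 0 < m ^ 2 + 4 * q := by
    nlinarith [sq_nonneg (2 * xx C u v p0 - m)]
  have hr := Real.sq_sqrt hΔ.le
  have hr0 := Real.sqrt_pos.2 hΔ
  refine ⟨(m - √(m ^ 2 + 4 * q)) / 2, (m + √(m ^ 2 + 4 * q)) / 2, (Q + c3) / 2,
    div_ne_zero hs' two_ne_zero, by linarith, ?_, ?_⟩
  · intro p
    have e1 : (m - √(m ^ 2 + 4 * q)) / 2 + (m + √(m ^ 2 + 4 * q)) / 2 = m := by ring
    have e2 : (m - √(m ^ 2 + 4 * q)) / 2 * ((m + √(m ^ 2 + 4 * q)) / 2) = -q := by
      linear_combination (-1 / 4) * hr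
    rw [e1, e2, hg p]
    linear_combination (cX C u v p / 2) * hm' + (C.f3.ev p / 2 - cY C u v p / 2) * hq'
  · intro p hD
    have e1 : (m - √(m ^ 2 + 4 * q)) / 2 + (m + √(m ^ 2 + 4 * q)) / 2 = m := by ring
    have e2 : (m - √(m ^ 2 + 4 * q)) / 2 * ((m + √(m ^ 2 + 4 * q)) / 2) = -q := by
      linear_combination (-1 / 4) * hr
    rw [e1, e2, neg_neg]
    exact hg2 p hD

theorem sys_ex (C : Con) (L : Finset (Set (ℝ × ℝ))) (g : Set (ℝ × ℝ) → Af)
    (hg : ∀ l ∈ L, l = {p | (g l).ev p = 0}) (u v : ℝ) (huv : u ^ 2 + v ^ 2 = 1)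
    (hu : ∀ l ∈ L, ∀ c1 c2 c3 : ℝ,
      (∀ p, (g l).ev p = c1 * C.f1.ev p + c2 * C.f2.ev p + c3 * C.f3.ev p) →
      c1 * u + c2 * v + c3 ≠ 0) :
    ∃ S : Sy {l // l ∈ L ∧ (l ∩ C.inn).Nonempty}, Par S ∧
      ∀ l, ∃ κ : ℝ, κ ≠ 0 ∧ ∀ p, 0 < cD C u v p →
        (g l.1).ev p = κ * cD C u v p * (zz C u v p - S.v l (xx C u v p)) := by
  classical
  have key : ∀ l : {l // l ∈ L ∧ (l ∩ C.inn).Nonempty}, ∃ a b κ : ℝ, κ ≠ 0 ∧ a < b ∧
      (∀ p, (g l.1).ev p = κ * (-(a + b) * cX C u v p + (1 - a * b) * cY C u v p +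
        (1 + a * b) * C.f3.ev p)) ∧
      (∀ p, 0 < cD C u v p → (g l.1).ev p =
        κ * cD C u v p * (zz C u v p - ((a + b) * xx C u v p + -(a * b)))) := by
    rintro ⟨l, hl, hne⟩
    refine chord huv (hu l hl) ?_
    rwa [← hg l hl]
  choose a b κ hκ hab hform hval using key
  refine ⟨{ a := a, b := b, p := fun l => a l + b l, q := fun l => -(a l * b l), φ := fun x => x ^ 2
            lt := hab
            ea := fun l => by ring
            eb := fun l => by ring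
            above := fun l x h1 h2 => by nlinarith [mul_pos (sub_pos.2 h1) (sub_pos.2 h2)]
            below := fun l x h => ?_
            inj := fun l l' h1 h2 => ?_ }, ⟨fun _ => rfl, fun _ => rfl, fun _ => rfl⟩, fun l => ⟨κ l, hκ l, hval l⟩⟩
  · have h3 := hab l
    rcases h with h | h
    · nlinarith [mul_pos (sub_pos.2 h) (sub_pos.2 (h.trans h3))]
    · nlinarith [mul_pos (sub_pos.2 h) (sub_pos.2 (h3.trans h))]
  · have h2' : a l * b l = a l' * b l' := neg_injective h2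
    apply Subtype.ext
    rw [hg l.1 l.2.1, hg l'.1 l'.2.1]
    ext p
    simp only [Set.mem_ofPred_eq]
    rw [hform l p, hform l' p]
    have h1' : a l + b l = a l' + b l' := h1
    rw [h1', h2']
    rw [mul_eq_zero, mul_eq_zero]
    constructor
    · rintro (h | h)
      · exact absurd h (hκ l)
      · exact Or.inr h
    · rintro (h | h)
      · exact absurd h (hκ l')
      · exact Or.inr h

/-- on the region `cD` is positive and the point is above the parabola -/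
theorem inn_par (C : Con) (u v : ℝ) (huv : u ^ 2 + v ^ 2 = 1) (p : ℝ × ℝ) (hp : p ∈ C.inn) :
    0 < cD C u v p ∧ (xx C u v p) ^ 2 < zz C u v p :=
  inn_par' C u v huv p hp

/-- on the curve, away from one point, `cD` is positive and the point is on the parabola -/
theorem crv_par (C : Con) (u v : ℝ) (huv : u ^ 2 + v ^ 2 = 1) (p : ℝ × ℝ) (hp : p ∈ C.crv)
    (h : cD C u v p ≠ 0) : 0 < cD C u v p ∧ (xx C u v p) ^ 2 = zz C u v p := by
  obtain ⟨hW, hq⟩ := hp
  rw [← cXY C huv p] at hq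
  have h1 : (cY C u v p) ^ 2 ≤ (C.f3.ev p) ^ 2 := by nlinarith [sq_nonneg (cX C u v p)]
  have h2 := abs_le_of_sq_le_sq' h1 hW.le
  have hD : 0 < cD C u v p := by
    refine lt_of_le_of_ne ?_ (Ne.symm h)
    unfold cD
    linarith [h2.2]
  refine ⟨hD, ?_⟩
  have h3 : (cX C u v p) ^ 2 = (C.f3.ev p + cY C u v p) * cD C u v p := by
    unfold cD
    linear_combination hq
  unfold xx zz
  rw [div_pow, h3]
  field_simp

end Pool.Agent.Work.MP_e64a38_co.CZ
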