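import Pool.Agent.Work.MP_e64a38_co.CZ.GDefs

/-!
# Cells of the curve and their edges (fixed file)

`Sg S y` : the signature of the curve point over `y`, the set of the chords over `y`.
`Sgs S` : the set of all signatures.  They correspond to the cells that touch the curve: the cell of
signature `A` is below the chords in `A` and above all others.
`Ed S A i` : the chord `i` carries an edge of the cell of signature `A`: some point of `i` above the curve is
strictly below all other chords of `A` and strictly above all other chords not in `A`.
`Prs S` : the pairs `(q, s)` with a visible crossing.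
-/

set_option autoImplicit false

namespace Pool.Agent.Work.MP_e64a38_co.CZ

variable {ι : Type} [Fintype ι]

open Classical in
/-- signature of the curve point over `y` -/
noncomputable def Sg (S : Sy ι) (y : ℝ) : Finset ι := Finset.univ.filter (fun i => Al S y i)

open Classical in
/-- all signatures -/
noncomputable def Sgs (S : Sy ι) : Finset (Finset ι) :=
  Finset.univ.filter (fun A => ∃ y, Off S y ∧ Sg S y = A)

/-- chord `i` carries an edge of the cell of signature `A`, with a point over `x` -/
def EdAt (S : Sy ι) (A : Finset ι) (i : ι) (x : ℝ) : Prop :=
  S.φ x < S.v i x ∧ ∀ j, j ≠ i → (j ∈ A → S.v i x < S.v j x) ∧ (j ∉ A → S.v j x < S.v i x)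

/-- chord `i` carries an edge of the cell of signature `A` -/
def Ed (S : Sy ι) (A : Finset ι) (i : ι) : Prop := ∃ x, EdAt S A i x

open Classical in
/-- pairs with a visible crossing -/
noncomputable def Prs (S : Sy ι) : Finset (ι × ι) :=
  Finset.univ.filter (fun t => ∃ f y, Vis S t.1 t.2 f y)

open Classical in
/-- number of edges of all cells that touch the curve -/
noncomputable def nEd (S : Sy ι) : ℕ :=
  ∑ A ∈ Sgs S, (Finset.univ.filter (fun i => Ed S A i)).card

end Pool.Agent.Work.MP_e64a38_co.CZ
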