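import Pool.Agent.Work.MP_e64a38_co.CZ.FCel
import Pool.Agent.Work.MP_e64a38_co.CZ.FSys
import Pool.Agent.Work.MP_e64a38_co.CZ.ZDefs

/-!
# The edges of the cells of the curve in terms of the chord system (size M-L)

Let `K` be a cell that is described by `y` as in `zn_pt`, `l ∈ L`, and let the closure of `K` contain two points
`p1 ≠ p2` of `l`. Then `l` meets the region and `Ed S (Sg S y) l`.

Proof. Let `m` be the midpoint, `m ∈ inn` (`mid_inn`; `K ⊆ inn` by `cel_sub`) and `m ∈ l` (affine). So `l`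
meets the region. Let `x = xx m`; `zz m = v l x` (by `hk`: `g l m = 0`, `κ ≠ 0`, `cD m > 0` by `inn_par`), and
`S.φ x = x² < zz m = v l x` (`inn_par`, `Par`). Let `j ≠ l` be another line of the system. `K` is not empty, let
`p0 ∈ K`. By `cel_eq` `g j p * g j p0 > 0` for all `p ∈ K`, so `g j p1 * g j p0 ≥ 0`, `g j p2 * g j p0 ≥ 0`
(closure), so `g j m * g j p0 ≥ 0` and `= 0` only if `g j p1 = g j p2 = 0`, which is impossible by `two_pts`
(`j ≠ l`). So `g j m * g j p0 > 0`; with `hk` for `m` and `p0`: `(zz m - v j x)` and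
`(zz p0 - v j (xx p0))` have the same sign, which by the description of `K` is negative if `j ∈ Sg S y` and
positive if not. So `v l x = zz m < v j x`, resp. `v j x < zz m = v l x`: `EdAt S (Sg S y) l x`.
-/

set_option autoImplicit false

namespace Pool.Agent.Work.MP_e64a38_co.CZ

open Classical in
noncomputable instance finSub (L : Finset (Set (ℝ × ℝ))) (C : Con) :
    Fintype {l // l ∈ L ∧ (l ∩ C.inn).Nonempty} :=
  Fintype.ofInjective (fun l : {l // l ∈ L ∧ (l ∩ C.inn).Nonempty} => (⟨l.1, l.2.1⟩ : {l // l ∈ L}))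
    (fun l l' h => by
      apply Subtype.ext
      simpa using congrArg Subtype.val h)

private theorem fe_pos {a b : ℝ} (h : 0 < a * b) (hb : 0 ≤ b) : 0 < a := by
  by_contra hc
  push Not at hc
  have h1 := mul_nonpos_of_nonpos_of_nonneg hc hb
  linarith

private theorem fe_cont (g : Af) : Continuous g.ev := by
  unfold Af.ev
  fun_prop

private theorem fe_mid (g : Af) (p q : ℝ × ℝ) :
    g.ev ((p.1 + q.1) / 2, (p.2 + q.2) / 2) = (g.ev p + g.ev q) / 2 := by
  unfold Af.ev
  simp only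
  ring

theorem ed_pt (C : Con) (L : Finset (Set (ℝ × ℝ))) (g : Set (ℝ × ℝ) → Af)
    (hg : ∀ l ∈ L, ((g l).a ≠ 0 ∨ (g l).b ≠ 0) ∧ l = {p | (g l).ev p = 0})
    (u v : ℝ) (huv : u ^ 2 + v ^ 2 = 1) (S : Sy {l // l ∈ L ∧ (l ∩ C.inn).Nonempty}) (hS : Par S)
    (hk : ∀ l, ∃ κ : ℝ, κ ≠ 0 ∧ ∀ p, 0 < cD C u v p →
        (g l.1).ev p = κ * cD C u v p * (zz C u v p - S.v l (xx C u v p)))
    (K : Set (ℝ × ℝ)) (hK : IsCel C L K) (y : ℝ) (hy : Off S y)
    (hyK : ∀ p ∈ C.inn, (p ∈ K ↔ ∀ l, (Al S y l → zz C u v p < S.v l (xx C u v p)) ∧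
      (¬ Al S y l → S.v l (xx C u v p) < zz C u v p)))
    (l : Set (ℝ × ℝ)) (hl : l ∈ L) (hn : (closure K ∩ l).Nontrivial) :
    ∃ h : l ∈ L ∧ (l ∩ C.inn).Nonempty, Ed S (Sg S y) ⟨l, h⟩ := by
  classical
  obtain ⟨p1, ⟨hp1c, hp1l⟩, p2, ⟨hp2c, hp2l⟩, hne⟩ := hn
  obtain ⟨hKin, ⟨p0, hp0⟩, -⟩ := cel_sub C L K hK
  have hm := mid_inn C p1 p2 (closure_mono hKin hp1c) (closure_mono hKin hp2c) hne
  obtain ⟨m, hmd⟩ : ∃ m : ℝ × ℝ, m = ((p1.1 + p2.1) / 2, (p1.2 + p2.2) / 2) := ⟨_, rfl⟩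
  rw [← hmd] at hm
  have hgm : ∀ f : Af, f.ev m = (f.ev p1 + f.ev p2) / 2 := by
    intro f
    rw [hmd, fe_mid]
  have hlp : ∀ q, q ∈ l ↔ (g l).ev q = 0 := by
    intro q
    have h1 := (hg l hl).2
    constructor
    · intro hq
      rw [h1] at hq
      exact hq
    · intro hq
      rw [h1]
      exact hq
  have hm0 : (g l).ev m = 0 := by
    rw [hgm, (hlp p1).1 hp1l, (hlp p2).1 hp2l]
    norm_num
  have h : l ∈ L ∧ (l ∩ C.inn).Nonempty := ⟨hl, m, (hlp m).2 hm0, hm⟩
  refine ⟨h, xx C u v m, ?_, ?_⟩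
  all_goals
    obtain ⟨hDm, hparm⟩ := inn_par C u v huv m hm
    obtain ⟨κ, hκ, hk1⟩ := hk ⟨l, h⟩
    have hz : zz C u v m = S.v ⟨l, h⟩ (xx C u v m) := by
      have h1 := hk1 m hDm
      have h2 : (g l).ev m = κ * cD C u v m * (zz C u v m - S.v ⟨l, h⟩ (xx C u v m)) := h1
      rw [hm0] at h2
      have h3 : κ * cD C u v m ≠ 0 := mul_ne_zero hκ hDm.ne'
      have h4 := (mul_eq_zero.1 h2.symm).resolve_left h3
      linarith
  · rw [hS.2.2, ← hz]
    exact hparm
  · intro j hj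
    have hKeq := cel_eq C L g (fun l hl => (hg l hl).2) K hK p0 hp0
    have hpos : ∀ p ∈ K, 0 < (g j.1).ev p * (g j.1).ev p0 := by
      intro p hp
      rw [hKeq] at hp
      exact hp.2 j.1 j.2.1
    have hcl : ∀ p ∈ closure K, 0 ≤ (g j.1).ev p * (g j.1).ev p0 := by
      intro p hp
      have hc : IsClosed {p | 0 ≤ (g j.1).ev p * (g j.1).ev p0} :=
        isClosed_le continuous_const ((fe_cont _).mul continuous_const)
      exact closure_minimal (fun p hp => (hpos p hp).le) hc hp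
    have hp00 : (g j.1).ev p0 ≠ 0 := by
      intro h0
      have := hpos p0 hp0
      rw [h0, mul_zero] at this
      exact lt_irrefl _ this
    have hmp : 0 < (g j.1).ev m * (g j.1).ev p0 := by
      have h1 := hcl p1 hp1c
      have h2 := hcl p2 hp2c
      have h3 : (g j.1).ev m * (g j.1).ev p0 =
          ((g j.1).ev p1 * (g j.1).ev p0 + (g j.1).ev p2 * (g j.1).ev p0) / 2 := by
        rw [hgm]
        ring
      rcases lt_or_eq_of_le (add_nonneg h1 h2) with h4 | h4
      · rw [h3]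
        linarith
      · exfalso
        have h5 : (g j.1).ev p1 * (g j.1).ev p0 = 0 := by linarith
        have h6 : (g j.1).ev p2 * (g j.1).ev p0 = 0 := by linarith
        have h7 := (mul_eq_zero.1 h5).resolve_right hp00
        have h8 := (mul_eq_zero.1 h6).resolve_right hp00
        have h9 := two_pts (g l) (g j.1) (hg l hl).1 (hg j.1 j.2.1).1 p1 p2 hne
          ((hlp p1).1 hp1l) ((hlp p2).1 hp2l) h7 h8
        apply hj
        apply Subtype.ext
        change j.1 = l
        rw [(hg l hl).2, (hg j.1 j.2.1).2]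
        exact h9.symm
    obtain ⟨κ', hκ', hk2⟩ := hk j
    obtain ⟨hD0, -⟩ := inn_par C u v huv p0 (hKin hp0)
    have hsg : 0 < (zz C u v m - S.v j (xx C u v m)) * (zz C u v p0 - S.v j (xx C u v p0)) := by
      rw [hk2 m hDm, hk2 p0 hD0] at hmp
      have h1 : 0 < κ' ^ 2 * (cD C u v m * cD C u v p0) :=
        mul_pos (by positivity) (mul_pos hDm hD0)
      have h2 : κ' * cD C u v m * (zz C u v m - S.v j (xx C u v m)) *
          (κ' * cD C u v p0 * (zz C u v p0 - S.v j (xx C u v p0))) =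
          (κ' ^ 2 * (cD C u v m * cD C u v p0)) * ((zz C u v m - S.v j (xx C u v m)) *
            (zz C u v p0 - S.v j (xx C u v p0))) := by ring
      rw [h2] at hmp
      exact (mul_pos_iff_of_pos_left h1).1 hmp
    have hdesc := (hyK p0 (hKin hp0)).1 hp0 j
    have hmem : j ∈ Sg S y ↔ Al S y j := by
      unfold Sg
      simp
    rw [hmem, ← hz]
    constructor
    · intro h1
      have h2 := hdesc.1 h1
      by_contra h3
      push Not at h3
      have h4 : 0 ≤ zz C u v m - S.v j (xx C u v m) := by linarith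
      have h5 : zz C u v p0 - S.v j (xx C u v p0) ≤ 0 := by linarith
      have h6 := mul_nonpos_of_nonneg_of_nonpos h4 h5
      linarith
    · intro h1
      have h2 := hdesc.2 h1
      have h3 : 0 < zz C u v p0 - S.v j (xx C u v p0) := by linarith
      have h4 := fe_pos hsg h3.le
      linarith

end Pool.Agent.Work.MP_e64a38_co.CZ
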