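import Pool.Agent.Work.MP_e64a38_co.CZ.FCel
import Pool.Agent.Work.MP_e64a38_co.CZ.FSys

/-!
# The cells of the curve in terms of the chord system (size M-L)

Let `S` be as in `sys_ex`. For a cell `K` of the curve there is `y`, off, such that `K` is the set of the
points `p` of the region that are below the chords over `y` and above all others:
for `p ∈ inn`: `p ∈ K ↔ ∀ l, (Al S y l → z < v l x) ∧ (¬ Al S y l → v l x < z)`, `x = xx p`, `z = zz p`.

Proof. `closure K ∩ crv` is infinite, so it contains a point `γ` with `cD γ ≠ 0` (`top_fin`) and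
`g l γ ≠ 0` for all `l ∈ L` (`crv_fin`). `cD γ > 0`, and with `y = xx γ`, `zz γ = y²` (`crv_par`). For `l` in
the system: `g l γ = κ cD γ (y² - v l y)` and `y² - v l y = - (y - a l) (b l - y)` (`Par`), so `y ≠ a l, b l`
(`Off`), and `y² - v l y < 0` iff `Al S y l`. By continuity of the finitely many `g l` there is `p1 ∈ K` close
to `γ` with `g l p1 * g l γ > 0` for all `l ∈ L` (`mem_closure_iff` with an open neighbourhood). By `cel_eq`
for `p0 = p1`: for `p ∈ inn`: `p ∈ K` iff `g l p * g l γ > 0` for all `l ∈ L`. If `l` does not meet the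
region then `g l` has no zero on the convex set `inn`, so `g l p * g l p1 > 0` for all `p ∈ inn`, this
condition is void. If `l` meets the region: `g l p * g l γ = κ² cD p cD γ (z - v l x) (y² - v l y)`.
-/

set_option autoImplicit false

namespace Pool.Agent.Work.MP_e64a38_co.CZ

private theorem fp_pos {a b : ℝ} (h : 0 < a * b) (hb : 0 ≤ b) : 0 < a := by
  by_contra hc
  push Not at hc
  have h1 := mul_nonpos_of_nonpos_of_nonneg hc hb
  linarith

private theorem fp_cont (g : Af) : Continuous g.ev := by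
  unfold Af.ev
  fun_prop

private theorem fp_aff (g : Af) (p q : ℝ × ℝ) (a b : ℝ) (h : a + b = 1) :
    g.ev (a • p + b • q) = a * g.ev p + b * g.ev q := by
  unfold Af.ev
  simp only [Prod.fst_add, Prod.snd_add, Prod.smul_fst, Prod.smul_snd, smul_eq_mul]
  have h2 : b = 1 - a := by linarith
  rw [h2]
  ring

private theorem fp_sign (C : Con) (g : Af) (h : ∀ p ∈ C.inn, g.ev p ≠ 0) (p q : ℝ × ℝ)
    (hp : p ∈ C.inn) (hq : q ∈ C.inn) : 0 < g.ev p * g.ev q := by
  by_contra hcon
  push Not at hcon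
  have hp0 := h p hp
  have hq0 := h q hq
  have hlt : g.ev p * g.ev q < 0 := lt_of_le_of_ne hcon (mul_ne_zero hp0 hq0)
  have hne : g.ev p - g.ev q ≠ 0 := by
    intro h0
    have h1 : g.ev p = g.ev q := by linarith
    rw [h1] at hlt
    nlinarith [mul_self_nonneg (g.ev q)]
  have hmem : (-g.ev q / (g.ev p - g.ev q)) • p + (g.ev p / (g.ev p - g.ev q)) • q ∈ C.inn := by
    apply inn_conv C hp hq
    · rcases lt_or_gt_of_ne hp0 with h1 | h1
      · have h2 : 0 < g.ev q := by nlinarith
        apply div_nonneg_of_nonpos <;> linarith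
      · have h2 : g.ev q < 0 := by nlinarith
        apply div_nonneg <;> linarith
    · rcases lt_or_gt_of_ne hp0 with h1 | h1
      · have h2 : 0 < g.ev q := by nlinarith
        apply div_nonneg_of_nonpos <;> linarith
      · have h2 : g.ev q < 0 := by nlinarith
        apply div_nonneg <;> linarith
    · field_simp
      ring
  apply h _ hmem
  rw [fp_aff]
  · field_simp
    ring
  · field_simp
    ring

theorem zn_pt (C : Con) (L : Finset (Set (ℝ × ℝ))) (g : Set (ℝ × ℝ) → Af)
    (hg : ∀ l ∈ L, ((g l).a ≠ 0 ∨ (g l).b ≠ 0) ∧ l = {p | (g l).ev p = 0})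
    (u v : ℝ) (huv : u ^ 2 + v ^ 2 = 1) (S : Sy {l // l ∈ L ∧ (l ∩ C.inn).Nonempty}) (hS : Par S)
    (hk : ∀ l, ∃ κ : ℝ, κ ≠ 0 ∧ ∀ p, 0 < cD C u v p →
        (g l.1).ev p = κ * cD C u v p * (zz C u v p - S.v l (xx C u v p)))
    (K : Set (ℝ × ℝ)) (hK : Zn C L K) :
    ∃ y, Off S y ∧ ∀ p ∈ C.inn, (p ∈ K ↔ ∀ l, (Al S y l → zz C u v p < S.v l (xx C u v p)) ∧
      (¬ Al S y l → S.v l (xx C u v p) < zz C u v p)) := by
  obtain ⟨hcel, hinf⟩ := hK
  -- a good point of the curve
  have hfin : ((C.crv ∩ {p | cD C u v p = 0}) ∪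
      ⋃ l ∈ L, (C.crv ∩ {p | (g l).ev p = 0})).Finite := by
    apply Set.Finite.union (top_fin C u v huv)
    apply Set.Finite.biUnion (Finset.finite_toSet L)
    intro l hl
    exact crv_fin C (g l) (hg l hl).1
  obtain ⟨γ, ⟨hγ1, hγ2⟩, hγ3⟩ := (hinf.sdiff hfin).nonempty
  have hD : cD C u v γ ≠ 0 := fun h0 => hγ3 (Or.inl ⟨hγ2, h0⟩)
  have hgγ : ∀ l ∈ L, (g l).ev γ ≠ 0 := fun l hl h0 =>
    hγ3 (Or.inr (Set.mem_biUnion hl ⟨hγ2, h0⟩))
  obtain ⟨hD0, hpar⟩ := crv_par C u v huv γ hγ2 hD
  have hfac : ∀ l, (xx C u v γ) ^ 2 - S.v l (xx C u v γ) =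
      (xx C u v γ - S.a l) * (xx C u v γ - S.b l) := by
    intro l
    unfold Sy.v
    rw [hS.1 l, hS.2.1 l]
    ring
  have hne : ∀ l, (xx C u v γ - S.a l) * (xx C u v γ - S.b l) ≠ 0 := by
    intro l h0
    obtain ⟨κ, hκ, hk1⟩ := hk l
    apply hgγ l.1 l.2.1
    rw [hk1 γ hD0, ← hpar, hfac l, h0, mul_zero]
  refine ⟨xx C u v γ, ?_, ?_⟩
  · intro l
    constructor
    · intro h0
      exact hne l (by rw [← h0, sub_self, zero_mul])
    · intro h0
      exact hne l (by rw [← h0, sub_self, mul_zero])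
  -- a point of the cell near the point of the curve
  have hUo : IsOpen {p | ∀ l ∈ L, 0 < (g l).ev p * (g l).ev γ} := by
    have h1 : {p | ∀ l ∈ L, 0 < (g l).ev p * (g l).ev γ} =
        ⋂ l ∈ L, {p | 0 < (g l).ev p * (g l).ev γ} := by
      ext p
      simp
    rw [h1]
    apply isOpen_biInter_finset
    intro l _
    exact isOpen_lt continuous_const ((fp_cont (g l)).mul continuous_const)
  obtain ⟨p1, hp1U, hp1K⟩ := mem_closure_iff.1 hγ1 _ hUo
    (fun l hl => mul_self_pos.2 (hgγ l hl))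
  have hp1in : p1 ∈ C.inn := (cel_sub C L K hcel).1 hp1K
  have hKeq := cel_eq C L g (fun l hl => (hg l hl).2) K hcel p1 hp1K
  have hK2 : ∀ p ∈ C.inn, (p ∈ K ↔ ∀ l ∈ L, 0 < (g l).ev p * (g l).ev γ) := by
    intro p hp
    rw [hKeq]
    constructor
    · rintro ⟨-, h⟩ l hl
      have h1 := h l hl
      have h2 := hp1U l hl
      have h3 : 0 < ((g l).ev p * (g l).ev γ) * ((g l).ev p1 * (g l).ev p1) := by
        have h4 := mul_pos h1 h2
        calc 0 < (g l).ev p * (g l).ev p1 * ((g l).ev p1 * (g l).ev γ) := h4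
          _ = _ := by ring
      exact fp_pos h3 (mul_self_nonneg _)
    · intro h
      refine ⟨hp, fun l hl => ?_⟩
      have h1 := h l hl
      have h2 := hp1U l hl
      have h3 : 0 < ((g l).ev p * (g l).ev p1) * ((g l).ev γ * (g l).ev γ) := by
        have h4 := mul_pos h1 h2
        calc 0 < (g l).ev p * (g l).ev γ * ((g l).ev p1 * (g l).ev γ) := h4
          _ = _ := by ring
      exact fp_pos h3 (mul_self_nonneg _)
  intro p hp
  rw [hK2 p hp]
  obtain ⟨hDp, -⟩ := inn_par C u v huv p hp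
  have hkey : ∀ l : {l // l ∈ L ∧ (l ∩ C.inn).Nonempty}, 0 < (g l.1).ev p * (g l.1).ev γ ↔
      0 < (zz C u v p - S.v l (xx C u v p)) *
        ((xx C u v γ - S.a l) * (xx C u v γ - S.b l)) := by
    intro l
    obtain ⟨κ, hκ, hk1⟩ := hk l
    rw [hk1 p hDp, hk1 γ hD0, ← hpar, hfac l]
    have h1 : 0 < κ ^ 2 * (cD C u v p * cD C u v γ) :=
      mul_pos (by positivity) (mul_pos hDp hD0)
    have h2 : κ * cD C u v p * (zz C u v p - S.v l (xx C u v p)) *
        (κ * cD C u v γ * ((xx C u v γ - S.a l) * (xx C u v γ - S.b l))) =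
        (κ ^ 2 * (cD C u v p * cD C u v γ)) * ((zz C u v p - S.v l (xx C u v p)) *
          ((xx C u v γ - S.a l) * (xx C u v γ - S.b l))) := by ring
    rw [h2]
    exact mul_pos_iff_of_pos_left h1
  have hal : ∀ l, Al S (xx C u v γ) l ↔
      (xx C u v γ - S.a l) * (xx C u v γ - S.b l) < 0 := by
    intro l
    have hlt := S.lt l
    constructor
    · rintro ⟨h1, h2⟩
      exact mul_neg_of_pos_of_neg (by linarith) (by linarith)
    · intro h
      rcases mul_neg_iff.1 h with ⟨h1, h2⟩ | ⟨h1, h2⟩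
      · exact ⟨by linarith, by linarith⟩
      · exfalso
        linarith
  constructor
  · intro h l
    have h1 := (hkey l).1 (h l.1 l.2.1)
    constructor
    · intro h2
      have h3 := (hal l).1 h2
      by_contra h4
      push Not at h4
      have h5 : 0 ≤ zz C u v p - S.v l (xx C u v p) := by linarith
      have h6 := mul_nonpos_of_nonneg_of_nonpos h5 h3.le
      linarith
    · intro h2
      have h3 : 0 < (xx C u v γ - S.a l) * (xx C u v γ - S.b l) := by
        rcases lt_or_gt_of_ne (hne l) with h4 | h4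
        · exact absurd ((hal l).2 h4) h2
        · exact h4
      have h5 := fp_pos h1 h3.le
      linarith
  · intro h l hl
    by_cases hmeet : (l ∩ C.inn).Nonempty
    · have h1 := h ⟨l, hl, hmeet⟩
      refine (hkey ⟨l, hl, hmeet⟩).2 ?_
      by_cases h2 : Al S (xx C u v γ) ⟨l, hl, hmeet⟩
      · have h3 := h1.1 h2
        exact mul_pos_of_neg_of_neg (by linarith) ((hal _).1 h2)
      · have h3 := h1.2 h2
        have h4 : 0 < (xx C u v γ - S.a ⟨l, hl, hmeet⟩) * (xx C u v γ - S.b ⟨l, hl, hmeet⟩) := by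
          rcases lt_or_gt_of_ne (hne ⟨l, hl, hmeet⟩) with h5 | h5
          · exact absurd ((hal _).2 h5) h2
          · exact h5
        exact mul_pos (by linarith) h4
    · have hno : ∀ q ∈ C.inn, (g l).ev q ≠ 0 := by
        intro q hq h0
        apply hmeet
        refine ⟨q, ?_, hq⟩
        rw [(hg l hl).2]
        exact h0
      have h1 := fp_sign C (g l) hno p p1 hp hp1in
      have h2 := hp1U l hl
      have h3 : 0 < ((g l).ev p * (g l).ev γ) * ((g l).ev p1 * (g l).ev p1) := by
        have h4 := mul_pos h1 h2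
        calc 0 < (g l).ev p * (g l).ev p1 * ((g l).ev p1 * (g l).ev γ) := h4
          _ = _ := by ring
      exact fp_pos h3 (mul_self_nonneg _)

end Pool.Agent.Work.MP_e64a38_co.CZ
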