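import Pool.Agent.Work.MP_e64a38_co.CZ.ZDefs

/-!
# The number of signatures (size S-M)

`(Sgs S).card ≤ 2 card ι + 1`. Choose `y_A` with `Off`, `Sg S y_A = A` for every `A ∈ Sgs S`, and map `A` to
`N(y_A) = #{(i, side) : the end of i is < y_A}` = `#{i : a i < y} + #{i : b i < y}` in `{0, …, 2n}`. It is
injective: `#{i : a i < y}` and `#{i : b i < y}` are monotone in `y`, so for `y ≤ y'` with the same sum
both numbers agree, hence the sets `{i : a i < y}` and `{i : a i < y'}` (one contained in the other) agree,
the same for `b`, and `Al y i ↔ a i < y ∧ ¬ b i < y` because `y` is off.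
-/

set_option autoImplicit false

namespace Pool.Agent.Work.MP_e64a38_co.CZ

variable {ι : Type} [Fintype ι]

open Classical in
private theorem zc_mono (S : Sy ι) {y y' : ℝ} (hyy : y ≤ y') (h : Off S y) (h' : Off S y')
    (hN : (Finset.univ.filter (fun i => S.a i < y)).card +
      (Finset.univ.filter (fun i => S.b i < y)).card =
      (Finset.univ.filter (fun i => S.a i < y')).card +
      (Finset.univ.filter (fun i => S.b i < y')).card) : Sg S y = Sg S y' := by
  have s1 : Finset.univ.filter (fun i => S.a i < y) ⊆ Finset.univ.filter (fun i => S.a i < y') := by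
    intro i hi
    rw [Finset.mem_filter] at hi ⊢
    exact ⟨hi.1, lt_of_lt_of_le hi.2 hyy⟩
  have s2 : Finset.univ.filter (fun i => S.b i < y) ⊆ Finset.univ.filter (fun i => S.b i < y') := by
    intro i hi
    rw [Finset.mem_filter] at hi ⊢
    exact ⟨hi.1, lt_of_lt_of_le hi.2 hyy⟩
  have c1 := Finset.card_le_card s1
  have c2 := Finset.card_le_card s2
  have e1 := Finset.eq_of_subset_of_card_le s1 (by omega)
  have e2 := Finset.eq_of_subset_of_card_le s2 (by omega)
  unfold Sg
  ext i
  rw [Finset.mem_filter, Finset.mem_filter]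
  have g1 : S.a i < y ↔ S.a i < y' := by
    have := Finset.ext_iff.1 e1 i
    simpa using this
  have g2 : S.b i < y ↔ S.b i < y' := by
    have := Finset.ext_iff.1 e2 i
    simpa using this
  have k1 : y < S.b i ↔ ¬ S.b i < y :=
    ⟨fun hh => not_lt.2 hh.le, fun hh => lt_of_le_of_ne (not_lt.1 hh) (h i).2⟩
  have k2 : y' < S.b i ↔ ¬ S.b i < y' :=
    ⟨fun hh => not_lt.2 hh.le, fun hh => lt_of_le_of_ne (not_lt.1 hh) (h' i).2⟩
  unfold Al
  rw [k1, k2, g1, g2]

theorem sgs_card (S : Sy ι) : (Sgs S).card ≤ 2 * Fintype.card ι + 1 := by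
  classical
  have hex : ∀ A : Finset ι, ∃ y : ℝ, A ∈ Sgs S → Off S y ∧ Sg S y = A := by
    intro A
    by_cases hA : A ∈ Sgs S
    · unfold Sgs at hA
      obtain ⟨y, hy1, hy2⟩ := (Finset.mem_filter.1 hA).2
      exact ⟨y, fun _ => ⟨hy1, hy2⟩⟩
    · exact ⟨0, fun h => absurd h hA⟩
  choose yy hyy using hex
  have h1 : (Sgs S).card ≤ (Finset.range (2 * Fintype.card ι + 1)).card := by
    apply Finset.card_le_card_of_injOn (fun A =>
      (Finset.univ.filter (fun i => S.a i < yy A)).card +
        (Finset.univ.filter (fun i => S.b i < yy A)).card)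
    · intro A _
      have c1 := Finset.card_le_univ (Finset.univ.filter (fun i => S.a i < yy A))
      have c2 := Finset.card_le_univ (Finset.univ.filter (fun i => S.b i < yy A))
      simp only [Finset.coe_range, Set.mem_Iio]
      omega
    · intro A hA B hB hAB
      have hA' := hyy A hA
      have hB' := hyy B hB
      simp only at hAB
      rcases le_total (yy A) (yy B) with hle | hle
      · have h2 := zc_mono S hle hA'.1 hB'.1 hAB
        rw [← hA'.2, ← hB'.2, h2]
      · have h2 := zc_mono S hle hB'.1 hA'.1 hAB.symm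
        rw [← hA'.2, ← hB'.2, h2]
  rwa [Finset.card_range] at h1

end Pool.Agent.Work.MP_e64a38_co.CZ
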