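import Pool.Agent.Work.MP_e64a38_co.CZ.GPar
import Pool.Agent.Work.MP_e64a38_co.CZ.ZDefs
import Pool.Agent.Work.MP_e64a38_co.CZ.ZCells

/-!
# Balanced strong crossings (size M-L)

Parabola. If `b s - f < 50 (f - a s)`, `f - a q < 50 (b q - f)` and `2 (b s - f) ≤ b q - f` for all pairs of
the family then `P.card ≤ 7 * (2 card ι + 1)`.

Proof. Group the pairs by the signature `Sg S (y t)`; there are at most `2 card ι + 1` signatures
(`sgs_card`; `Sg S (y t) ∈ Sgs S`). Let `t₁ = (q₁, s₁) ≠ t₂ = (q₂, s₂)` have the same signature, so the same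
chords are alive at `y₁` and `y₂`. Then:
(a) `f₁ ≠ f₂`: otherwise `up` gives `v q₁ f = v q₂ f`, all four lines pass through this point and by `ex`
`p q₁ = p q₂`, `p s₁ = p s₂`, `t₁ = t₂` (as in `four`).
(b) if `f₁ < f₂` then `a q₂ ≤ a s₁` and `b q₂ ≤ b s₁`. If `q₂ = s₁` this is clear. Otherwise
`v q₂ f₁ ≥ v q₁ f₁ = v s₁ f₁`, `v s₁ f₂ ≥ v q₂ f₂` (`up`), so `p q₂ ≤ p s₁`. Suppose `a s₁ < a q₂`. On the
parabola `p = a + b`, so `b q₂ < b s₁`; `q₂` is inside `s₁`, and `a q₂ < f₁ < b q₂` (`vis_al`), so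
`v q₂ f₁ < v s₁ f₁` (`nest_lt`), contradiction. So `a q₂ ≤ a s₁`. Suppose `b s₁ < b q₂`. Then, since
`p q₂ ≤ p s₁`, `a q₂ < a s₁`, `s₁` is inside `q₂` and `v s₁ f₂ < v q₂ f₂` (`a s₁ < f₂ < b s₁` by `vis_al`),
contradiction. So `b q₂ ≤ b s₁`.
Put `ψ = (f - a q) / (b q - f)`, `ρ = (f - a s) / (b s - f)` (positive). `ρ ≥ 4 ψ`, because
`b s - f ≤ (b q - f) / 2` and `f - a s ≥ 2 (f - a q)` (`par_ratio`). `ψ < 50`, `ρ > 1/50`. By (b), for
`f₁ < f₂`: `ψ₂ = (f₂ - a q₂) / (b q₂ - f₂) ≥ (f₂ - a s₁) / (b s₁ - f₂) ≥ (f₁ - a s₁) / (b s₁ - f₁) = ρ₁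
≥ 4 ψ₁` (`f₂ < b q₂ ≤ b s₁`). So for one signature all pairs except the one with the least `f` have
`ψ ∈ (1/50, 50)`, and `t ↦ ⌊Real.logb 4 (ψ t)⌋` is injective on them with values in `{-3, …, 2}`
(`1/64 < 1/50`, `50 < 64`): at most `6`, together at most `7` for each signature.
-/

set_option autoImplicit false

namespace Pool.Agent.Work.MP_e64a38_co.CZ

variable {ι : Type} [Fintype ι]

private theorem log_card {β : Type} (F : Finset β) (r : β → ℝ) (K : ℝ) (hK : 1 < K) (lo hi : ℤ)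
    (n : ℕ) (hn : hi + 1 - lo = n) (hlo : ∀ t ∈ F, K ^ lo ≤ r t)
    (hhi : ∀ t ∈ F, r t < K ^ (hi + 1))
    (hsep : ∀ t ∈ F, ∀ t' ∈ F, t ≠ t' → K * r t ≤ r t' ∨ K * r t' ≤ r t) : F.card ≤ n := by
  classical
  have hK0 : 0 < K := by linarith
  have hpos : ∀ t ∈ F, 0 < r t := fun t ht => lt_of_lt_of_le (zpow_pos hK0 lo) (hlo t ht)
  have hlogK : ∀ z : ℤ, Real.logb K (K ^ z) = z := fun z => by
    rw [Real.logb, Real.log_zpow, mul_div_assoc, div_self (Real.log_pos hK).ne', mul_one]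
  have hstep : ∀ t ∈ F, ∀ t' ∈ F, K * r t ≤ r t' →
      ⌊Real.logb K (r t)⌋ < ⌊Real.logb K (r t')⌋ := by
    intro t ht t' ht' h
    have h1 : Real.logb K (K * r t) = Real.logb K (r t) + 1 := by
      rw [Real.logb_mul hK0.ne' (hpos t ht).ne', Real.logb_self_eq_one hK]
      ring
    have h2 : Real.logb K (K * r t) ≤ Real.logb K (r t') :=
      Real.logb_le_logb_of_le hK (mul_pos hK0 (hpos t ht)) h
    rw [h1] at h2
    have h3 : ⌊Real.logb K (r t) + 1⌋ ≤ ⌊Real.logb K (r t')⌋ := Int.floor_le_floor h2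
    rw [Int.floor_add_one] at h3
    omega
  have hinj : Set.InjOn (fun t => ⌊Real.logb K (r t)⌋) F := by
    intro t ht t' ht' heq
    by_contra hne
    have heq' : ⌊Real.logb K (r t)⌋ = ⌊Real.logb K (r t')⌋ := heq
    rcases hsep t ht t' ht' hne with h | h
    · have := hstep t ht t' ht' h
      omega
    · have := hstep t' ht' t ht h
      omega
  have hmap : ∀ t ∈ F, ⌊Real.logb K (r t)⌋ ∈ Finset.Icc lo hi := by
    intro t ht
    rw [Finset.mem_Icc]
    constructor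
    · rw [Int.le_floor, ← hlogK lo]
      exact Real.logb_le_logb_of_le hK (zpow_pos hK0 lo) (hlo t ht)
    · have h1 : Real.logb K (r t) < ((hi + 1 : ℤ) : ℝ) := by
        rw [← hlogK (hi + 1)]
        exact Real.logb_lt_logb hK (hpos t ht) (hhi t ht)
      have h2 : ⌊Real.logb K (r t)⌋ < hi + 1 := Int.floor_lt.2 h1
      omega
  have h1 := Finset.card_le_card_of_injOn _ hmap hinj
  rw [Int.card_Icc] at h1
  omega

private theorem same_al {S : Sy ι} {y y' : ℝ} (h : Sg S y = Sg S y') {c : ι} (hc : Al S y' c) :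
    Al S y c := by
  classical
  have h1 : c ∈ Sg S y' := by
    unfold Sg
    exact Finset.mem_filter.2 ⟨Finset.mem_univ _, hc⟩
  rw [← h] at h1
  unfold Sg at h1
  exact (Finset.mem_filter.1 h1).2

private theorem eq_line {S : Sy ι} {i j : ι} {x : ℝ} (hp : S.p i = S.p j) (hv : S.v i x = S.v j x) :
    i = j := by
  apply S.inj i j hp
  unfold Sy.v at hv
  rw [hp] at hv
  linarith

/-- (a) -/
private theorem ne_f {S : Sy ι} {q s q' s' : ι} {f f' y y' : ℝ} (h : Vis S q s f y)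
    (h' : Vis S q' s' f' y') (hsg : Sg S y = Sg S y') (hf : f = f') : q = q' ∧ s = s' := by
  subst hf
  have a1 : Al S y q' := same_al hsg h'.aq
  have a2 : Al S y s' := same_al hsg h'.as
  have a3 : Al S y' q := same_al hsg.symm h.aq
  have a4 : Al S y' s := same_al hsg.symm h.as
  have e1 : S.v q f = S.v q' f := le_antisymm (h.up q' a1) (h'.up q a3)
  have e2 : S.v s f = S.v s' f := by rw [← h.eq, ← h'.eq, e1]
  have e3 := h.ex q' a1 e1.symm
  have e4 := h'.ex q a3 e1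
  have e5 := h.ex s' a2 (by rw [← h'.eq, e1])
  have e6 := h'.ex s a4 (by rw [← h.eq, e1])
  refine ⟨eq_line (le_antisymm e4.2 e3.2) e1, eq_line (le_antisymm e5.1 e6.1) e2⟩

/-- (b) -/
private theorem ord_f {S : Sy ι} (hS : Par S) {q s q' s' : ι} {f f' y y' : ℝ} (h : Vis S q s f y)
    (h' : Vis S q' s' f' y') (hsg : Sg S y = Sg S y') (hf : f < f') :
    S.a q' ≤ S.a s ∧ S.b q' ≤ S.b s := by
  have a1 : Al S y q' := same_al hsg h'.aq
  have a4 : Al S y' s := same_al hsg.symm h.as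
  have u1 : S.v s f ≤ S.v q' f := by
    rw [← h.eq]
    exact h.up q' a1
  have u2 : S.v q' f' ≤ S.v s f' := h'.up s a4
  have hp : S.p q' ≤ S.p s := by
    unfold Sy.v at u1 u2
    by_contra hcon
    push Not at hcon
    nlinarith
  have hps : S.a q' + S.b q' ≤ S.a s + S.b s := by
    rw [← hS.1, ← hS.1]
    exact hp
  have al1 := vis_al S h q' a1
  have al2 := vis_al S h' s a4
  have ha : S.a q' ≤ S.a s := by
    by_contra hcon
    push Not at hcon
    have h1 := nest_lt S s q' f hcon.le (by linarith) (Or.inl hcon) al1.1 al1.2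
    linarith
  refine ⟨ha, ?_⟩
  by_contra hcon
  push Not at hcon
  have h1 := nest_lt S q' s f' ha hcon.le (Or.inr hcon) al2.1 al2.2
  linarith

theorem bals_card (S : Sy ι) (hS : Par S) (P : Finset (ι × ι)) (f y : ι × ι → ℝ) (hP : Fam S P f y)
    (h1 : ∀ t ∈ P, S.b t.2 - f t < 50 * (f t - S.a t.2))
    (h2 : ∀ t ∈ P, f t - S.a t.1 < 50 * (S.b t.1 - f t))
    (h3 : ∀ t ∈ P, 2 * (S.b t.2 - f t) ≤ S.b t.1 - f t) :
    P.card ≤ 7 * (2 * Fintype.card ι + 1) := by
  classical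
  have hmaps : ∀ t ∈ P, Sg S (y t) ∈ Sgs S := by
    intro t ht
    unfold Sgs
    exact Finset.mem_filter.2 ⟨Finset.mem_univ _, y t, (hP t ht).off, rfl⟩
  -- ρ ≥ 4 ψ
  have h4 : ∀ t ∈ P, 4 * ((f t - S.a t.1) / (S.b t.1 - f t)) ≤
      (f t - S.a t.2) / (S.b t.2 - f t) := by
    intro t ht
    obtain ⟨o1, o2, o3, o4, o5, o6⟩ := vis_ord S (hP t ht)
    have h5 := h3 t ht
    have h6 := (par_ratio S hS (hP t ht) 2 (by norm_num)).1 h5
    rw [← mul_div_assoc, div_le_div_iff₀ (by linarith) (by linarith)]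
    have h7 : 0 ≤ S.b t.2 - f t := by linarith
    have h8 : 0 ≤ f t - S.a t.1 := by linarith
    have h9 : (2 * (f t - S.a t.1)) * (2 * (S.b t.2 - f t)) ≤
        (f t - S.a t.2) * (S.b t.1 - f t) :=
      mul_le_mul h6 h5 (by linarith) (by linarith)
    linarith
  -- ψ₂ ≥ ρ₁
  have h5 : ∀ t ∈ P, ∀ t' ∈ P, Sg S (y t) = Sg S (y t') → f t < f t' →
      (f t - S.a t.2) / (S.b t.2 - f t) ≤ (f t' - S.a t'.1) / (S.b t'.1 - f t') := by
    intro t ht t' ht' hsg hf
    obtain ⟨o1, o2, o3, o4, o5, o6⟩ := vis_ord S (hP t ht)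
    obtain ⟨p1, p2, p3, p4, p5, p6⟩ := vis_ord S (hP t' ht')
    obtain ⟨b1, b2⟩ := ord_f hS (hP t ht) (hP t' ht') hsg hf
    apply div_le_div₀
    · linarith
    · linarith
    · linarith
    · linarith
  have hne : ∀ t ∈ P, ∀ t' ∈ P, Sg S (y t) = Sg S (y t') → t ≠ t' → f t ≠ f t' := by
    intro t ht t' ht' hsg hn hf
    have h6 := ne_f (hP t ht) (hP t' ht') hsg hf
    exact hn (Prod.ext h6.1 h6.2)
  have hfib : ∀ A ∈ Sgs S, (P.filter (fun t => Sg S (y t) = A)).card ≤ 7 := by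
    intro A _
    rcases (P.filter (fun t => Sg S (y t) = A)).eq_empty_or_nonempty with he | hne'
    · rw [he]
      simp
    obtain ⟨t0, ht0, hmin⟩ := Finset.exists_min_image _ f hne'
    obtain ⟨ht0P, ht0A⟩ := Finset.mem_filter.1 ht0
    have h6 : ((P.filter (fun t => Sg S (y t) = A)).erase t0).card ≤ 6 := by
      refine log_card _ (fun t => (f t - S.a t.1) / (S.b t.1 - f t)) 4 (by norm_num) (-3) 2 6
        (by norm_num) ?_ ?_ ?_
      · intro t ht
        obtain ⟨htne, ht'⟩ := Finset.mem_erase.1 ht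
        obtain ⟨htP, htA⟩ := Finset.mem_filter.1 ht'
        have hsg : Sg S (y t0) = Sg S (y t) := ht0A.trans htA.symm
        have hlt : f t0 < f t :=
          lt_of_le_of_ne (hmin t ht') (hne t0 ht0P t htP hsg htne.symm)
        have h7 := h5 t0 ht0P t htP hsg hlt
        refine le_trans ?_ h7
        obtain ⟨o1, o2, o3, o4, o5, o6⟩ := vis_ord S (hP t0 ht0P)
        have h8 := h1 t0 ht0P
        rw [le_div_iff₀ (by linarith)]
        have h9 : ((4 : ℝ) ^ (-3 : ℤ)) = 1 / 64 := by norm_num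
        rw [h9]
        linarith
      · intro t ht
        obtain ⟨htne, ht'⟩ := Finset.mem_erase.1 ht
        obtain ⟨htP, htA⟩ := Finset.mem_filter.1 ht'
        obtain ⟨o1, o2, o3, o4, o5, o6⟩ := vis_ord S (hP t htP)
        have h7 := h2 t htP
        have h8 : ((4 : ℝ) ^ ((2 : ℤ) + 1)) = 64 := by norm_num
        rw [h8, div_lt_iff₀ (by linarith)]
        linarith
      · intro t ht t' ht' hn
        obtain ⟨-, ht2⟩ := Finset.mem_erase.1 ht
        obtain ⟨htP, htA⟩ := Finset.mem_filter.1 ht2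
        obtain ⟨-, ht2'⟩ := Finset.mem_erase.1 ht'
        obtain ⟨htP', htA'⟩ := Finset.mem_filter.1 ht2'
        have hsg : Sg S (y t) = Sg S (y t') := htA.trans htA'.symm
        rcases lt_or_gt_of_ne (hne t htP t' htP' hsg hn) with hlt | hlt
        · exact Or.inl ((h4 t htP).trans (h5 t htP t' htP' hsg hlt))
        · exact Or.inr ((h4 t' htP').trans (h5 t' htP' t htP hsg.symm hlt))
    have h7 := Finset.card_erase_add_one ht0
    omega
  have h6 := Finset.card_le_mul_card_image_of_maps_to (s := P) (t := Sgs S)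
    (f := fun t => Sg S (y t)) hmaps 7 hfib
  exact h6.trans (Nat.mul_le_mul_left 7 (sgs_card S))

end Pool.Agent.Work.MP_e64a38_co.CZ
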