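import Pool.Agent.Work.MP_e64a38_co.CZ.GPar

/-!
# Balanced weak crossings (size M-L)

Parabola. All pairs satisfy `b s - f < 50 (f - a s)` and `f - a q < 50 (b q - f)` (balanced) and
`b q - f < 2 (b s - f)` (weak, equivalently `f - a s < 2 (f - a q)`, `par_ratio`).

`balw_card`: if moreover `f ≤ y` then `P.card ≤ 14 card ι`.
Proof. Fix `s` and consider the pairs `(q, s) ∈ P`. Put `r = (f - a s) / (b s - f) > 0`. Then `r > 1/50`; and
`r = (f - a s) / (b s - f) < 2 (f - a q) / ((b q - f) / 2) = 4 (f - a q) / (b q - f) < 200`. Let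
`(q, s) ≠ (q', s)` be two such pairs, `y ≤ y'`. By `fact_b` `y < a q' < f'`, so `f ≤ y < f'` and
`f' - a s < 2 (f' - a q') < 2 (f' - y)`, i.e. `2 (y - a s) < f' - a s`, so
`2 (f - a s) ≤ 2 (y - a s) < f' - a s`; moreover `b s - f' < b s - f`. Hence `r' > 2 r`.
So `t ↦ ⌊Real.logb 2 (r t)⌋` is injective on the pairs with this `s` and takes values in
`[-6, 7]` (`1/64 < 1/50 < r < 200 < 256`): at most `14` pairs for each `s`.
(`Finset.card_le_mul_card_image` or `Finset.card_eq_sum_card_fiberwise` for the map `t ↦ t.2`.)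

`balw_card'`: if instead `y ≤ f` then `P.card ≤ 14 card ι`: mirror image of `balw_card` (`vis_mir`,
`par_mir`, `P' = P.image Prod.swap`, `f' t = - f t.swap`, `y' t = - y t.swap`). The hypotheses become each
other: `b' s' - f' = f - a q < 50 (b q - f) = 50 (f' - a' s')`, `f' - a' q' = b s - f < 50 (f - a s) =
50 (b' q' - f')`, `b' q' - f' = f - a s < 2 (f - a q) = 2 (b' s' - f')` (`par_ratio`), `f' ≤ y'`.
-/

set_option autoImplicit false

namespace Pool.Agent.Work.MP_e64a38_co.CZ

variable {ι : Type} [Fintype ι]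

private theorem log_card {β : Type} (F : Finset β) (r : β → ℝ) (K : ℝ) (hK : 1 < K) (lo hi : ℤ)
    (n : ℕ) (hn : hi + 1 - lo = n) (hlo : ∀ t ∈ F, K ^ lo ≤ r t)
    (hhi : ∀ t ∈ F, r t < K ^ (hi + 1))
    (hsep : ∀ t ∈ F, ∀ t' ∈ F, t ≠ t' → K * r t ≤ r t' ∨ K * r t' ≤ r t) : F.card ≤ n := by
  classical
  have hK0 : 0 < K := by linarith
  have hpos : ∀ t ∈ F, 0 < r t := fun t ht => lt_of_lt_of_le (zpow_pos hK0 lo) (hlo t ht)
  have hlogK : ∀ z : ℤ, Real.logb K (K ^ z) = z := fun z => by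
    rw [Real.logb, Real.log_zpow, mul_div_assoc, div_self (Real.log_pos hK).ne', mul_one]
  have hstep : ∀ t ∈ F, ∀ t' ∈ F, K * r t ≤ r t' →
      ⌊Real.logb K (r t)⌋ < ⌊Real.logb K (r t')⌋ := by
    intro t ht t' ht' h
    have h1 : Real.logb K (K * r t) = Real.logb K (r t) + 1 := by
      rw [Real.logb_mul hK0.ne' (hpos t ht).ne', Real.logb_self_eq_one hK]
      ring
    have h2 : Real.logb K (K * r t) ≤ Real.logb K (r t') :=
      Real.logb_le_logb_of_le hK (mul_pos hK0 (hpos t ht)) h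
    rw [h1] at h2
    have h3 : ⌊Real.logb K (r t) + 1⌋ ≤ ⌊Real.logb K (r t')⌋ := Int.floor_le_floor h2
    rw [Int.floor_add_one] at h3
    omega
  have hinj : Set.InjOn (fun t => ⌊Real.logb K (r t)⌋) F := by
    intro t ht t' ht' heq
    by_contra hne
    have heq' : ⌊Real.logb K (r t)⌋ = ⌊Real.logb K (r t')⌋ := heq
    rcases hsep t ht t' ht' hne with h | h
    · have := hstep t ht t' ht' h
      omega
    · have := hstep t' ht' t ht h
      omega
  have hmap : ∀ t ∈ F, ⌊Real.logb K (r t)⌋ ∈ Finset.Icc lo hi := by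
    intro t ht
    rw [Finset.mem_Icc]
    constructor
    · rw [Int.le_floor, ← hlogK lo]
      exact Real.logb_le_logb_of_le hK (zpow_pos hK0 lo) (hlo t ht)
    · have h1 : Real.logb K (r t) < ((hi + 1 : ℤ) : ℝ) := by
        rw [← hlogK (hi + 1)]
        exact Real.logb_lt_logb hK (hpos t ht) (hhi t ht)
      have h2 : ⌊Real.logb K (r t)⌋ < hi + 1 := Int.floor_lt.2 h1
      omega
  have h1 := Finset.card_le_card_of_injOn _ hmap hinj
  rw [Int.card_Icc] at h1
  omega

theorem balw_card (S : Sy ι) (hS : Par S) (P : Finset (ι × ι)) (f y : ι × ι → ℝ) (hP : Fam S P f y)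
    (h1 : ∀ t ∈ P, S.b t.2 - f t < 50 * (f t - S.a t.2))
    (h2 : ∀ t ∈ P, f t - S.a t.1 < 50 * (S.b t.1 - f t))
    (h3 : ∀ t ∈ P, S.b t.1 - f t < 2 * (S.b t.2 - f t))
    (h4 : ∀ t ∈ P, f t ≤ y t) : P.card ≤ 14 * Fintype.card ι := by
  classical
  have hr : ∀ t ∈ P, f t - S.a t.2 < 2 * (f t - S.a t.1) := by
    intro t ht
    by_contra hcon
    push Not at hcon
    have h5 := (par_ratio S hS (hP t ht) 2 (by norm_num)).2 hcon
    have h6 := h3 t ht
    linarith
  have key : ∀ t ∈ P, ∀ t' ∈ P, t ≠ t' → t.2 = t'.2 → y t ≤ y t' →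
      2 * ((f t - S.a t.2) / (S.b t.2 - f t)) ≤ (f t' - S.a t'.2) / (S.b t'.2 - f t') := by
    intro t ht t' ht' hne hs hy
    have hv := hP t ht
    have hv' := hP t' ht'
    rw [← hs] at hv'
    have hq : t.1 ≠ t'.1 := fun h => hne (Prod.ext h hs)
    have h5 := fact_b S hv hv' hy hq
    obtain ⟨o1, o2, o3, o4, o5, o6⟩ := vis_ord S hv
    obtain ⟨p1, p2, p3, p4, p5, p6⟩ := vis_ord S hv'
    have h6 := hr t' ht'
    have h7 := h4 t ht
    rw [← hs] at h6 ⊢
    rw [← mul_div_assoc]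
    apply div_le_div₀
    · linarith
    · linarith
    · linarith
    · linarith
  have hfib : ∀ s ∈ (Finset.univ : Finset ι), (P.filter (fun t => t.2 = s)).card ≤ 14 := by
    intro s _
    refine log_card (P.filter (fun t => t.2 = s)) (fun t => (f t - S.a t.2) / (S.b t.2 - f t)) 2
      (by norm_num) (-6) 7 14 (by norm_num) ?_ ?_ ?_
    · intro t ht
      have htP := (Finset.mem_filter.1 ht).1
      obtain ⟨o1, o2, o3, o4, o5, o6⟩ := vis_ord S (hP t htP)
      have h5 := h1 t htP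
      rw [le_div_iff₀ (by linarith)]
      have h6 : ((2 : ℝ) ^ (-6 : ℤ)) = 1 / 64 := by norm_num
      rw [h6]
      linarith
    · intro t ht
      have htP := (Finset.mem_filter.1 ht).1
      obtain ⟨o1, o2, o3, o4, o5, o6⟩ := vis_ord S (hP t htP)
      have h5 := h2 t htP
      have h6 := h3 t htP
      have h7 := hr t htP
      have h8 : ((2 : ℝ) ^ ((7 : ℤ) + 1)) = 256 := by norm_num
      rw [h8, div_lt_iff₀ (by linarith)]
      linarith
    · intro t ht t' ht' hne
      obtain ⟨htP, hts⟩ := Finset.mem_filter.1 ht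
      obtain ⟨htP', hts'⟩ := Finset.mem_filter.1 ht'
      rcases le_total (y t) (y t') with hy | hy
      · exact Or.inl (key t htP t' htP' hne (hts.trans hts'.symm) hy)
      · exact Or.inr (key t' htP' t htP hne.symm (hts'.trans hts.symm) hy)
  have h5 := Finset.card_le_mul_card_image_of_maps_to (s := P) (t := (Finset.univ : Finset ι))
    (f := fun t => t.2) (fun t _ => Finset.mem_univ _) 14 hfib
  rw [Finset.card_univ] at h5
  exact h5

theorem balw_card' (S : Sy ι) (hS : Par S) (P : Finset (ι × ι)) (f y : ι × ι → ℝ) (hP : Fam S P f y)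
    (h1 : ∀ t ∈ P, S.b t.2 - f t < 50 * (f t - S.a t.2))
    (h2 : ∀ t ∈ P, f t - S.a t.1 < 50 * (S.b t.1 - f t))
    (h3 : ∀ t ∈ P, S.b t.1 - f t < 2 * (S.b t.2 - f t))
    (h4 : ∀ t ∈ P, y t ≤ f t) : P.card ≤ 14 * Fintype.card ι := by
  classical
  have hr : ∀ t ∈ P, f t - S.a t.2 < 2 * (f t - S.a t.1) := by
    intro t ht
    by_contra hcon
    push Not at hcon
    have h5 := (par_ratio S hS (hP t ht) 2 (by norm_num)).2 hcon
    have h6 := h3 t ht
    linarith
  have hmem : ∀ t ∈ P.image Prod.swap, t.swap ∈ P := by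
    intro t ht
    obtain ⟨u, hu, rfl⟩ := Finset.mem_image.1 ht
    rw [Prod.swap_swap]
    exact hu
  have hcard : (P.image Prod.swap).card = P.card :=
    Finset.card_image_of_injective P Prod.swap_injective
  rw [← hcard]
  refine balw_card S.mir (par_mir S hS) (P.image Prod.swap) (fun t => - f t.swap)
    (fun t => - y t.swap) ?_ ?_ ?_ ?_ ?_
  · intro t ht
    exact vis_mir S (hP t.swap (hmem t ht))
  · intro t ht
    have h5 := h2 t.swap (hmem t ht)
    change - S.a t.2 - - f t.swap < 50 * (- f t.swap - - S.b t.2)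
    simp only [Prod.fst_swap] at h5
    linarith
  · intro t ht
    have h5 := h1 t.swap (hmem t ht)
    change - f t.swap - - S.b t.1 < 50 * (- S.a t.1 - - f t.swap)
    simp only [Prod.snd_swap] at h5
    linarith
  · intro t ht
    have h5 := hr t.swap (hmem t ht)
    change - S.a t.1 - - f t.swap < 2 * (- S.a t.2 - - f t.swap)
    simp only [Prod.fst_swap, Prod.snd_swap] at h5
    linarith
  · intro t ht
    have h5 := h4 t.swap (hmem t ht)
    change - f t.swap ≤ - y t.swap
    linarith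

end Pool.Agent.Work.MP_e64a38_co.CZ
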