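import Pool.Agent.Work.MP_e64a38_co.CZ.GLU
import Pool.Agent.Work.MP_e64a38_co.CZ.GBalS
import Pool.Agent.Work.MP_e64a38_co.CZ.GBalW

/-!
# The number of visible crossings on the parabola (size S-M)

`(Prs S).card ≤ 68 card ι + 7`. Choose `f`, `y` for every pair of `Prs S`. Split into
(1) `50 (f - a s) ≤ b s - f`: `lu_card`, `13 n`; (2) `50 (b q - f) ≤ f - a q`: `ru_card`, `13 n`; otherwise
balanced, and (3) `2 (b s - f) ≤ b q - f`: `bals_card`, `7 (2 n + 1)`; (4) `b q - f < 2 (b s - f)` and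
`f ≤ y`: `balw_card`, `14 n`, or (5) `y ≤ f`: `balw_card'`, `14 n`. Sum: `68 n + 7`.
-/

set_option autoImplicit false

namespace Pool.Agent.Work.MP_e64a38_co.CZ

variable {ι : Type} [Fintype ι]

private theorem card_split (P : Finset (ι × ι)) (p : ι × ι → Prop) [DecidablePred p] :
    P.card ≤ (P.filter p).card + (P.filter (fun t => ¬ p t)).card := by
  classical
  have h : P ⊆ P.filter p ∪ P.filter (fun t => ¬ p t) := by
    intro t ht
    rw [Finset.mem_union, Finset.mem_filter, Finset.mem_filter]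
    by_cases hp : p t
    · exact Or.inl ⟨ht, hp⟩
    · exact Or.inr ⟨ht, hp⟩
  exact (Finset.card_le_card h).trans (Finset.card_union_le _ _)

private theorem main_card (S : Sy ι) (hS : Par S) (P : Finset (ι × ι)) (f y : ι × ι → ℝ)
    (hP : Fam S P f y) : P.card ≤ 68 * Fintype.card ι + 7 := by
  classical
  have c1 := card_split P (fun t => 50 * (f t - S.a t.2) ≤ S.b t.2 - f t)
  set Q1 := P.filter (fun t => 50 * (f t - S.a t.2) ≤ S.b t.2 - f t) with hQ1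
  set R1 := P.filter (fun t => ¬ (50 * (f t - S.a t.2) ≤ S.b t.2 - f t)) with hR1
  have c2 := card_split R1 (fun t => 50 * (S.b t.1 - f t) ≤ f t - S.a t.1)
  set Q2 := R1.filter (fun t => 50 * (S.b t.1 - f t) ≤ f t - S.a t.1) with hQ2
  set R2 := R1.filter (fun t => ¬ (50 * (S.b t.1 - f t) ≤ f t - S.a t.1)) with hR2
  have c3 := card_split R2 (fun t => 2 * (S.b t.2 - f t) ≤ S.b t.1 - f t)
  set Q3 := R2.filter (fun t => 2 * (S.b t.2 - f t) ≤ S.b t.1 - f t) with hQ3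
  set R3 := R2.filter (fun t => ¬ (2 * (S.b t.2 - f t) ≤ S.b t.1 - f t)) with hR3
  have c4 := card_split R3 (fun t => f t ≤ y t)
  set Q4 := R3.filter (fun t => f t ≤ y t) with hQ4
  set Q5 := R3.filter (fun t => ¬ (f t ≤ y t)) with hQ5
  have sQ1 : ∀ t ∈ Q1, t ∈ P := fun t ht => (Finset.mem_filter.1 ht).1
  have sR1 : ∀ t ∈ R1, t ∈ P := fun t ht => (Finset.mem_filter.1 ht).1
  have sQ2 : ∀ t ∈ Q2, t ∈ R1 := fun t ht => (Finset.mem_filter.1 ht).1
  have sR2 : ∀ t ∈ R2, t ∈ R1 := fun t ht => (Finset.mem_filter.1 ht).1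
  have sQ3 : ∀ t ∈ Q3, t ∈ R2 := fun t ht => (Finset.mem_filter.1 ht).1
  have sR3 : ∀ t ∈ R3, t ∈ R2 := fun t ht => (Finset.mem_filter.1 ht).1
  have sQ4 : ∀ t ∈ Q4, t ∈ R3 := fun t ht => (Finset.mem_filter.1 ht).1
  have sQ5 : ∀ t ∈ Q5, t ∈ R3 := fun t ht => (Finset.mem_filter.1 ht).1
  have k1 : ∀ t ∈ R1, S.b t.2 - f t < 50 * (f t - S.a t.2) :=
    fun t ht => not_le.1 (Finset.mem_filter.1 ht).2
  have k2 : ∀ t ∈ R2, f t - S.a t.1 < 50 * (S.b t.1 - f t) :=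
    fun t ht => not_le.1 (Finset.mem_filter.1 ht).2
  have k3 : ∀ t ∈ R3, S.b t.1 - f t < 2 * (S.b t.2 - f t) :=
    fun t ht => not_le.1 (Finset.mem_filter.1 ht).2
  have b1 : Q1.card ≤ 13 * Fintype.card ι :=
    lu_card S hS Q1 f y (fun t ht => hP t (sQ1 t ht)) (fun t ht => (Finset.mem_filter.1 ht).2)
  have b2 : Q2.card ≤ 13 * Fintype.card ι :=
    ru_card S hS Q2 f y (fun t ht => hP t (sR1 t (sQ2 t ht)))
      (fun t ht => (Finset.mem_filter.1 ht).2)
  have b3 : Q3.card ≤ 7 * (2 * Fintype.card ι + 1) :=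
    bals_card S hS Q3 f y (fun t ht => hP t (sR1 t (sR2 t (sQ3 t ht))))
      (fun t ht => k1 t (sR2 t (sQ3 t ht))) (fun t ht => k2 t (sQ3 t ht))
      (fun t ht => (Finset.mem_filter.1 ht).2)
  have b4 : Q4.card ≤ 14 * Fintype.card ι :=
    balw_card S hS Q4 f y (fun t ht => hP t (sR1 t (sR2 t (sR3 t (sQ4 t ht)))))
      (fun t ht => k1 t (sR2 t (sR3 t (sQ4 t ht)))) (fun t ht => k2 t (sR3 t (sQ4 t ht)))
      (fun t ht => k3 t (sQ4 t ht)) (fun t ht => (Finset.mem_filter.1 ht).2)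
  have b5 : Q5.card ≤ 14 * Fintype.card ι :=
    balw_card' S hS Q5 f y (fun t ht => hP t (sR1 t (sR2 t (sR3 t (sQ5 t ht)))))
      (fun t ht => k1 t (sR2 t (sR3 t (sQ5 t ht)))) (fun t ht => k2 t (sR3 t (sQ5 t ht)))
      (fun t ht => k3 t (sQ5 t ht)) (fun t ht => (not_le.1 (Finset.mem_filter.1 ht).2).le)
  omega

theorem prs_card (S : Sy ι) (hS : Par S) : (Prs S).card ≤ 68 * Fintype.card ι + 7 := by
  classical
  have h : ∀ t : ι × ι, ∃ w : ℝ × ℝ, t ∈ Prs S → Vis S t.1 t.2 w.1 w.2 := by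
    intro t
    by_cases ht : t ∈ Prs S
    · unfold Prs at ht
      obtain ⟨f, y, hv⟩ := (Finset.mem_filter.1 ht).2
      exact ⟨(f, y), fun _ => hv⟩
    · exact ⟨(0, 0), fun h => absurd h ht⟩
  choose w hw using h
  exact main_card S hS (Prs S) (fun t => (w t).1) (fun t => (w t).2) (fun t ht => hw t ht)

end Pool.Agent.Work.MP_e64a38_co.CZ
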