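import Pool.Agent.Work.MP_e64a38_co.CZ.GBas

/-!
# The four lines lemma and facts A and B (size M)

`four`: let `(q, s)` be visible at `f` from `y`, `(q', s')` at `f'` from `y'`, all four chords alive at both
`y` and `y'`, `a s < a q'`, `a s' < a q`. Then `q = q'` and `s = s'`.
Proof. Let `h = v q f`, `h' = v q' f'`. By `up`: `v q' f, v s' f ≥ h` and `v q f', v s f' ≥ h'`.
Case `f < f'`. `D x = v q' x - v s x` is affine, `D f ≥ 0 ≥ D f'`, so `p q' ≤ p s`. If `b q' > b s` then,
since `a q' > a s`: at `x = a q'` (inside `s`, because `a q' < f < b s` by `vis_al`, `vis_ord`)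
`v q' x = φ x < v s x`; at `x = b s` (inside `q'`: `a q' < f < b s < b q'`) `v s x = φ x < v q' x`;
so `p q' > p s`, contradiction. Hence `b q' ≤ b s`, `q'` is inside `s`, `v q' f < v s f = h` by `nest_lt`,
contradiction with `v q' f ≥ h`.
Case `f' < f`: the same with the two pairs interchanged (use `a s' < a q`).
Case `f = f'`: `h ≤ v q' f = h'` and `h' ≤ h`, so all four lines pass through the same point. By `ex` for
`(q, s)` and `c = q'`: `p q' ≤ p q`, and by `ex` for `(q', s')`: `p q ≤ p q'`. So `p q = p q'`, then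
`q q = q q'` (same value at `f`), and `q = q'` by `inj`. Similarly `s = s'`.

`fact_a`: one `q`: `(q, s)` visible at `f` from `y`, `(q, s')` at `f'` from `y'`, `y ≤ y'`, `s ≠ s'`: then
`b s < y'` and `f ≤ f'`. Proof: `s'` is alive at `y` (`a s' < a q < y ≤ y' < b s'`), so `v s' f ≥ v q f`,
while `v s' x < v q x` for `x > f'` (`p s' < p q`), so `f ≤ f'`. If `¬ b s < y'` then `y' < b s` (`off`), so
`s` is alive at `y'` (`a s < a q < y ≤ y'`), `q` is alive at both; `four` gives `s = s'`.

`fact_b`: one `s`: `(q, s)` visible at `f` from `y`, `(q', s)` at `f'` from `y'`, `y ≤ y'`, `q ≠ q'`: then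
`y < a q'`. Proof: otherwise `a q' < y` (`off`), `q'` is alive at `y` (`b q' > b s > y' ≥ y`), `q` is alive
at `y'` (`a q < y ≤ y' < b s < b q`), `four` gives `q = q'`.
-/

set_option autoImplicit false

namespace Pool.Agent.Work.MP_e64a38_co.CZ

variable {ι : Type}

private theorem four_lt (S : Sy ι) {q s q' s' : ι} {f y f' y' : ℝ} (h : Vis S q s f y)
    (h' : Vis S q' s' f' y')
    (h1 : Al S y q') (h4 : Al S y' s) (h5 : S.a s < S.a q') (hf : f < f') : False := by
  have o := vis_ord S h
  have hq' := vis_al S h q' h1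
  have e1 : S.v s f ≤ S.v q' f := by have := h.up q' h1; rw [h.eq] at this; exact this
  have e2 : S.v q' f' ≤ S.v s f' := h'.up s h4
  by_cases hb : S.b s < S.b q'
  · have i1 := S.above s (S.a q') h5 (by linarith [hq'.1, o.2.2.1])
    have i2 := S.above q' (S.b s) (by linarith [hq'.1, o.2.2.1]) hb
    have j1 := S.ea q'
    have j2 := S.eb s
    simp only [Sy.v] at e1 e2
    have k1 : S.a q' < S.b s := by linarith [hq'.1, o.2.2.1]
    have l1 : S.p q' ≤ S.p s := by
      by_contra hc
      push Not at hc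
      nlinarith [mul_pos (sub_pos.2 hc) (sub_pos.2 hf)]
    nlinarith [mul_nonneg (sub_nonneg.2 l1) (sub_nonneg.2 k1.le)]
  · have := nest_lt S s q' f h5.le (not_lt.1 hb) (Or.inl h5) hq'.1 hq'.2
    linarith

theorem four (S : Sy ι) {q s q' s' : ι} {f y f' y' : ℝ} (h : Vis S q s f y) (h' : Vis S q' s' f' y')
    (h1 : Al S y q') (h2 : Al S y s') (h3 : Al S y' q) (h4 : Al S y' s) (h5 : S.a s < S.a q')
    (h6 : S.a s' < S.a q) : q = q' ∧ s = s' := by
  rcases lt_trichotomy f f' with hf | hf | hf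
  · exact (four_lt S h h' h1 h4 h5 hf).elim
  · subst hf
    have a1 := h.up q' h1
    have a2 := h'.up q h3
    have e : S.v q' f = S.v q f := le_antisymm a2 a1
    have e' : S.v s' f = S.v s f := by rw [← h'.eq, ← h.eq, e]
    have b1 := h.ex q' h1 e
    have b2 := h'.ex q h3 e.symm
    have b3 := h.ex s' h2 (by rw [e', h.eq])
    have b4 := h'.ex s h4 (by rw [← e', h'.eq])
    refine ⟨S.inj q q' (by linarith) ?_, S.inj s s' (by linarith) ?_⟩
    · have p : S.p q = S.p q' := by linarith
      simp only [Sy.v] at e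
      rw [p] at e
      linarith
    · have p : S.p s = S.p s' := by linarith
      simp only [Sy.v] at e'
      rw [p] at e'
      linarith
  · exact (four_lt S h' h h3 h2 h6 hf).elim

theorem fact_a (S : Sy ι) {q s s' : ι} {f y f' y' : ℝ} (h : Vis S q s f y) (h' : Vis S q s' f' y')
    (hy : y ≤ y') (hs : s ≠ s') : S.b s < y' ∧ f ≤ f' := by
  have o := vis_ord S h
  have o' := vis_ord S h'
  have al : Al S y s' := ⟨by linarith [o'.1, o.2.2.2.2.1], by linarith [o'.2.2.2.2.2]⟩
  constructor
  · by_contra hc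
    have hc' : y' < S.b s := lt_of_le_of_ne (not_lt.1 hc) (h'.off s).2
    have al' : Al S y' s := ⟨by linarith [o.1, o.2.2.2.2.1], hc'⟩
    exact hs (four S h h' h.aq al h'.aq al' o.1 o'.1).2
  · by_contra hc
    push Not at hc
    have u := h.up s' al
    have e := h'.eq
    have sl := h'.sl
    simp only [Sy.v] at u e
    nlinarith [mul_pos (sub_pos.2 sl) (sub_pos.2 hc)]

theorem fact_b (S : Sy ι) {q q' s : ι} {f y f' y' : ℝ} (h : Vis S q s f y) (h' : Vis S q' s f' y')
    (hy : y ≤ y') (hq : q ≠ q') : y < S.a q' := by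
  have o := vis_ord S h
  have o' := vis_ord S h'
  by_contra hc
  have hc' : S.a q' < y := lt_of_le_of_ne (not_lt.1 hc) (fun e => (h.off q').1 e.symm)
  have al : Al S y q' := ⟨hc', by linarith [o'.2.2.2.1, o'.2.2.2.2.2]⟩
  have al' : Al S y' q := ⟨by linarith [o.2.2.2.2.1], by linarith [o'.2.2.2.2.2, o.2.2.2.1]⟩
  exact hq (four S h h' al h.as al' h'.as o'.1 o.1).1

end Pool.Agent.Work.MP_e64a38_co.CZ
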