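import Pool.Agent.Work.MP_e64a38_co.CZ.ZDefs
import Pool.Agent.Work.MP_e64a38_co.CZ.GFour

/-!
# The number of lower edges (size M-L)

For a choice `yy : Finset ι → ℝ` with `Off S (yy A)` and `Sg S (yy A) = A` for `A ∈ Sgs S`:
`∑ A ∈ Sgs S, #{t : b t < yy A ∧ Ed S A t} ≤ (Sgs S).card + card ι`.

Proof. Let `E_A = {t : b t < yy A, Ed S A t}` (its elements are not in `A`). Call `t ∈ E_A` second if there are
`x` with `EdAt S A t x` and `s ∈ E_A`, `s ≠ t`, `w < x` with `EdAt S A s w`. At most one element of `E_A` is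
not second: if `t ≠ t'` are in `E_A` with points `x`, `x'` then `x ≠ x'` (else `v t' x < v t x` and
`v t x < v t' x`), and the one with the larger abscissa is second. So it is enough to show that every `t`
is second in `E_A` for at most one `A ∈ Sgs S`.
Let `t` be second in `E_A` and in `E_B`, `A ≠ B`, with `(x₁, s₁, w₁)` and `(x₂, s₂, w₂)`, `y₁ = yy A`,
`y₂ = yy B`, wlog `y₁ ≤ y₂` (in fact `<`). `a t < x_i < b t` (`in_of_hi`), `b t < y₁`, `b s₁ < y₁`. Since `A ≠ B` some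
`c` is in exactly one of them.
 (i) `c ∈ B`, `c ∉ A`: `a c < y₂ < b c` and not `a c < y₁ < b c`, so `y₁ < a c` (as `b c > y₂ ≥ y₁`, off),
 hence `x₂ < b t < y₁ < a c`, so `v c x₂ < φ x₂ < v t x₂` (`below`), but `c ∈ B` gives `v t x₂ < v c x₂`.
 (ii) `c ∈ A`, `c ∉ B`: `a c < y₁ < b c`, so `b c < y₂`; `b c > y₁ > b t`. `v t x₁ < v c x₁`,
 `v c x₂ < v t x₂` (`c ≠ t` as `t ∉ A`). If `a c ≤ a t` then `t` is inside `c` and `v t x₂ < v c x₂`
 (`nest_lt`), contradiction. So `a t < a c`. `v c - v t` is affine, negative at `x₂`, positive at `x₁`.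
 It is positive at `b t`: (`a c < b t`, for otherwise `x₁ < a c` and `v c x₁ < φ x₁ < v t x₁`; so
 `v c (b t) > φ (b t) = v t (b t)`), and `x₁, x₂ < b t`; so the slope of `v c - v t` is positive (negative
 at `x₂`, positive at `b t > x₂`), hence `x₂ < x₁`. At `w₁`: `v c w₁ > v s₁ w₁` (`c ∈ A`) and
 `v s₁ w₁ > v t w₁` (`t ∉ A`, `t ≠ s₁`). So `v c - v t` is positive at `w₁`, so `w₁ > x₂`. At `x₂`:
 `v s₁ x₂ < v t x₂` (`s₁ ∉ B` because `b s₁ < y₁ ≤ y₂`; `t` is an edge of `B`). At `w₁ > x₂`: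
 `v s₁ w₁ > v t w₁`; at `x₁ > w₁`: `v s₁ x₁ < v t x₁` (`s₁ ∉ A`). An affine function (`v s₁ - v t`) is not
 negative, positive, negative at `x₂ < w₁ < x₁`. Contradiction.

`low_card'`: the mirror image: `∑ A ∈ Sgs S, #{t : yy A < a t ∧ Ed S A t} ≤ (Sgs S).card + card ι`.
(`S.mir`, `yy' A = - yy A`: `Off S.mir (-y) ↔ Off S y`, `Sg S.mir (-y) = Sg S y`, so `Sgs S.mir = Sgs S`,
`EdAt S.mir A i (-x) ↔ EdAt S A i x`, `b' t = - a t`.)
-/

set_option autoImplicit false

namespace Pool.Agent.Work.MP_e64a38_co.CZ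

variable {ι : Type} [Fintype ι]

private theorem mem_Sg (S : Sy ι) (y : ℝ) (c : ι) : c ∈ Sg S y ↔ S.a c < y ∧ y < S.b c := by
  simp [Sg, Al]

private theorem low_key (S : Sy ι) {A B : Finset ι} {y1 y2 : ℝ} (o1 : Off S y1) (e1 : Sg S y1 = A)
    (e2 : Sg S y2 = B) (hy : y1 ≤ y2) {t s1 : ι} {x1 w1 x2 : ℝ}
    (ht1 : S.b t < y1) (hs1 : S.b s1 < y1) (hts : s1 ≠ t) (h1 : EdAt S A t x1) (hw : w1 < x1)
    (h1' : EdAt S A s1 w1) (h2 : EdAt S B t x2) : A = B := by
  have mA : ∀ c, c ∈ A ↔ S.a c < y1 ∧ y1 < S.b c := fun c => by rw [← e1]; exact mem_Sg S y1 c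
  have mB : ∀ c, c ∈ B ↔ S.a c < y2 ∧ y2 < S.b c := fun c => by rw [← e2]; exact mem_Sg S y2 c
  have tA : t ∉ A := fun h => by have := ((mA t).1 h).2; linarith
  have sA : s1 ∉ A := fun h => by have := ((mA s1).1 h).2; linarith
  have tB : t ∉ B := fun h => by have := ((mB t).1 h).2; linarith
  have sB : s1 ∉ B := fun h => by have := ((mB s1).1 h).2; linarith
  have x1i := in_of_hi S t x1 h1.1
  have x2i := in_of_hi S t x2 h2.1
  by_contra hAB
  have : ∃ c, (c ∈ B ∧ c ∉ A) ∨ (c ∈ A ∧ c ∉ B) := by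
    by_contra hc
    push Not at hc
    exact hAB (Finset.ext (fun c => ⟨(hc c).2, (hc c).1⟩))
  obtain ⟨c, ⟨cB, cA⟩ | ⟨cA, cB⟩⟩ := this
  · have m := (mB c).1 cB
    have m' : ¬ (S.a c < y1 ∧ y1 < S.b c) := fun h => cA ((mA c).2 h)
    have l : ¬ S.a c < y1 := fun h => m' ⟨h, by linarith [m.2]⟩
    have hct : c ≠ t := fun h => tB (h ▸ cB)
    have u1 := S.below c x2 (Or.inl (by linarith [not_lt.1 l, x2i.2]))
    have u2 := h2.1
    have u3 := (h2.2 c hct).1 cB
    simp only [Sy.v] at u2 u3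
    linarith
  · have m := (mA c).1 cA
    have hct : c ≠ t := fun h => tA (h ▸ cA)
    have hcs : c ≠ s1 := fun h => sA (h ▸ cA)
    have u1 := (h1.2 c hct).1 cA
    have u2 := (h2.2 c hct).2 cB
    have hac : S.a t < S.a c := by
      by_contra hc
      have := nest_lt S c t x2 (not_lt.1 hc) (by linarith [m.2]) (Or.inr (by linarith [m.2])) x2i.1 x2i.2
      linarith
    have hcb : S.a c < S.b t := by
      by_contra hc
      have k1 := S.below c x1 (Or.inl (by linarith [not_lt.1 hc, x1i.2]))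
      have k2 := h1.1
      simp only [Sy.v] at k2 u1
      linarith
    have k3 := S.above c (S.b t) hcb (by linarith [m.2])
    have k4 := S.eb t
    have u3 := (h1'.2 c hcs).1 cA
    have u4 := (h1'.2 t (Ne.symm hts)).2 tA
    have u5 := (h2.2 s1 hts).2 sB
    have u6 := (h1.2 s1 hts).2 sA
    simp only [Sy.v] at u1 u2 u3 u4 u5 u6
    have sl : S.p t < S.p c := by
      by_contra hc
      have := mul_nonneg (sub_nonneg.2 (not_lt.1 hc)) (sub_nonneg.2 x2i.2.le)
      nlinarith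
    have xw : x2 < w1 := by
      by_contra hc
      have := mul_nonneg (sub_nonneg.2 sl.le) (sub_nonneg.2 (not_lt.1 hc))
      nlinarith
    rcases le_total (S.p s1) (S.p t) with hp | hp
    · have := mul_nonneg (sub_nonneg.2 hp) (sub_nonneg.2 xw.le)
      nlinarith
    · have := mul_nonneg (sub_nonneg.2 hp) (sub_nonneg.2 hw.le)
      nlinarith

/-- `t` is second among the lower edges of the cell `A`. -/
private def Scd (S : Sy ι) (A : Finset ι) (y : ℝ) (t : ι) : Prop :=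
  S.b t < y ∧ ∃ x s w, EdAt S A t x ∧ S.b s < y ∧ s ≠ t ∧ w < x ∧ EdAt S A s w

open Classical in
private theorem low_one (S : Sy ι) (A : Finset ι) (y : ℝ) (e : Sg S y = A) :
    (Finset.univ.filter (fun t => S.b t < y ∧ Ed S A t)).card ≤
      1 + (Finset.univ.filter (fun t => Scd S A y t)).card := by
  have mA : ∀ c, c ∈ A ↔ S.a c < y ∧ y < S.b c := fun c => by rw [← e]; exact mem_Sg S y c
  have nA : ∀ t, S.b t < y → t ∉ A := fun t ht h => by have := ((mA t).1 h).2; linarith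
  have key : ∀ t t', S.b t < y → S.b t' < y → t ≠ t' → Ed S A t → Ed S A t' →
      Scd S A y t ∨ Scd S A y t' := by
    intro t t' ht ht' hne ⟨x, hx⟩ ⟨x', hx'⟩
    rcases lt_trichotomy x x' with h | h | h
    · exact Or.inr ⟨ht', x', t, x, hx', ht, hne, h, hx⟩
    · subst h
      have a1 := (hx.2 t' (Ne.symm hne)).2 (nA t' ht')
      have a2 := (hx'.2 t hne).2 (nA t ht)
      exact absurd a1 (not_lt.2 a2.le)
    · exact Or.inl ⟨ht, x, t', x', hx, ht', Ne.symm hne, h, hx'⟩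
  have hsub : (Finset.univ.filter (fun t => S.b t < y ∧ Ed S A t)).card ≤
      (Finset.univ.filter (fun t => (S.b t < y ∧ Ed S A t) ∧ ¬ Scd S A y t)).card +
        (Finset.univ.filter (fun t => Scd S A y t)).card := by
    refine le_trans (Finset.card_le_card ?_) (Finset.card_union_le _ _)
    intro t ht
    simp only [Finset.mem_union, Finset.mem_filter, Finset.mem_univ, true_and] at ht ⊢
    by_cases h : Scd S A y t
    · exact Or.inr h
    · exact Or.inl ⟨ht, h⟩
  refine le_trans hsub (Nat.add_le_add_right ?_ _)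
  rw [Finset.card_le_one]
  intro t ht t' ht'
  simp only [Finset.mem_filter, Finset.mem_univ, true_and] at ht ht'
  by_contra hne
  rcases key t t' ht.1.1 ht'.1.1 hne ht.1.2 ht'.1.2 with h | h
  · exact ht.2 h
  · exact ht'.2 h

open Classical in
theorem low_card (S : Sy ι) (yy : Finset ι → ℝ) (h : ∀ A ∈ Sgs S, Off S (yy A) ∧ Sg S (yy A) = A) :
    ∑ A ∈ Sgs S, (Finset.univ.filter (fun t => S.b t < yy A ∧ Ed S A t)).card ≤
      (Sgs S).card + Fintype.card ι := by
  have h1 : ∑ A ∈ Sgs S, (Finset.univ.filter (fun t => S.b t < yy A ∧ Ed S A t)).card ≤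
      ∑ A ∈ Sgs S, (1 + (Finset.univ.filter (fun t => Scd S A (yy A) t)).card) :=
    Finset.sum_le_sum (fun A hA => low_one S A (yy A) (h A hA).2)
  refine le_trans h1 ?_
  rw [Finset.sum_add_distrib, Finset.sum_const, smul_eq_mul, mul_one]
  refine Nat.add_le_add_left ?_ _
  rw [← Finset.card_biUnion]
  · exact Finset.card_le_univ _
  · intro A hA B hB hAB
    rw [Function.onFun, Finset.disjoint_left]
    intro t ht ht'
    simp only [Finset.mem_filter, Finset.mem_univ, true_and] at ht ht'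
    obtain ⟨hb, x, s, w, e1, e2, e3, e4, e5⟩ := ht
    obtain ⟨hb', x', s', w', e1', e2', e3', e4', e5'⟩ := ht'
    rcases le_total (yy A) (yy B) with hy | hy
    · exact hAB (low_key S (h A hA).1 (h A hA).2 (h B hB).2 hy hb e2 e3 e1 e4 e5 e1')
    · exact hAB (low_key S (h B hB).1 (h B hB).2 (h A hA).2 hy hb' e2' e3' e1' e4' e5' e1).symm

private theorem mir_Sg (S : Sy ι) (y : ℝ) : Sg S.mir (-y) = Sg S y := by
  ext c
  rw [mem_Sg, mem_Sg]
  simp only [Sy.mir, neg_lt_neg_iff]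
  exact and_comm

private theorem mir_Off (S : Sy ι) (y : ℝ) : Off S.mir (-y) ↔ Off S y := by
  simp only [Off, Sy.mir, ne_eq, neg_inj]
  exact forall_congr' (fun i => and_comm)

private theorem mir_EdAt (S : Sy ι) (A : Finset ι) (i : ι) (x : ℝ) :
    EdAt S.mir A i (-x) ↔ EdAt S A i x := by
  have e : ∀ j, S.mir.v j (-x) = S.v j x := fun j => by simp [Sy.v, Sy.mir]
  have e' : S.mir.φ (-x) = S.φ x := by simp [Sy.mir]
  simp only [EdAt, e, e']

private theorem mir_Ed (S : Sy ι) (A : Finset ι) (i : ι) : Ed S.mir A i ↔ Ed S A i := by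
  constructor
  · rintro ⟨x, hx⟩
    exact ⟨-x, by rw [← mir_EdAt, neg_neg]; exact hx⟩
  · rintro ⟨x, hx⟩
    exact ⟨-x, (mir_EdAt S A i x).2 hx⟩

private theorem mir_Sgs (S : Sy ι) : Sgs S.mir = Sgs S := by
  ext A
  simp only [Sgs, Finset.mem_filter, Finset.mem_univ, true_and]
  constructor
  · rintro ⟨y, h1, h2⟩
    refine ⟨-y, ?_, ?_⟩
    · rw [← mir_Off, neg_neg]; exact h1
    · rw [← mir_Sg, neg_neg]; exact h2
  · rintro ⟨y, h1, h2⟩
    exact ⟨-y, (mir_Off S y).2 h1, by rw [mir_Sg]; exact h2⟩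

open Classical in
theorem low_card' (S : Sy ι) (yy : Finset ι → ℝ) (h : ∀ A ∈ Sgs S, Off S (yy A) ∧ Sg S (yy A) = A) :
    ∑ A ∈ Sgs S, (Finset.univ.filter (fun t => yy A < S.a t ∧ Ed S A t)).card ≤
      (Sgs S).card + Fintype.card ι := by
  have := low_card S.mir (fun A => - yy A) (fun A hA => by
    rw [mir_Sgs] at hA
    exact ⟨(mir_Off S _).2 (h A hA).1, by rw [mir_Sg]; exact (h A hA).2⟩)
  rw [mir_Sgs] at this
  refine le_trans (le_of_eq ?_) this
  refine Finset.sum_congr rfl (fun A _ => ?_)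
  have e : ∀ t, (yy A < S.a t ∧ Ed S A t) ↔ (S.mir.b t < - yy A ∧ Ed S.mir A t) := fun t => by
    rw [mir_Ed]
    simp only [Sy.mir, neg_lt_neg_iff]
  rw [Finset.filter_congr (fun t _ => e t)]

end Pool.Agent.Work.MP_e64a38_co.CZ
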