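import Pool.Agent.Work.MP_e64a38_co.CZ.ZUp
import Pool.Agent.Work.MP_e64a38_co.CZ.ZLow
import Pool.Agent.Work.MP_e64a38_co.CZ.ZCells
import Pool.Agent.Work.MP_e64a38_co.CZ.GPairs

/-!
# The number of edges of all cells that touch the parabola (size S-M)

`nEd S ≤ 100 card ι`. If `card ι = 0` there are no edges. Otherwise choose `yy A` for `A ∈ Sgs S`. An edge `t`
of `A` is in `A`, or `b t < yy A`, or `yy A < a t`. So
`nEd S ≤ (C + (68 n + 7)) + (C + n) + (C + n)` with `C ≤ 2 n + 1` (`up_card`, `prs_card`, `low_card`,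
`low_card'`, `sgs_card`), i.e. `nEd S ≤ 76 n + 10 ≤ 100 n`.
-/

set_option autoImplicit false

namespace Pool.Agent.Work.MP_e64a38_co.CZ

variable {ι : Type} [Fintype ι]

open Classical in
private theorem zt_split (S : Sy ι) (A : Finset ι) (y : ℝ) (hy : Off S y) (hA : Sg S y = A) :
    (Finset.univ.filter (fun i => Ed S A i)).card ≤
      (Finset.univ.filter (fun i => i ∈ A ∧ Ed S A i)).card +
        ((Finset.univ.filter (fun t => S.b t < y ∧ Ed S A t)).card +
          (Finset.univ.filter (fun t => y < S.a t ∧ Ed S A t)).card) := by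
  refine le_trans (Finset.card_le_card (t := Finset.univ.filter (fun i => i ∈ A ∧ Ed S A i) ∪
    (Finset.univ.filter (fun t => S.b t < y ∧ Ed S A t) ∪
      Finset.univ.filter (fun t => y < S.a t ∧ Ed S A t))) ?_)
    ((Finset.card_union_le _ _).trans (Nat.add_le_add_left (Finset.card_union_le _ _) _))
  intro i hi
  have hE := (Finset.mem_filter.1 hi).2
  by_cases hiA : i ∈ A
  · exact Finset.mem_union_left _ (Finset.mem_filter.2 ⟨Finset.mem_univ _, hiA, hE⟩)
  · apply Finset.mem_union_right
    have h1 : ¬ Al S y i := by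
      intro h
      apply hiA
      rw [← hA]
      unfold Sg
      exact Finset.mem_filter.2 ⟨Finset.mem_univ _, h⟩
    rcases lt_or_gt_of_ne (hy i).1 with h2 | h2
    · exact Finset.mem_union_right _ (Finset.mem_filter.2 ⟨Finset.mem_univ _, h2, hE⟩)
    · rcases lt_or_gt_of_ne (hy i).2 with h3 | h3
      · exact absurd ⟨h2, h3⟩ h1
      · exact Finset.mem_union_left _ (Finset.mem_filter.2 ⟨Finset.mem_univ _, h3, hE⟩)

theorem ned_le (S : Sy ι) (hS : Par S) : nEd S ≤ 100 * Fintype.card ι := by
  classical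
  have hex : ∀ A : Finset ι, ∃ y : ℝ, A ∈ Sgs S → Off S y ∧ Sg S y = A := by
    intro A
    by_cases hA : A ∈ Sgs S
    · unfold Sgs at hA
      obtain ⟨y, hy1, hy2⟩ := (Finset.mem_filter.1 hA).2
      exact ⟨y, fun _ => ⟨hy1, hy2⟩⟩
    · exact ⟨0, fun h => absurd h hA⟩
  choose yy hyy using hex
  have h1 := up_card S hS
  have h2 := low_card S yy hyy
  have h3 := low_card' S yy hyy
  have h4 := sgs_card S
  have h5 := prs_card S hS
  have h6 : nEd S ≤ ∑ A ∈ Sgs S, _ :=
    Finset.sum_le_sum fun A hA => zt_split S A (yy A) (hyy A hA).1 (hyy A hA).2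
  rw [Finset.sum_add_distrib, Finset.sum_add_distrib] at h6
  rcases Nat.eq_zero_or_pos (Fintype.card ι) with h0 | h0
  · have hem : IsEmpty ι := Fintype.card_eq_zero_iff.1 h0
    have h7 : nEd S = 0 := by
      unfold nEd
      apply Finset.sum_eq_zero
      intro A _
      rw [Finset.card_eq_zero]
      apply Finset.eq_empty_of_forall_notMem
      intro i
      exact hem.elim i
    omega
  · omega

end Pool.Agent.Work.MP_e64a38_co.CZ
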