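import Pool.Agent.Work.MP_e64a38_co.CZ.FOm
import Pool.Agent.Work.MP_e64a38_co.CZ.FPt
import Pool.Agent.Work.MP_e64a38_co.CZ.FEd
import Pool.Agent.Work.MP_e64a38_co.CZ.ZTot

/-!
# The zone of a conic is linear (size M)

Choose `g` (from `IsLn`), `u, v` (`om_ex`), `S` (`sys_ex`). For every `t = (K, l) ∈ Egs C L` choose `y_K` by
`zn_pt` (depending only on `K`) and map `t` to `(Sg S y_K, l)`, an element of the finite set
`{(A, i) : A ∈ Sgs S, Ed S A i}` (`ed_pt`), whose card is `nEd S` (`Finset.card_sigma`). The map is injective: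
if `Sg S y_K = Sg S y_K'` then `Al S y_K = Al S y_K'`, so `K = K'` by the description in `zn_pt` and
`K, K' ⊆ inn` (`cel_sub`). So `(Egs C L).encard ≤ nEd S ≤ 100 * card ι ≤ 100 * L.card` (`ned_le`;
`Fintype.card_le_of_injective`).
-/

set_option autoImplicit false

namespace Pool.Agent.Work.MP_e64a38_co.CZ

theorem zone_conic (C : Con) (L : Finset (Set (ℝ × ℝ))) (hL : ∀ l ∈ L, IsLn l) :
    (Egs C L).encard ≤ 100 * L.card := by
  classical
  haveI : Nonempty Af := ⟨⟨0, 0, 0⟩⟩
  choose! g hg using hL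
  obtain ⟨u, v, huv, hu⟩ := om_ex C L g (fun l hl => (hg l hl).1)
  obtain ⟨S, hS, hk⟩ := sys_ex C L g (fun l hl => (hg l hl).2) u v huv hu
  have hzn := fun K (hK : Zn C L K) => zn_pt C L g hg u v huv S hS hk K hK
  choose! y hy using hzn
  set T : Finset (Finset {l // l ∈ L ∧ (l ∩ C.inn).Nonempty} × Set (ℝ × ℝ)) :=
    ((Sgs S).sigma (fun A => Finset.univ.filter (fun i => Ed S A i))).image
      (fun z => (z.1, z.2.1)) with hT
  have hTc : T.card ≤ nEd S := by
    refine Finset.card_image_le.trans (le_of_eq ?_)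
    rw [Finset.card_sigma]
    unfold nEd
    rfl
  have h1 : (Egs C L).encard ≤ (T : Set (Finset {l // l ∈ L ∧ (l ∩ C.inn).Nonempty} ×
      Set (ℝ × ℝ))).encard := by
    refine Set.encard_le_encard_of_injOn (f := fun t => (Sg S (y t.1), t.2)) ?_ ?_
    · rintro ⟨K, l⟩ ⟨hK, hl, hn⟩
      obtain ⟨hy1, hy2⟩ := hy K hK
      obtain ⟨h, hE⟩ := ed_pt C L g hg u v huv S hS hk K hK.1 (y K) hy1 hy2 l hl hn
      rw [Finset.mem_coe, hT, Finset.mem_image]
      refine ⟨⟨Sg S (y K), ⟨l, h⟩⟩, ?_, rfl⟩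
      rw [Finset.mem_sigma]
      refine ⟨?_, ?_⟩
      · unfold Sgs
        rw [Finset.mem_filter]
        exact ⟨Finset.mem_univ _, y K, hy1, rfl⟩
      · rw [Finset.mem_filter]
        exact ⟨Finset.mem_univ _, hE⟩
    · rintro ⟨K, l⟩ ⟨hK, hl, hn⟩ ⟨K', l'⟩ ⟨hK', hl', hn'⟩ heq
      obtain ⟨e1, e2⟩ := Prod.mk.inj heq
      obtain ⟨hy1, hy2⟩ := hy K hK
      obtain ⟨hy1', hy2'⟩ := hy K' hK'
      have hAl : ∀ i, Al S (y K) i ↔ Al S (y K') i := by
        intro i
        have h3 : i ∈ Sg S (y K) ↔ i ∈ Sg S (y K') := by rw [e1]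
        unfold Sg at h3
        rw [Finset.mem_filter, Finset.mem_filter] at h3
        constructor
        · intro h4
          exact (h3.1 ⟨Finset.mem_univ _, h4⟩).2
        · intro h4
          exact (h3.2 ⟨Finset.mem_univ _, h4⟩).2
      have hKK : K = K' := by
        have s1 := (cel_sub C L K hK.1).1
        have s2 := (cel_sub C L K' hK'.1).1
        ext p
        constructor
        · intro hp
          refine (hy2' p (s1 hp)).2 (fun i => ?_)
          have h4 := (hy2 p (s1 hp)).1 hp i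
          rw [← hAl i]
          exact h4
        · intro hp
          refine (hy2 p (s2 hp)).2 (fun i => ?_)
          have h4 := (hy2' p (s2 hp)).1 hp i
          rw [hAl i]
          exact h4
      exact Prod.ext hKK e2
  have h2 : T.card ≤ 100 * L.card := by
    refine hTc.trans ((ned_le S hS).trans (Nat.mul_le_mul_left _ ?_))
    have h3 : Fintype.card {l // l ∈ L ∧ (l ∩ C.inn).Nonempty} ≤ Fintype.card {l // l ∈ L} := by
      refine Fintype.card_le_of_injective
        (fun l : {l // l ∈ L ∧ (l ∩ C.inn).Nonempty} => (⟨l.1, l.2.1⟩ : {l // l ∈ L})) ?_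
      intro l l' h
      apply Subtype.ext
      exact congrArg (fun z : {l // l ∈ L} => z.1) h
    rwa [Fintype.card_coe] at h3
  refine h1.trans ?_
  rw [Set.encard_coe_eq_coe_finsetCard]
  exact_mod_cast h2

end Pool.Agent.Work.MP_e64a38_co.CZ
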