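import Pool.Agent.Work.MP_e64a38_co.CZ.FDefs

/-!
# Elementary facts on conics (size M)

* `con_inj`: if `(f1, f2, f3)` at `p` is `r` times its value at `p'` then `p = p'` (and `r = 1`): the vector
  `(p.1, p.2, 1) - r (p'.1, p'.2, 1)` is in the kernel of the matrix with the rows `f1, f2, f3`, whose
  determinant is not zero (Cramer by `linear_combination`, or `Matrix.eq_zero_of_mulVec_eq_zero`).
* `con_cof`: every affine form is a linear combination of `f1, f2, f3` (same matrix, Cramer), as functions.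
* `inn_conv`: `inn` is convex, `inn_open`: and open. (`√(f1² + f2²)` is convex; or: by Cauchy
  `f1 p f1 p' + f2 p f2 p' < f3 p f3 p'`, expand the square.)
* `mid_inn`: if `p ≠ p'` are in `closure inn` then the midpoint is in `inn`. (On the closure `0 ≤ f3` and
  `f1² + f2² ≤ f3²`. At the midpoint `4 (f3² - f1² - f2²) = (f3² - f1² - f2²)(p) + (f3² - f1² - f2²)(p')
  + 2 (f3 f3' - f1 f1' - f2 f2')`, all terms `≥ 0` (Cauchy). If the sum is 0 then both points satisfy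
  `f1² + f2² = f3²` and equality holds in Cauchy's inequality, so `(f1, f2, f3)` and `(f1', f2', f3')` are
  proportional and by `con_inj` `p = p'` (a vector cannot be 0 by the same argument: `r = 0` is impossible
  since the third component of `(p, 1)` is 1). Finally `f3 > 0` at the midpoint since `f3² > f1² + f2² ≥ 0`
  and `f3 ≥ 0`.)
* `two_pts`: two different points lie on only one line: if `g`, `g'` are affine forms with nonzero linear part
  that vanish at `p ≠ p'` then `{g = 0} = {g' = 0}`.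
* `crv_fin`: a line contains at most two, so finitely many, points of `crv`; `top_fin`: `crv` contains at most
  one point with `cD = 0` (where `u² + v² = 1`: `f3 = cY`, `cX² + cY² = f3²`, so `cX = 0`,
  `(f1, f2, f3) = f3 (u, v, 1)`; `con_inj`).
-/

set_option autoImplicit false

namespace Pool.Agent.Work.MP_e64a38_co.CZ

private theorem fb_cr {a1 b1 c1 a2 b2 c2 a3 b3 c3 x y z : ℝ}
    (hD : a1 * (b2 * c3 - c2 * b3) - b1 * (a2 * c3 - c2 * a3) + c1 * (a2 * b3 - b2 * a3) ≠ 0)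
    (h1 : a1 * x + b1 * y + c1 * z = 0) (h2 : a2 * x + b2 * y + c2 * z = 0)
    (h3 : a3 * x + b3 * y + c3 * z = 0) : x = 0 ∧ y = 0 ∧ z = 0 := by
  refine ⟨?_, ?_, ?_⟩
  · apply (mul_eq_zero.1 (?_ : (a1 * (b2 * c3 - c2 * b3) - b1 * (a2 * c3 - c2 * a3) +
      c1 * (a2 * b3 - b2 * a3)) * x = 0)).resolve_left hD
    linear_combination (b2 * c3 - c2 * b3) * h1 - (b1 * c3 - c1 * b3) * h2 +
      (b1 * c2 - c1 * b2) * h3
  · apply (mul_eq_zero.1 (?_ : (a1 * (b2 * c3 - c2 * b3) - b1 * (a2 * c3 - c2 * a3) +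
      c1 * (a2 * b3 - b2 * a3)) * y = 0)).resolve_left hD
    linear_combination (-(a2 * c3 - c2 * a3)) * h1 + (a1 * c3 - c1 * a3) * h2 -
      (a1 * c2 - c1 * a2) * h3
  · apply (mul_eq_zero.1 (?_ : (a1 * (b2 * c3 - c2 * b3) - b1 * (a2 * c3 - c2 * a3) +
      c1 * (a2 * b3 - b2 * a3)) * z = 0)).resolve_left hD
    linear_combination (a2 * b3 - b2 * a3) * h1 - (a1 * b3 - b1 * a3) * h2 +
      (a1 * b2 - b1 * a2) * h3

private theorem fb_cont (g : Af) : Continuous g.ev := by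
  unfold Af.ev
  fun_prop

private theorem fb_cs {x1 x2 x3 y1 y2 y3 : ℝ} (hx : 0 < x3) (hx2 : x1 ^ 2 + x2 ^ 2 < x3 ^ 2)
    (hy : 0 < y3) (hy2 : y1 ^ 2 + y2 ^ 2 < y3 ^ 2) : x1 * y1 + x2 * y2 < x3 * y3 := by
  apply lt_of_pow_lt_pow_left₀ 2 (by positivity)
  have h1 : (x1 * y1 + x2 * y2) ^ 2 ≤ (x1 ^ 2 + x2 ^ 2) * (y1 ^ 2 + y2 ^ 2) := by
    nlinarith [sq_nonneg (x1 * y2 - x2 * y1)]
  have h2 : (x1 ^ 2 + x2 ^ 2) * (y1 ^ 2 + y2 ^ 2) < x3 ^ 2 * y3 ^ 2 :=
    mul_lt_mul'' hx2 hy2 (by positivity) (by positivity)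
  rw [mul_pow]
  linarith

private theorem fb_cs' {x1 x2 x3 y1 y2 y3 : ℝ} (hx : 0 ≤ x3) (hx2 : x1 ^ 2 + x2 ^ 2 ≤ x3 ^ 2)
    (hy : 0 ≤ y3) (hy2 : y1 ^ 2 + y2 ^ 2 ≤ y3 ^ 2) : x1 * y1 + x2 * y2 ≤ x3 * y3 := by
  apply le_of_sq_le_sq _ (by positivity)
  have h1 : (x1 * y1 + x2 * y2) ^ 2 ≤ (x1 ^ 2 + x2 ^ 2) * (y1 ^ 2 + y2 ^ 2) := by
    nlinarith [sq_nonneg (x1 * y2 - x2 * y1)]
  have h2 : (x1 ^ 2 + x2 ^ 2) * (y1 ^ 2 + y2 ^ 2) ≤ x3 ^ 2 * y3 ^ 2 :=
    mul_le_mul hx2 hy2 (by positivity) (by positivity)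
  rw [mul_pow]
  linarith

/-- the minors vanish -/
private theorem fb_min {x1 x2 x3 y1 y2 y3 : ℝ} (hx : x1 ^ 2 + x2 ^ 2 = x3 ^ 2)
    (hy : y1 ^ 2 + y2 ^ 2 = y3 ^ 2) (hxy : x1 * y1 + x2 * y2 = x3 * y3) :
    x1 * y3 = x3 * y1 ∧ x2 * y3 = x3 * y2 := by
  have h0 : (x1 * y2 - x2 * y1) ^ 2 = 0 := by
    have e1 : (x1 * y2 - x2 * y1) ^ 2 =
        (x1 ^ 2 + x2 ^ 2) * (y1 ^ 2 + y2 ^ 2) - (x1 * y1 + x2 * y2) ^ 2 := by ring
    rw [e1, hx, hy, hxy]
    ring
  have h1 : (x1 * y3 - x3 * y1) ^ 2 = 0 := by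
    have e1 : (x1 * y3 - x3 * y1) ^ 2 =
        x1 ^ 2 * y3 ^ 2 - 2 * (x1 * y1) * (x3 * y3) + x3 ^ 2 * y1 ^ 2 := by ring
    rw [e1, ← hx, ← hy, ← hxy, ← h0]
    ring
  have h2 : (x2 * y3 - x3 * y2) ^ 2 = 0 := by
    have e1 : (x2 * y3 - x3 * y2) ^ 2 =
        x2 ^ 2 * y3 ^ 2 - 2 * (x2 * y2) * (x3 * y3) + x3 ^ 2 * y2 ^ 2 := by ring
    rw [e1, ← hx, ← hy, ← hxy, ← h0]
    ring
  constructor
  · have := pow_eq_zero_iff (two_ne_zero) |>.1 h1
    linarith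
  · have := pow_eq_zero_iff (two_ne_zero) |>.1 h2
    linarith

private theorem fb_two (g g' : Af) (hg : g.a ≠ 0 ∨ g.b ≠ 0) (p p' q : ℝ × ℝ)
    (hne : p ≠ p') (h1 : g.ev p = 0) (h2 : g.ev p' = 0) (h3 : g'.ev p = 0) (h4 : g'.ev p' = 0)
    (hq : g.ev q = 0) : g'.ev q = 0 := by
  unfold Af.ev at *
  have hdet : g.a * g'.b - g.b * g'.a = 0 := by
    have e1 : (g.a * g'.b - g.b * g'.a) * (p.1 - p'.1) = 0 := by
      linear_combination g'.b * h1 - g'.b * h2 - g.b * h3 + g.b * h4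
    have e2 : (g.a * g'.b - g.b * g'.a) * (p.2 - p'.2) = 0 := by
      linear_combination g.a * h3 - g.a * h4 - g'.a * h1 + g'.a * h2
    rcases mul_eq_zero.1 e1 with h | h
    · exact h
    · rcases mul_eq_zero.1 e2 with h' | h'
      · exact h'
      · exact absurd (Prod.ext (by linarith) (by linarith)) hne
  rcases hg with ha | hb
  · apply (mul_eq_zero.1 (?_ : g.a * (g'.a * q.1 + g'.b * q.2 + g'.c) = 0)).resolve_left ha
    linear_combination g'.a * hq - g'.a * h1 + g.a * h3 + (q.2 - p.2) * hdet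
  · apply (mul_eq_zero.1 (?_ : g.b * (g'.a * q.1 + g'.b * q.2 + g'.c) = 0)).resolve_left hb
    linear_combination g'.b * hq - g'.b * h1 + g.b * h3 - (q.1 - p.1) * hdet

private theorem fb_quad (A B G : ℝ) (h : A ≠ 0 ∨ B ≠ 0 ∨ G ≠ 0) :
    {t : ℝ | A * t ^ 2 + 2 * B * t + G = 0}.Finite := by
  by_cases hex : ∃ t0 : ℝ, A * t0 ^ 2 + 2 * B * t0 + G = 0
  · obtain ⟨t0, ht0⟩ := hex
    by_cases hA : A = 0
    · by_cases hB : B = 0
      · rw [hA, hB] at ht0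
        have hG : G = 0 := by linarith
        rcases h with h | h | h
        · exact absurd hA h
        · exact absurd hB h
        · exact absurd hG h
      · apply (Set.finite_singleton t0).subset
        intro t ht
        have ht' : A * t ^ 2 + 2 * B * t + G = 0 := ht
        rw [hA] at ht' ht0
        have e1 : B * (t - t0) = 0 := by linarith
        have e2 := (mul_eq_zero.1 e1).resolve_left hB
        have e3 : t = t0 := by linarith
        exact e3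
    · apply (Set.toFinite ({t0, -(2 * B / A) - t0} : Set ℝ)).subset
      intro t ht
      have ht' : A * t ^ 2 + 2 * B * t + G = 0 := ht
      have e1 : (t - t0) * (A * (t + t0) + 2 * B) = 0 := by linear_combination ht' - ht0
      rcases mul_eq_zero.1 e1 with e2 | e2
      · left
        linarith
      · right
        have e3 : t = -(2 * B / A) - t0 := by
          field_simp
          linarith
        exact e3
  · push Not at hex
    apply Set.finite_empty.subset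
    intro t ht
    exact absurd ht (hex t)

theorem con_inj (C : Con) (p p' : ℝ × ℝ) (r : ℝ) (h1 : C.f1.ev p = r * C.f1.ev p')
    (h2 : C.f2.ev p = r * C.f2.ev p') (h3 : C.f3.ev p = r * C.f3.ev p') : p = p' := by
  unfold Af.ev at h1 h2 h3
  obtain ⟨e1, e2, e3⟩ := fb_cr C.det (x := p.1 - r * p'.1) (y := p.2 - r * p'.2) (z := 1 - r)
    (by linarith) (by linarith) (by linarith)
  have hr : r = 1 := by linarith
  rw [hr] at e1 e2
  exact Prod.ext (by linarith) (by linarith)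

theorem con_cof (C : Con) (g : Af) : ∃ c1 c2 c3 : ℝ,
    ∀ p, g.ev p = c1 * C.f1.ev p + c2 * C.f2.ev p + c3 * C.f3.ev p := by
  obtain ⟨D, hD⟩ : ∃ D : ℝ, D = C.f1.a * (C.f2.b * C.f3.c - C.f2.c * C.f3.b) -
    C.f1.b * (C.f2.a * C.f3.c - C.f2.c * C.f3.a) + C.f1.c * (C.f2.a * C.f3.b - C.f2.b * C.f3.a) :=
    ⟨_, rfl⟩
  have hD0 : D ≠ 0 := by rw [hD]; exact C.det
  refine ⟨(g.a * (C.f2.b * C.f3.c - C.f2.c * C.f3.b) - g.b * (C.f2.a * C.f3.c - C.f2.c * C.f3.a) +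
      g.c * (C.f2.a * C.f3.b - C.f2.b * C.f3.a)) / D,
    (-(g.a * (C.f1.b * C.f3.c - C.f1.c * C.f3.b)) + g.b * (C.f1.a * C.f3.c - C.f1.c * C.f3.a) -
      g.c * (C.f1.a * C.f3.b - C.f1.b * C.f3.a)) / D,
    (g.a * (C.f1.b * C.f2.c - C.f1.c * C.f2.b) - g.b * (C.f1.a * C.f2.c - C.f1.c * C.f2.a) +
      g.c * (C.f1.a * C.f2.b - C.f1.b * C.f2.a)) / D, ?_⟩
  intro p
  have key : D * g.ev p =
      (g.a * (C.f2.b * C.f3.c - C.f2.c * C.f3.b) - g.b * (C.f2.a * C.f3.c - C.f2.c * C.f3.a) +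
        g.c * (C.f2.a * C.f3.b - C.f2.b * C.f3.a)) * C.f1.ev p +
      (-(g.a * (C.f1.b * C.f3.c - C.f1.c * C.f3.b)) + g.b * (C.f1.a * C.f3.c - C.f1.c * C.f3.a) -
        g.c * (C.f1.a * C.f3.b - C.f1.b * C.f3.a)) * C.f2.ev p +
      (g.a * (C.f1.b * C.f2.c - C.f1.c * C.f2.b) - g.b * (C.f1.a * C.f2.c - C.f1.c * C.f2.a) +
        g.c * (C.f1.a * C.f2.b - C.f1.b * C.f2.a)) * C.f3.ev p := by
    rw [hD]
    unfold Af.ev
    ring
  have key2 : g.ev p = (D * g.ev p) / D := by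
    field_simp
  rw [key2, key]
  ring

theorem inn_conv (C : Con) : Convex ℝ C.inn := by
  intro p hp p' hp' a b ha hb hab
  obtain ⟨h1, h2⟩ := hp
  obtain ⟨h3, h4⟩ := hp'
  have haff : ∀ g : Af, g.ev (a • p + b • p') = a * g.ev p + b * g.ev p' := by
    intro g
    unfold Af.ev
    simp only [Prod.fst_add, Prod.snd_add, Prod.smul_fst, Prod.smul_snd, smul_eq_mul]
    have e : b = 1 - a := by linarith
    rw [e]
    ring
  have hcs := fb_cs h1 h2 h3 h4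
  refine ⟨?_, ?_⟩
  · rw [haff]
    rcases eq_or_lt_of_le ha with e | e
    · rw [← e, zero_mul, zero_add]
      have : b = 1 := by linarith
      rw [this, one_mul]
      exact h3
    · have e1 : 0 < a * C.f3.ev p := mul_pos e h1
      have e2 : 0 ≤ b * C.f3.ev p' := mul_nonneg hb h3.le
      linarith
  · rw [haff, haff, haff]
    have e0 : (a * C.f3.ev p + b * C.f3.ev p') ^ 2 -
        ((a * C.f1.ev p + b * C.f1.ev p') ^ 2 + (a * C.f2.ev p + b * C.f2.ev p') ^ 2) =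
        a ^ 2 * (C.f3.ev p ^ 2 - (C.f1.ev p ^ 2 + C.f2.ev p ^ 2)) +
        b ^ 2 * (C.f3.ev p' ^ 2 - (C.f1.ev p' ^ 2 + C.f2.ev p' ^ 2)) +
        2 * (a * b) * (C.f3.ev p * C.f3.ev p' -
          (C.f1.ev p * C.f1.ev p' + C.f2.ev p * C.f2.ev p')) := by ring
    have e3 : 0 ≤ 2 * (a * b) * (C.f3.ev p * C.f3.ev p' -
          (C.f1.ev p * C.f1.ev p' + C.f2.ev p * C.f2.ev p')) :=
      mul_nonneg (by positivity) (by linarith)
    rcases eq_or_lt_of_le ha with e | e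
    · have e4 : b = 1 := by linarith
      have e1 : 0 < b ^ 2 * (C.f3.ev p' ^ 2 - (C.f1.ev p' ^ 2 + C.f2.ev p' ^ 2)) := by
        rw [e4]
        linarith
      have e2 : 0 ≤ a ^ 2 * (C.f3.ev p ^ 2 - (C.f1.ev p ^ 2 + C.f2.ev p ^ 2)) :=
        mul_nonneg (sq_nonneg _) (by linarith)
      linarith
    · have e1 : 0 ≤ b ^ 2 * (C.f3.ev p' ^ 2 - (C.f1.ev p' ^ 2 + C.f2.ev p' ^ 2)) :=
        mul_nonneg (sq_nonneg _) (by linarith)
      have e2 : 0 < a ^ 2 * (C.f3.ev p ^ 2 - (C.f1.ev p ^ 2 + C.f2.ev p ^ 2)) :=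
        mul_pos (by positivity) (by linarith)
      linarith

theorem inn_open (C : Con) : IsOpen C.inn := by
  apply IsOpen.inter
  · exact isOpen_lt continuous_const (fb_cont _)
  · exact isOpen_lt (((fb_cont _).pow 2).add ((fb_cont _).pow 2)) ((fb_cont _).pow 2)

theorem mid_inn (C : Con) (p p' : ℝ × ℝ) (h : p ∈ closure C.inn) (h' : p' ∈ closure C.inn)
    (hne : p ≠ p') : ((p.1 + p'.1) / 2, (p.2 + p'.2) / 2) ∈ C.inn := by
  have hcl : ∀ q ∈ closure C.inn, 0 ≤ C.f3.ev q ∧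
      (C.f1.ev q) ^ 2 + (C.f2.ev q) ^ 2 ≤ (C.f3.ev q) ^ 2 := by
    intro q hq
    have hc : IsClosed {q | 0 ≤ C.f3.ev q ∧
        (C.f1.ev q) ^ 2 + (C.f2.ev q) ^ 2 ≤ (C.f3.ev q) ^ 2} := by
      apply IsClosed.inter
      · exact isClosed_le continuous_const (fb_cont _)
      · exact isClosed_le (((fb_cont _).pow 2).add ((fb_cont _).pow 2)) ((fb_cont _).pow 2)
    have hsub : C.inn ⊆ {q | 0 ≤ C.f3.ev q ∧
        (C.f1.ev q) ^ 2 + (C.f2.ev q) ^ 2 ≤ (C.f3.ev q) ^ 2} := fun r hr => ⟨hr.1.le, hr.2.le⟩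
    exact closure_minimal hsub hc hq
  obtain ⟨h1, h2⟩ := hcl p h
  obtain ⟨h3, h4⟩ := hcl p' h'
  have hcs := fb_cs' h1 h2 h3 h4
  have hev : ∀ g : Af, g.ev ((p.1 + p'.1) / 2, (p.2 + p'.2) / 2) = (g.ev p + g.ev p') / 2 := by
    intro g
    unfold Af.ev
    simp only
    ring
  have hstrict : ((C.f1.ev p + C.f1.ev p') / 2) ^ 2 + ((C.f2.ev p + C.f2.ev p') / 2) ^ 2 <
      ((C.f3.ev p + C.f3.ev p') / 2) ^ 2 := by
    by_contra hcon
    push Not at hcon
    have e0 : 4 * (((C.f3.ev p + C.f3.ev p') / 2) ^ 2 - (((C.f1.ev p + C.f1.ev p') / 2) ^ 2 +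
        ((C.f2.ev p + C.f2.ev p') / 2) ^ 2)) =
        (C.f3.ev p ^ 2 - (C.f1.ev p ^ 2 + C.f2.ev p ^ 2)) +
        (C.f3.ev p' ^ 2 - (C.f1.ev p' ^ 2 + C.f2.ev p' ^ 2)) +
        2 * (C.f3.ev p * C.f3.ev p' - (C.f1.ev p * C.f1.ev p' + C.f2.ev p * C.f2.ev p')) := by
      ring
    have a1 : C.f1.ev p ^ 2 + C.f2.ev p ^ 2 = C.f3.ev p ^ 2 := by linarith
    have a2 : C.f1.ev p' ^ 2 + C.f2.ev p' ^ 2 = C.f3.ev p' ^ 2 := by linarith
    have a3 : C.f1.ev p * C.f1.ev p' + C.f2.ev p * C.f2.ev p' = C.f3.ev p * C.f3.ev p' := by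
      linarith
    obtain ⟨m1, m2⟩ := fb_min a1 a2 a3
    by_cases hy : C.f3.ev p' = 0
    · rw [hy] at a2
      have b1 : C.f1.ev p' = 0 := by nlinarith [sq_nonneg (C.f1.ev p'), sq_nonneg (C.f2.ev p')]
      have b2 : C.f2.ev p' = 0 := by nlinarith [sq_nonneg (C.f1.ev p'), sq_nonneg (C.f2.ev p')]
      exact hne (con_inj C p' p 0 (by rw [b1, zero_mul]) (by rw [b2, zero_mul])
        (by rw [hy, zero_mul])).symm
    · apply hne
      apply con_inj C p p' (C.f3.ev p / C.f3.ev p')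
      · field_simp
        linarith
      · field_simp
        linarith
      · field_simp
  refine ⟨?_, ?_⟩
  · rw [hev]
    have e1 : 0 ≤ (C.f3.ev p + C.f3.ev p') / 2 := by linarith
    rcases eq_or_lt_of_le e1 with e2 | e2
    · exfalso
      rw [← e2] at hstrict
      nlinarith [sq_nonneg ((C.f1.ev p + C.f1.ev p') / 2),
        sq_nonneg ((C.f2.ev p + C.f2.ev p') / 2)]
    · exact e2
  · rw [hev, hev, hev]
    exact hstrict

theorem two_pts (g g' : Af) (hg : g.a ≠ 0 ∨ g.b ≠ 0) (hg' : g'.a ≠ 0 ∨ g'.b ≠ 0) (p p' : ℝ × ℝ)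
    (hne : p ≠ p') (h1 : g.ev p = 0) (h2 : g.ev p' = 0) (h3 : g'.ev p = 0) (h4 : g'.ev p' = 0) :
    {q | g.ev q = 0} = {q | g'.ev q = 0} := by
  ext q
  constructor
  · intro hq
    exact fb_two g g' hg p p' q hne h1 h2 h3 h4 hq
  · intro hq
    exact fb_two g' g hg' p p' q hne h3 h4 h1 h2 hq

theorem crv_fin (C : Con) (g : Af) (hg : g.a ≠ 0 ∨ g.b ≠ 0) :
    (C.crv ∩ {p | g.ev p = 0}).Finite := by
  have hn : 0 < g.a ^ 2 + g.b ^ 2 := by
    rcases hg with h | h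
    · have := sq_pos_of_ne_zero h
      nlinarith [sq_nonneg g.b]
    · have := sq_pos_of_ne_zero h
      nlinarith [sq_nonneg g.a]
  obtain ⟨N, hN⟩ : ∃ N : ℝ, N = g.a ^ 2 + g.b ^ 2 := ⟨_, rfl⟩
  rw [← hN] at hn
  have hN0 : N ≠ 0 := hn.ne'
  -- the parametrization of the line
  obtain ⟨P, hP⟩ : ∃ P : ℝ → ℝ × ℝ, P = fun t =>
    (-(g.a * g.c) / N - g.b * t, -(g.b * g.c) / N + g.a * t) := ⟨_, rfl⟩
  obtain ⟨α, hα⟩ : ∃ α : Af → ℝ, α = fun f => f.ev (P 0) := ⟨_, rfl⟩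
  obtain ⟨β, hβ⟩ : ∃ β : Af → ℝ, β = fun f => f.b * g.a - f.a * g.b := ⟨_, rfl⟩
  have hev : ∀ (f : Af) (t : ℝ), f.ev (P t) = α f + β f * t := by
    intro f t
    rw [hα, hβ, hP]
    unfold Af.ev
    simp only
    ring
  have hPinj : ∀ t t', P t = P t' → t = t' := by
    intro t t' h
    rw [hP] at h
    have h1 := congrArg Prod.fst h
    have h2 := congrArg Prod.snd h
    simp only at h1 h2
    rcases hg with h3 | h3
    · have h4 : g.a * (t - t') = 0 := by linarith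
      have := (mul_eq_zero.1 h4).resolve_left h3
      linarith
    · have h4 : g.b * (t - t') = 0 := by linarith
      have := (mul_eq_zero.1 h4).resolve_left h3
      linarith
  have hsub : C.crv ∩ {p | g.ev p = 0} ⊆ P '' {t : ℝ |
      (β C.f1 ^ 2 + β C.f2 ^ 2 - β C.f3 ^ 2) * t ^ 2 +
        2 * (α C.f1 * β C.f1 + α C.f2 * β C.f2 - α C.f3 * β C.f3) * t +
        (α C.f1 ^ 2 + α C.f2 ^ 2 - α C.f3 ^ 2) = 0} := by
    rintro p ⟨⟨-, h1⟩, h2⟩
    have h2' : g.a * p.1 + g.b * p.2 + g.c = 0 := h2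
    have hp : P ((-(g.b * p.1) + g.a * p.2) / N) = p := by
      rw [hP]
      apply Prod.ext
      · simp only
        field_simp
        rw [hN]
        linear_combination (-g.a) * h2'
      · simp only
        field_simp
        rw [hN]
        linear_combination (-g.b) * h2'
    refine ⟨(-(g.b * p.1) + g.a * p.2) / N, ?_, hp⟩
    rw [← hp, hev, hev, hev] at h1
    change _ = _
    linear_combination h1
  refine Set.Finite.subset (Set.Finite.image P (fb_quad _ _ _ ?_)) hsub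
  by_contra hcon
  push Not at hcon
  obtain ⟨q1, q2, q3⟩ := hcon
  obtain ⟨m1, m2⟩ := fb_min (x1 := α C.f1) (x2 := α C.f2) (x3 := α C.f3) (y1 := β C.f1)
    (y2 := β C.f2) (y3 := β C.f3) (by linarith) (by linarith) (by linarith)
  by_cases hb : β C.f3 = 0
  · rw [hb] at q1
    have b1 : β C.f1 = 0 := by nlinarith [sq_nonneg (β C.f1), sq_nonneg (β C.f2)]
    have b2 : β C.f2 = 0 := by nlinarith [sq_nonneg (β C.f1), sq_nonneg (β C.f2)]
    have h1 := con_inj C (P 0) (P 1) 1 (by rw [hev, hev, b1]; ring) (by rw [hev, hev, b2]; ring)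
      (by rw [hev, hev, hb]; ring)
    exact zero_ne_one (hPinj 0 1 h1)
  · have h1 : ∀ t', P (-(α C.f3 / β C.f3)) = P t' := by
      intro t'
      apply con_inj C _ _ 0
      · rw [hev, zero_mul]
        field_simp
        linarith
      · rw [hev, zero_mul]
        field_simp
        linarith
      · rw [hev, zero_mul]
        field_simp
        ring
    have h2 := hPinj _ _ ((h1 0).symm.trans (h1 1))
    exact zero_ne_one h2

theorem top_fin (C : Con) (u v : ℝ) (h : u ^ 2 + v ^ 2 = 1) :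
    (C.crv ∩ {p | cD C u v p = 0}).Finite := by
  apply Set.Subsingleton.finite
  have key : ∀ p ∈ C.crv ∩ {p | cD C u v p = 0}, 0 < C.f3.ev p ∧
      C.f1.ev p = u * C.f3.ev p ∧ C.f2.ev p = v * C.f3.ev p := by
    rintro p ⟨⟨h1, h2⟩, h3⟩
    have h3' : C.f3.ev p - (u * C.f1.ev p + v * C.f2.ev p) = 0 := h3
    have h4 : C.f3.ev p = u * C.f1.ev p + v * C.f2.ev p := by linarith
    have h5 : (v * C.f1.ev p - u * C.f2.ev p) ^ 2 = 0 := by
      have e1 : (v * C.f1.ev p - u * C.f2.ev p) ^ 2 =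
          (u ^ 2 + v ^ 2) * (C.f1.ev p ^ 2 + C.f2.ev p ^ 2) -
            (u * C.f1.ev p + v * C.f2.ev p) ^ 2 := by ring
      rw [e1, h, h2, ← h4]
      ring
    have h6 : v * C.f1.ev p - u * C.f2.ev p = 0 := pow_eq_zero_iff (two_ne_zero) |>.1 h5
    refine ⟨h1, ?_, ?_⟩
    · rw [h4]
      linear_combination (-C.f1.ev p) * h + v * h6
    · rw [h4]
      linear_combination (-C.f2.ev p) * h - u * h6
  intro p hp p' hp'
  obtain ⟨a1, a2, a3⟩ := key p hp
  obtain ⟨b1, b2, b3⟩ := key p' hp'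
  have hne : C.f3.ev p' ≠ 0 := b1.ne'
  apply con_inj C p p' (C.f3.ev p / C.f3.ev p')
  · rw [a2, b2]
    field_simp
  · rw [a3, b3]
    field_simp
  · field_simp

end Pool.Agent.Work.MP_e64a38_co.CZ
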