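import Pool.Agent.Work.MP_e64a38_co.CZ.EDefs

/-!
# Elementary facts on cells (size M)

* `c_nest`: if `c k i = c k j` then `c l i = c l j` for `k ≤ l` (induction with `c_succ`).
* `c_half`: `c (k + 1) i = m ↔ c k i = 2 m ∨ c k i = 2 m + 1` (`c_succ`, `Int` floor division, omega).
* `cl_le`: `cl k (c k i) ≤ cl l (c l i)` for `k ≤ l` (induction, `cl_mono`, `c_succ`).
* `in_zero`: no exposure belongs to a cell of level 0.
* `in_succ`: `InC (k + 1) m x ↔ (lv x = k ∧ nd x = m) ∨ InC k (2 m) x ∨ InC k (2 m + 1) x`.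
  (For `lv x = k`, `nd x = m` the leaf of `S.lft x` is in the cell `(k + 1, m)` by `c_half`. If
  `lv x + 1 ≤ k` the leaf `i` of `InC (k + 1) m x` has `c k i = 2 m` or `2 m + 1`; conversely clear.
  If `lv x + 1 = k + 1` then `c (k+1) i = nd x` and `= m`.)
* `in_all`: if `InC k m x` then every `i` with `c (lv x + 1) i = nd x` has `c k i = m` (`c_nest`).
* `in_excl`: an exposure does not belong to both `(k, m)` and `(k, m')` for `m ≠ m'` (`in_all`), and if
  `InC k m x` then `lv x ≠ k`.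
* `in_lft`: if `InC k m x` there are `i, j` with `c k i = m`, `c (lv x) i = 2 * nd x`, `et x < dt i`
  and `c k j = m`, `c (lv x) j = 2 * nd x + 1`, `et x < dt j`.
-/

set_option autoImplicit false

namespace Pool.Agent.Work.MP_e64a38_co.CZ

variable {ι X : Type}

theorem c_nest (S : ESys ι X) {k l : ℕ} (h : k ≤ l) {i j : ι} (hij : S.c k i = S.c k j) :
    S.c l i = S.c l j := by
  induction l, h using Nat.le_induction with
  | base => exact hij
  | succ l _ ih => rw [S.c_succ, S.c_succ, ih]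

theorem c_half (S : ESys ι X) (k : ℕ) (m : ℤ) (i : ι) :
    S.c (k + 1) i = m ↔ S.c k i = 2 * m ∨ S.c k i = 2 * m + 1 := by
  rw [S.c_succ]
  omega

theorem cl_le (S : ESys ι X) {k l : ℕ} (h : k ≤ l) (i : ι) :
    S.cl k (S.c k i) ≤ S.cl l (S.c l i) := by
  induction l, h using Nat.le_induction with
  | base => exact le_rfl
  | succ l _ ih =>
    rw [S.c_succ l i]
    exact ih.trans (S.cl_mono l (S.c l i))

theorem in_zero (S : ESys ι X) (m : ℤ) (x : X) : ¬ InC S 0 m x := by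
  rintro ⟨h, -⟩
  omega

theorem in_succ (S : ESys ι X) (k : ℕ) (m : ℤ) (x : X) :
    InC S (k + 1) m x ↔ (S.lv x = k ∧ S.nd x = m) ∨ InC S k (2 * m) x ∨ InC S k (2 * m + 1) x := by
  constructor
  · rintro ⟨h, i, h1, h2⟩
    by_cases hk : S.lv x = k
    · left
      refine ⟨hk, ?_⟩
      rw [hk] at h1
      rw [← h1, h2]
    · right
      rcases (c_half S k m i).1 h2 with h3 | h3
      · exact Or.inl ⟨by omega, i, h1, h3⟩
      · exact Or.inr ⟨by omega, i, h1, h3⟩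
  · rintro (⟨h1, h2⟩ | ⟨h, i, h1, h2⟩ | ⟨h, i, h1, h2⟩)
    · obtain ⟨i, hi, -⟩ := S.lft x
      rw [h1] at hi
      rw [h2] at hi
      have h3 := (c_half S k m i).2 (Or.inl hi)
      refine ⟨by omega, i, ?_, h3⟩
      rw [h1, h2]
      exact h3
    · exact ⟨by omega, i, h1, (c_half S k m i).2 (Or.inl h2)⟩
    · exact ⟨by omega, i, h1, (c_half S k m i).2 (Or.inr h2)⟩

theorem in_all (S : ESys ι X) {k : ℕ} {m : ℤ} {x : X} (h : InC S k m x) (i : ι)
    (hi : S.c (S.lv x + 1) i = S.nd x) : S.c k i = m := by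
  obtain ⟨h1, j, hj1, hj2⟩ := h
  rw [← hj2]
  exact c_nest S h1 (hi.trans hj1.symm)

theorem in_excl (S : ESys ι X) {k : ℕ} {m m' : ℤ} {x : X} (h : InC S k m x) (h' : InC S k m' x) :
    m = m' := by
  obtain ⟨h1, j, hj1, hj2⟩ := h
  rw [← hj2]
  exact in_all S h' j hj1

theorem in_lv (S : ESys ι X) {k : ℕ} {m : ℤ} {x : X} (h : InC S k m x) : S.lv x < k := by
  have h1 := h.1
  omega

theorem in_lft (S : ESys ι X) {k : ℕ} {m : ℤ} {x : X} (h : InC S k m x) :
    (∃ i, S.c k i = m ∧ S.c (S.lv x) i = 2 * S.nd x ∧ S.et x < S.dt i) ∧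
    ∃ j, S.c k j = m ∧ S.c (S.lv x) j = 2 * S.nd x + 1 ∧ S.et x < S.dt j := by
  constructor
  · obtain ⟨i, hi1, hi2⟩ := S.lft x
    exact ⟨i, in_all S h i ((c_half S _ _ i).2 (Or.inl hi1)), hi1, hi2⟩
  · obtain ⟨i, hi1, hi2⟩ := S.rgt x
    exact ⟨i, in_all S h i ((c_half S _ _ i).2 (Or.inr hi1)), hi1, hi2⟩

end Pool.Agent.Work.MP_e64a38_co.CZ
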