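import Pool.Agent.Work.MP_e64a38_co.CZ.ESt

/-!
# An exposure in a closed cell (size M-L)

Claim: if `InC k m x`, `et x = τ` and `cl k m ≤ τ` then `St k m τ = some t`, `St k m (τ + 1) = some t'`
and `Exo t t'`.

Induction on `k`; level 0 is impossible (`in_zero`). Level `k + 1`: by `in_succ` three cases. At time `τ`
no leaf dies (`disj`) and no other exposure takes place (`et_inj`).
* `lv x = k`, `nd x = m`. Both halves are not empty at time `τ` (`S.lft x`, `S.rgt x`, `st_none`) and do
  not change (`st_same`: the exposures of a half of the cell have level `< k` by `in_lv`, so they are not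
  `x`; others take place at another time by `et_inj`). `Fl k m τ` is false: a witness `x'` has the same
  cell and `et x' < et x`, by `S.sep x' x` some `i` in the left half has `et x' < dt i < et x = τ`,
  contradiction. `Fl k m (τ + 1)` holds with the witness `x` (no time strictly between `τ` and `τ + 1`).
  `Exo.here`.
* `InC k (2m+1) x` (right half). Let `j` be a leaf of `x` with `c k j = 2m+1` (`in_lft`). The right half
  is closed: `cl k (2m+1) ≤ cl (k+1) m` (`S.cl_mono`, `(2m+1)/2 = m`), so by induction `Exo` for the trees
  of the right half. The left half does not change (`st_same`; `in_excl`), the flag does not change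
  (`Fl k m (τ+1) ↔ Fl k m τ`: a witness has `lv = k`, `nd = m`, so it is not `x` since `lv x < k`; and no
  leaf dies at time `τ`). If the left half is empty the trees are those of the right half; otherwise
  `Exo.right`.
* `InC k (2m) x` (left half). The right half is empty at time `τ` (hence at `τ + 1`): let `i` be a leaf of
  `x` with `c k i = 2m` (`in_lft`; it also has `c (lv x + 1) i = nd x`, by `c_half`). If `j` had
  `c k j = 2m+1 = c k i + 1` and `τ ≤ dt j`, then `c (k+1) j = m = c (k+1) i` and
  `cl (k+1) m ≤ τ = et x`, so `dt j < et x` by `S.top x i j k` (here `lv x + 1 ≤ k` by `InC`):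
  contradiction. So by `st_none` the right half is `none`, `jn b o none = o`, and induction applies to
  the left half (`cl k (2m) ≤ cl (k+1) m`).
-/

set_option autoImplicit false

namespace Pool.Agent.Work.MP_e64a38_co.CZ

variable {ι X : Type} [Fintype ι]

open Classical in
private theorem St_succ (S : ESys ι X) (k : ℕ) (m : ℤ) (τ : ℕ) : St S (k + 1) m τ =
    jn (decide (Fl S k m τ)) (St S k (2 * m) τ) (St S k (2 * m + 1) τ) := rfl

private theorem jn_none_right (b : Bool) (o : Option Tr) : jn b o none = o := by
  cases o <;> rfl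

theorem st_exo (S : ESys ι X) (k : ℕ) (m : ℤ) (τ : ℕ) (x : X) (hx : InC S k m x) (he : S.et x = τ)
    (hc : S.cl k m ≤ τ) :
    ∃ t t', St S k m τ = some t ∧ St S k m (τ + 1) = some t' ∧ Exo t t' := by
  classical
  induction k generalizing m with
  | zero => exact absurd hx (in_zero S m x)
  | succ k ih =>
    have hdt : ∀ i, S.dt i ≠ τ := fun i h => S.disj i x (h.trans he.symm)
    have hxx : ∀ x', S.et x' = τ → x' = x := fun x' h => S.et_inj (h.trans he.symm)
    have hcA : S.cl k (2 * m) ≤ τ := by
      have h1 := S.cl_mono k (2 * m)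
      rw [show 2 * m / 2 = m by omega] at h1
      exact h1.trans hc
    have hcB : S.cl k (2 * m + 1) ≤ τ := by
      have h1 := S.cl_mono k (2 * m + 1)
      rw [show (2 * m + 1) / 2 = m by omega] at h1
      exact h1.trans hc
    rcases (in_succ S k m x).1 hx with ⟨h1, h2⟩ | h | h
    · -- the cell itself
      have hsame : ∀ m', St S k m' (τ + 1) = St S k m' τ := by
        intro m'
        refine st_same S k m' τ (fun i _ => hdt i) (fun x' hx' h3 => ?_)
        rw [hxx x' h3] at hx'
        have h4 := in_lv S hx'
        omega
      obtain ⟨i, hi1, hi2⟩ := S.lft x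
      obtain ⟨j, hj1, hj2⟩ := S.rgt x
      rw [h1, h2] at hi1 hj1
      have hl : ∃ l, St S k (2 * m) τ = some l := by
        rw [← Option.ne_none_iff_exists']
        intro h3
        exact (st_none S k (2 * m) τ).1 h3 i hi1 (by omega)
      have hr : ∃ r, St S k (2 * m + 1) τ = some r := by
        rw [← Option.ne_none_iff_exists']
        intro h3
        exact (st_none S k (2 * m + 1) τ).1 h3 j hj1 (by omega)
      obtain ⟨l, hl⟩ := hl
      obtain ⟨r, hr⟩ := hr
      have e0 : decide (Fl S k m τ) = false := by
        rw [decide_eq_false_iff_not]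
        rintro ⟨x', h3, h4, h5, h6⟩
        obtain ⟨i', h7, h8, h9⟩ := S.sep x' x (h3.trans h1.symm) (h4.trans h2.symm) (by omega)
        rw [h3, h4] at h7
        exact h6 i' h7 ⟨h8, by omega⟩
      have e1 : decide (Fl S k m (τ + 1)) = true := by
        rw [decide_eq_true_iff]
        exact ⟨x, h1, h2, by omega, fun i' _ h7 => by omega⟩
      rw [St_succ, St_succ, hsame, hsame, hl, hr, e0, e1]
      exact ⟨_, _, rfl, rfl, Exo.here l r⟩
    · -- left half
      obtain ⟨⟨i, hi1, hi2, hi3⟩, -⟩ := in_lft S h
      have hi4 : S.c (S.lv x + 1) i = S.nd x := (c_half S (S.lv x) (S.nd x) i).2 (Or.inl hi2)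
      have hi5 : S.c (k + 1) i = m := (c_half S k m i).2 (Or.inl hi1)
      have hno : ∀ j, S.c k j = 2 * m + 1 → ¬ τ ≤ S.dt j := by
        intro j hj hjt
        have hj5 : S.c (k + 1) j = m := (c_half S k m j).2 (Or.inr hj)
        have h3 := S.top x i j k h.1 hi4 (by rw [hj, hi1]) (by rw [hj5, hi5])
          (by rw [hi5, he]; exact hc)
        omega
      have hr0 : St S k (2 * m + 1) τ = none := (st_none S k (2 * m + 1) τ).2 hno
      have hr1 : St S k (2 * m + 1) (τ + 1) = none :=
        (st_none S k (2 * m + 1) (τ + 1)).2 fun j hj hjt => hno j hj (by omega)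
      obtain ⟨l, l', h3, h4, h5⟩ := ih (2 * m) h hcA
      rw [St_succ, St_succ, hr0, hr1, jn_none_right, jn_none_right]
      exact ⟨l, l', h3, h4, h5⟩
    · -- right half
      obtain ⟨r, r', h3, h4, h5⟩ := ih (2 * m + 1) h hcB
      have hl : St S k (2 * m) (τ + 1) = St S k (2 * m) τ := by
        refine st_same S k (2 * m) τ (fun i _ => hdt i) (fun x' hx' h6 => ?_)
        rw [hxx x' h6] at hx'
        have h7 := in_excl S h hx'
        omega
      have hfl : Fl S k m (τ + 1) ↔ Fl S k m τ := by
        constructor
        · rintro ⟨x', h6, h7, h8, h9⟩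
          have h10 : S.et x' ≠ τ := by
            intro h11
            rw [hxx x' h11] at h6
            have h12 := in_lv S h
            omega
          refine ⟨x', h6, h7, by omega, fun i hi hi' => h9 i hi ⟨hi'.1, ?_⟩⟩
          have := hi'.2
          omega
        · rintro ⟨x', h6, h7, h8, h9⟩
          refine ⟨x', h6, h7, by omega, fun i hi hi' => h9 i hi ⟨hi'.1, ?_⟩⟩
          have h10 := hi'.2
          have h11 := hdt i
          omega
      have hdec : decide (Fl S k m (τ + 1)) = decide (Fl S k m τ) := by
        by_cases h6 : Fl S k m τ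
        · rw [decide_eq_true h6, decide_eq_true (hfl.2 h6)]
        · rw [decide_eq_false h6, decide_eq_false fun h7 => h6 (hfl.1 h7)]
      rw [St_succ, St_succ, hdec, hl, h3, h4]
      rcases hlo : St S k (2 * m) τ with _ | l
      · exact ⟨r, r', rfl, rfl, h5⟩
      · exact ⟨_, _, rfl, rfl, Exo.right _ l r r' h5⟩

end Pool.Agent.Work.MP_e64a38_co.CZ
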