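import Pool.Agent.Work.MP_e64a38_co.CZ.EDth
import Pool.Agent.Work.MP_e64a38_co.CZ.EExo

/-!
# The main induction (size M-L)

Notation: `w = #{i : c k i = m}`, `D(τ) = #{i : c k i = m, dt i < τ}`,
`Y(τ) = #{x : InC k m x, et x < τ}`. Claim: if `cl k m ≤ τ` there is a natural number `d` with
`Pot (St k m τ) d` and `d + Y(τ) ≤ (w - 1) + 2 D(τ)` (natural subtraction).

Induction on `k`.
Level 0: `Y = 0` (`in_zero`), `St = comb n` with `n ≤ w`, take `d = n - 1` (`pot_comb`).
Level `k + 1`: induction on `τ` from `τ₀ = cl (k+1) m` (`Nat.le_induction`).
* `τ = τ₀`: both halves are closed at time `τ₀` (`S.cl_mono`, `(2m)/2 = m`, `(2m+1)/2 = m`), let `dA`,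
  `dB` be their numbers. No exposure `x` with `lv x = k`, `nd x = m` has `et x < τ₀` (`S.closed`), so
  `Y = YA + YB` (`in_succ`, `in_excl`; in fact `Y ≤ YA + YB` is enough), `w = wA + wB`, `D = DA + DB`
  (`c_half`), and `Fl k m τ₀` is false, for the same reason. If both halves are non-empty trees then
  `wA, wB ≥ 1` (`st_none`) and `Pot (jn false (some l) (some r)) (dA + dB + 1)` (`pot_join`);
  `(wA - 1) + (wB - 1) + 1 = w - 1`. If one of them is `none` the tree is the other one, take its `d`;
  `(wA - 1) + (wB - 1) ≤ w - 1`.
* `τ → τ + 1`: if some leaf of the cell dies at time `τ`: `D` grows by one, `Y` does not change (`disj`),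
  `d` is replaced by `d + 2` (`st_dth`, `pot_death`). If some exposure of the cell takes place at time `τ`:
  `Y` grows by one (`et_inj`: at most one), `D` does not change, `d` is replaced by `d - 1` (`st_exo`,
  `pot_expo`; `d ≥ 1` because `Pot _ (d - 1)` implies `0 ≤ d - 1`, `pot_nonneg`). Otherwise nothing
  changes (`st_same`).
-/

set_option autoImplicit false

namespace Pool.Agent.Work.MP_e64a38_co.CZ

variable {ι X : Type} [Fintype ι] [Fintype X]

open Classical in
private theorem St_succ (S : ESys ι X) (k : ℕ) (m : ℤ) (τ : ℕ) : St S (k + 1) m τ =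
    jn (decide (Fl S k m τ)) (St S k (2 * m) τ) (St S k (2 * m + 1) τ) := rfl

open Classical in
private theorem St_zero (S : ESys ι X) (m : ℤ) (τ : ℕ) : St S 0 m τ =
    comb (Finset.univ.filter (fun i => S.c 0 i = m ∧ τ ≤ S.dt i)).card := rfl

private theorem jn_none_right (b : Bool) (o : Option Tr) : jn b o none = o := by
  cases o <;> rfl

open Classical in
theorem e_claim (S : ESys ι X) (k : ℕ) (m : ℤ) (τ : ℕ) (h : S.cl k m ≤ τ) :
    ∃ d : ℕ, Pot (St S k m τ) (d : ℤ) ∧
      d + (Finset.univ.filter (fun x => InC S k m x ∧ S.et x < τ)).card ≤
        ((Finset.univ.filter (fun i => S.c k i = m)).card - 1) +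
          2 * (Finset.univ.filter (fun i => S.c k i = m ∧ S.dt i < τ)).card := by
  induction k generalizing m τ with
  | zero =>
    refine ⟨(Finset.univ.filter (fun i => S.c 0 i = m ∧ τ ≤ S.dt i)).card - 1, ?_, ?_⟩
    · rw [St_zero]
      exact pot_comb _
    · have h1 : (Finset.univ.filter (fun x => InC S 0 m x ∧ S.et x < τ)).card = 0 := by
        rw [Finset.card_eq_zero, Finset.filter_eq_empty_iff]
        intro x _ hx
        exact in_zero S m x hx.1
      have h2 : (Finset.univ.filter (fun i => S.c 0 i = m ∧ τ ≤ S.dt i)).card ≤
          (Finset.univ.filter (fun i => S.c 0 i = m)).card := by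
        apply Finset.card_le_card
        intro i hi
        rw [Finset.mem_filter] at hi ⊢
        exact ⟨hi.1, hi.2.1⟩
      omega
  | succ k ih =>
    induction τ, h using Nat.le_induction with
    | base =>
      have hcA : S.cl k (2 * m) ≤ S.cl (k + 1) m := by
        have h1 := S.cl_mono k (2 * m)
        rwa [show 2 * m / 2 = m by omega] at h1
      have hcB : S.cl k (2 * m + 1) ≤ S.cl (k + 1) m := by
        have h1 := S.cl_mono k (2 * m + 1)
        rwa [show (2 * m + 1) / 2 = m by omega] at h1
      obtain ⟨dA, hdA, hA⟩ := ih (2 * m) (S.cl (k + 1) m) hcA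
      obtain ⟨dB, hdB, hB⟩ := ih (2 * m + 1) (S.cl (k + 1) m) hcB
      have hno : ∀ x, S.lv x = k → S.nd x = m → ¬ S.et x < S.cl (k + 1) m := by
        intro x h1 h2 h3
        have h4 := S.closed x
        rw [h1, h2] at h4
        omega
      have e0 : decide (Fl S k m (S.cl (k + 1) m)) = false := by
        rw [decide_eq_false_iff_not]
        rintro ⟨x, h1, h2, h3, -⟩
        exact hno x h1 h2 h3
      have hY : (Finset.univ.filter (fun x => InC S (k + 1) m x ∧ S.et x < S.cl (k + 1) m)).card ≤
          (Finset.univ.filter (fun x => InC S k (2 * m) x ∧ S.et x < S.cl (k + 1) m)).card +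
          (Finset.univ.filter (fun x => InC S k (2 * m + 1) x ∧
            S.et x < S.cl (k + 1) m)).card := by
        refine le_trans (Finset.card_le_card ?_) (Finset.card_union_le _ _)
        intro x hx
        rw [Finset.mem_filter] at hx
        obtain ⟨-, h1, h2⟩ := hx
        rw [Finset.mem_union, Finset.mem_filter, Finset.mem_filter]
        rcases (in_succ S k m x).1 h1 with ⟨h3, h4⟩ | h3 | h3
        · exact absurd h2 (hno x h3 h4)
        · exact Or.inl ⟨Finset.mem_univ _, h3, h2⟩
        · exact Or.inr ⟨Finset.mem_univ _, h3, h2⟩
      have hw : (Finset.univ.filter (fun i => S.c (k + 1) i = m)).card =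
          (Finset.univ.filter (fun i => S.c k i = 2 * m)).card +
          (Finset.univ.filter (fun i => S.c k i = 2 * m + 1)).card := by
        rw [← Finset.card_union_of_disjoint]
        · congr 1
          ext i
          rw [Finset.mem_union, Finset.mem_filter, Finset.mem_filter, Finset.mem_filter, c_half]
          simp only [Finset.mem_univ, true_and]
        · rw [Finset.disjoint_left]
          intro i h1 h2
          rw [Finset.mem_filter] at h1 h2
          have h3 := h1.2
          have h4 := h2.2
          omega
      have hD : (Finset.univ.filter (fun i => S.c (k + 1) i = m ∧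
          S.dt i < S.cl (k + 1) m)).card =
          (Finset.univ.filter (fun i => S.c k i = 2 * m ∧ S.dt i < S.cl (k + 1) m)).card +
          (Finset.univ.filter (fun i => S.c k i = 2 * m + 1 ∧ S.dt i < S.cl (k + 1) m)).card := by
        rw [← Finset.card_union_of_disjoint]
        · congr 1
          ext i
          rw [Finset.mem_union, Finset.mem_filter, Finset.mem_filter, Finset.mem_filter, c_half]
          simp only [Finset.mem_univ, true_and]
          tauto
        · rw [Finset.disjoint_left]
          intro i h1 h2
          rw [Finset.mem_filter] at h1 h2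
          have h3 := h1.2.1
          have h4 := h2.2.1
          omega
      have hne : ∀ m', St S k m' (S.cl (k + 1) m) ≠ none →
          1 ≤ (Finset.univ.filter (fun i => S.c k i = m')).card := by
        intro m' h1
        rw [Ne, st_none] at h1
        push Not at h1
        obtain ⟨i, h2, -⟩ := h1
        exact Finset.card_pos.2 ⟨i, Finset.mem_filter.2 ⟨Finset.mem_univ _, h2⟩⟩
      rw [St_succ, e0]
      rcases hAo : St S k (2 * m) (S.cl (k + 1) m) with _ | l
      · refine ⟨dB, ?_, ?_⟩
        · show Pot (St S k (2 * m + 1) (S.cl (k + 1) m)) (dB : ℤ)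
          exact hdB
        · rw [hw, hD]
          omega
      · rcases hBo : St S k (2 * m + 1) (S.cl (k + 1) m) with _ | r
        · refine ⟨dA, ?_, ?_⟩
          · rw [jn_none_right, ← hAo]
            exact hdA
          · rw [hw, hD]
            omega
        · refine ⟨dA + dB + 1, ?_, ?_⟩
          · rw [hAo] at hdA
            rw [hBo] at hdB
            have h1 := pot_join hdA hdB
            push_cast
            exact h1
          · have h1 := hne (2 * m) (by rw [hAo]; exact Option.some_ne_none _)
            have h2 := hne (2 * m + 1) (by rw [hBo]; exact Option.some_ne_none _)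
            rw [hw, hD]
            omega
    | succ τ hτ ihτ =>
      obtain ⟨d, hd, hle⟩ := ihτ
      have hDmono : (Finset.univ.filter (fun i => S.c (k + 1) i = m ∧ S.dt i < τ)).card ≤
          (Finset.univ.filter (fun i => S.c (k + 1) i = m ∧ S.dt i < τ + 1)).card := by
        apply Finset.card_le_card
        intro i hi
        rw [Finset.mem_filter] at hi ⊢
        exact ⟨hi.1, hi.2.1, by have := hi.2.2; omega⟩
      by_cases h1 : ∃ i, S.c (k + 1) i = m ∧ S.dt i = τ
      · obtain ⟨i, hi1, hi2⟩ := h1
        obtain ⟨t, ht, hdt⟩ := st_dth S (k + 1) m τ i hi2 hi1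
        rw [ht] at hd
        refine ⟨d + 2, ?_, ?_⟩
        · have h2 := pot_death hd hdt
          push_cast
          exact h2
        · have hY : (Finset.univ.filter (fun x => InC S (k + 1) m x ∧ S.et x < τ + 1)).card ≤
              (Finset.univ.filter (fun x => InC S (k + 1) m x ∧ S.et x < τ)).card := by
            apply Finset.card_le_card
            intro x hx
            rw [Finset.mem_filter] at hx ⊢
            have h2 := hx.2.2
            have h3 : S.et x ≠ τ := fun h4 => S.disj i x (hi2.trans h4.symm)
            exact ⟨hx.1, hx.2.1, by omega⟩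
          have hD : (Finset.univ.filter (fun i => S.c (k + 1) i = m ∧ S.dt i < τ)).card + 1 ≤
              (Finset.univ.filter (fun i => S.c (k + 1) i = m ∧ S.dt i < τ + 1)).card := by
            have h2 : i ∉ Finset.univ.filter (fun i => S.c (k + 1) i = m ∧ S.dt i < τ) := by
              rw [Finset.mem_filter]
              rintro ⟨-, -, h3⟩
              omega
            rw [← Finset.card_insert_of_notMem h2]
            apply Finset.card_le_card
            intro j hj
            rw [Finset.mem_insert] at hj
            rcases hj with hj | hj
            · rw [hj, Finset.mem_filter]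
              exact ⟨Finset.mem_univ _, hi1, by omega⟩
            · rw [Finset.mem_filter] at hj ⊢
              exact ⟨hj.1, hj.2.1, by have := hj.2.2; omega⟩
          omega
      · by_cases h2 : ∃ x, InC S (k + 1) m x ∧ S.et x = τ
        · obtain ⟨x, hx1, hx2⟩ := h2
          obtain ⟨t, t', ht, ht', hexo⟩ := st_exo S (k + 1) m τ x hx1 hx2 hτ
          rw [ht] at hd
          have h3 := pot_expo hd hexo
          have h4 := pot_nonneg h3
          have h5 : 1 ≤ d := by omega
          refine ⟨d - 1, ?_, ?_⟩
          · rw [ht']
            push_cast [Nat.cast_sub h5]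
            exact h3
          · have hY : (Finset.univ.filter (fun x => InC S (k + 1) m x ∧ S.et x < τ + 1)).card ≤
                (Finset.univ.filter (fun x => InC S (k + 1) m x ∧ S.et x < τ)).card + 1 := by
              refine le_trans (Finset.card_le_card ?_) (Finset.card_insert_le x _)
              intro y hy
              rw [Finset.mem_filter] at hy
              rw [Finset.mem_insert, Finset.mem_filter]
              by_cases h6 : S.et y = τ
              · left
                exact S.et_inj (h6.trans hx2.symm)
              · right
                have h7 := hy.2.2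
                exact ⟨hy.1, hy.2.1, by omega⟩
            omega
        · push Not at h1 h2
          refine ⟨d, ?_, ?_⟩
          · rw [st_same S (k + 1) m τ h1 h2]
            exact hd
          · have hY : (Finset.univ.filter (fun x => InC S (k + 1) m x ∧ S.et x < τ + 1)).card ≤
                (Finset.univ.filter (fun x => InC S (k + 1) m x ∧ S.et x < τ)).card := by
              apply Finset.card_le_card
              intro x hx
              rw [Finset.mem_filter] at hx ⊢
              have h3 := hx.2.2
              have h4 := h2 x hx.2.1
              exact ⟨hx.1, hx.2.1, by omega⟩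
            omega

end Pool.Agent.Work.MP_e64a38_co.CZ
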