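import Pool.Agent.Work.MP_e64a38_co.CZ.TDefs

/-!
# Exposure systems (fixed file)

A discrete time model. `ι` : the leaves (chords), `X` : the exposures.
`c k i` : index of the cell of level `k` that contains `i`; the cell `m` of level `k + 1` is the union of
its left half, the cell `2 m` of level `k`, and its right half, the cell `2 m + 1` of level `k`.
`dt i` : the time of death of `i`;  `et x` : the time of exposure `x`; `(lv x + 1, nd x)` : its cell.
`cl k m` : the time at which the cell `(k, m)` is closed.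
`St k m τ` : the tree of the leaves of the cell `(k, m)` that are alive at time `τ`.
-/

set_option autoImplicit false

namespace Pool.Agent.Work.MP_e64a38_co.CZ

/-- exposure systems -/
structure ESys (ι X : Type) where
  c : ℕ → ι → ℤ
  c_succ : ∀ k i, c (k + 1) i = c k i / 2
  cl : ℕ → ℤ → ℕ
  cl_mono : ∀ k m, cl k m ≤ cl (k + 1) (m / 2)
  dt : ι → ℕ
  et : X → ℕ
  dt_inj : Function.Injective dt
  et_inj : Function.Injective et
  disj : ∀ i x, dt i ≠ et x
  lv : X → ℕ
  nd : X → ℤ
  /-- an exposure takes place in a closed cell -/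
  closed : ∀ x, cl (lv x + 1) (nd x) ≤ et x
  /-- something is alive in the left half -/
  lft : ∀ x, ∃ i, c (lv x) i = 2 * nd x ∧ et x < dt i
  /-- something is alive in the right half -/
  rgt : ∀ x, ∃ i, c (lv x) i = 2 * nd x + 1 ∧ et x < dt i
  /-- in a closed cell with the exposed cell in its left half the right half is dead -/
  top : ∀ x i j k, lv x + 1 ≤ k → c (lv x + 1) i = nd x → c k j = c k i + 1 →
    c (k + 1) j = c (k + 1) i → cl (k + 1) (c (k + 1) i) ≤ et x → dt j < et x
  /-- nothing alive in the right half dies before all that is alive in the left half -/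
  flg : ∀ x j, c (lv x) j = 2 * nd x + 1 → et x < dt j →
    ∃ i, c (lv x) i = 2 * nd x ∧ et x < dt i ∧ dt i < dt j
  /-- between two exposures of a cell something dies in its left half -/
  sep : ∀ x x', lv x = lv x' → nd x = nd x' → et x < et x' →
    ∃ i, c (lv x) i = 2 * nd x ∧ et x < dt i ∧ dt i < et x'

variable {ι X : Type}

/-- the cell `(k + 1, m)` is flagged at time `τ` -/
def Fl (S : ESys ι X) (k : ℕ) (m : ℤ) (τ : ℕ) : Prop :=
  ∃ x, S.lv x = k ∧ S.nd x = m ∧ S.et x < τ ∧
    ∀ i, S.c k i = 2 * m → ¬ (S.et x < S.dt i ∧ S.dt i < τ)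

open Classical in
/-- the tree of the cell `(k, m)` at time `τ` -/
noncomputable def St [Fintype ι] (S : ESys ι X) : ℕ → ℤ → ℕ → Option Tr
  | 0, m, τ => comb (Finset.univ.filter (fun i => S.c 0 i = m ∧ τ ≤ S.dt i)).card
  | k + 1, m, τ => jn (decide (Fl S k m τ)) (St S k (2 * m) τ) (St S k (2 * m + 1) τ)

/-- exposure `x` belongs to the cell `(k, m)` -/
def InC (S : ESys ι X) (k : ℕ) (m : ℤ) (x : X) : Prop :=
  S.lv x + 1 ≤ k ∧ ∃ i, S.c (S.lv x + 1) i = S.nd x ∧ S.c k i = m

end Pool.Agent.Work.MP_e64a38_co.CZ
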