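import Pool.Agent.Work.MP_e64a38_co.CZ.TJoin

/-!
# Combs (size S)

`pot_comb`: induction on `n`: `comb 0 = none`, `comb 1 = some leaf`, and
`comb (n + 2) = some (node false leaf (comb (n + 1)))` has potential at most `0 + n + 1` by `pot_join`.
`comb_dth`: the left leaf of the comb dies (`comb 1`: `Dth.leaf`; otherwise `Dth.leftN` with `Dth.leaf`).
-/

set_option autoImplicit false

namespace Pool.Agent.Work.MP_e64a38_co.CZ

private theorem comb_some (n : ℕ) : ∃ t, comb (n + 1) = some t := by
  show ∃ t, jn false (some Tr.leaf) (comb n) = some t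
  cases comb n with
  | none => exact ⟨_, rfl⟩
  | some B => exact ⟨_, rfl⟩

theorem pot_comb (n : ℕ) : Pot (comb n) ((n - 1 : ℕ) : ℤ) := by
  induction n with
  | zero => exact pot_none
  | succ n ih =>
    cases n with
    | zero => exact pot_leaf
    | succ n =>
      obtain ⟨B, hB⟩ := comb_some n
      have h1 : comb (n + 1 + 1) = some (Tr.node false Tr.leaf B) := by
        show jn false (some Tr.leaf) (comb (n + 1)) = _
        rw [hB]
        rfl
      rw [h1]
      rw [hB] at ih
      have h2 := pot_join pot_leaf ih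
      have h3 : ((n + 1 + 1 - 1 : ℕ) : ℤ) = 0 + ((n + 1 - 1 : ℕ) : ℤ) + 1 := by
        simp
      rw [h3]
      exact h2

theorem comb_dth (n : ℕ) : ∃ t, comb (n + 1) = some t ∧ Dth t (comb n) := by
  show ∃ t, jn false (some Tr.leaf) (comb n) = some t ∧ Dth t (comb n)
  cases comb n with
  | none => exact ⟨_, rfl, Dth.leaf⟩
  | some B => exact ⟨_, rfl, Dth.leftN false Tr.leaf B Dth.leaf⟩

end Pool.Agent.Work.MP_e64a38_co.CZ
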