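import Pool.Agent.Work.MP_e64a38_co.CZ.ESt
import Pool.Agent.Work.MP_e64a38_co.CZ.TComb

/-!
# A leaf of the cell dies (size M-L)

Claim: if `dt i = τ` and `c k i = m` then `St k m τ = some t` for some `t` with `Dth t (St k m (τ + 1))`.

Induction on `k`. Level 0: the filter for `τ + 1` is the filter for `τ` without `i` (`dt_inj`: only `i`
dies at time `τ`), so its card is smaller by one; `comb_dth`.
Level `k + 1`: by `c_half` the leaf `i` is in the left or in the right half. No exposure takes place at
time `τ` (`disj`), no other leaf dies at time `τ` (`dt_inj`), so the tree of the other half does not change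
(`st_same`; for the other half `c k j ≠ c k i`).
* `i` in the left half, `St k (2m) τ = some l`, `Dth l (St k (2m) (τ+1))`. The flag at time `τ + 1` is
  false: a witness `x` of `Fl k m (τ + 1)` has `et x < τ + 1`, `et x ≠ τ`, so `et x < τ = dt i < τ + 1`,
  and `i` is in the left half: contradiction. If the right half is empty (`St = none`) both trees are the
  trees of the left half; otherwise use `Dth.leftN` or `Dth.leftS` (according to `St k (2m) (τ+1)` being
  none or not).
* `i` in the right half. If the left half is empty both trees are the trees of the right half (by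
  induction). If it is not empty, the flag at time `τ` is false: let `x` be a witness of `Fl k m τ`;
  `et x < τ = dt i`, so by `S.flg x i` some `i'` in the left half has `et x < dt i' < dt i = τ`,
  contradicting the last clause of `Fl`. The flag at time `τ + 1` is false as well: a witness would have
  `et x < τ` (as `et x ≠ τ`) and no death in the left half between `et x` and `τ + 1`, so it would be a
  witness for `τ`. Now `Dth.rightN` or `Dth.rightS`.
-/

set_option autoImplicit false

namespace Pool.Agent.Work.MP_e64a38_co.CZ

variable {ι X : Type} [Fintype ι]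

open Classical in
private theorem St_succ (S : ESys ι X) (k : ℕ) (m : ℤ) (τ : ℕ) : St S (k + 1) m τ =
    jn (decide (Fl S k m τ)) (St S k (2 * m) τ) (St S k (2 * m + 1) τ) := rfl

open Classical in
private theorem St_zero (S : ESys ι X) (m : ℤ) (τ : ℕ) : St S 0 m τ =
    comb (Finset.univ.filter (fun i => S.c 0 i = m ∧ τ ≤ S.dt i)).card := rfl

private theorem jn_none_right (b : Bool) (o : Option Tr) : jn b o none = o := by
  cases o <;> rfl

theorem st_dth (S : ESys ι X) (k : ℕ) (m : ℤ) (τ : ℕ) (i : ι) (hi : S.dt i = τ) (hc : S.c k i = m) :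
    ∃ t, St S k m τ = some t ∧ Dth t (St S k m (τ + 1)) := by
  classical
  induction k generalizing m with
  | zero =>
    rw [St_zero, St_zero]
    have h1 : Finset.univ.filter (fun j => S.c 0 j = m ∧ τ ≤ S.dt j) =
        insert i (Finset.univ.filter (fun j => S.c 0 j = m ∧ τ + 1 ≤ S.dt j)) := by
      ext j
      simp only [Finset.mem_filter, Finset.mem_univ, true_and, Finset.mem_insert]
      constructor
      · rintro ⟨h1, h2⟩
        by_cases hj : S.dt j = τ
        · left
          exact S.dt_inj (hj.trans hi.symm)
        · right
          exact ⟨h1, by omega⟩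
      · rintro (h1 | ⟨h1, h2⟩)
        · rw [h1]
          exact ⟨hc, hi.ge⟩
        · exact ⟨h1, by omega⟩
    have h2 : i ∉ Finset.univ.filter (fun j => S.c 0 j = m ∧ τ + 1 ≤ S.dt j) := by
      simp only [Finset.mem_filter, Finset.mem_univ, true_and, not_and]
      intro _
      omega
    have h3 : (Finset.univ.filter (fun j => S.c 0 j = m ∧ τ ≤ S.dt j)).card =
        (Finset.univ.filter (fun j => S.c 0 j = m ∧ τ + 1 ≤ S.dt j)).card + 1 := by
      rw [h1, Finset.card_insert_of_notMem h2]
    obtain ⟨t, ht, hd⟩ := comb_dth
      (Finset.univ.filter (fun j => S.c 0 j = m ∧ τ + 1 ≤ S.dt j)).card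
    refine ⟨t, ?_, ?_⟩
    · rw [← ht, ← h3]
    · exact hd
  | succ k ih =>
    have hex : ∀ x, S.et x ≠ τ := fun x h => S.disj i x (hi.trans h.symm)
    rcases (c_half S k m i).1 hc with h | h
    · -- left
      obtain ⟨l, hl, hdl⟩ := ih (2 * m) h
      have hr : St S k (2 * m + 1) (τ + 1) = St S k (2 * m + 1) τ := by
        refine st_same S k (2 * m + 1) τ ?_ (fun x _ => hex x)
        intro j hj hjt
        have hji : j = i := S.dt_inj (hjt.trans hi.symm)
        rw [hji, h] at hj
        omega
      have hfl : decide (Fl S k m (τ + 1)) = false := by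
        rw [decide_eq_false_iff_not]
        rintro ⟨x, hx1, hx2, hx3, hx4⟩
        have hxe := hex x
        exact hx4 i h ⟨by omega, by omega⟩
      rw [St_succ, St_succ, hfl, hr, hl]
      rcases hro : St S k (2 * m + 1) τ with _ | r
      · rw [jn_none_right, jn_none_right]
        exact ⟨l, rfl, hdl⟩
      · rcases hlo : St S k (2 * m) (τ + 1) with _ | l'
        · rw [hlo] at hdl
          exact ⟨Tr.node _ l r, rfl, Dth.leftN _ l r hdl⟩
        · rw [hlo] at hdl
          exact ⟨Tr.node _ l r, rfl, Dth.leftS _ l l' r hdl⟩
    · -- right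
      obtain ⟨r, hr, hdr⟩ := ih (2 * m + 1) h
      have hl : St S k (2 * m) (τ + 1) = St S k (2 * m) τ := by
        refine st_same S k (2 * m) τ ?_ (fun x _ => hex x)
        intro j hj hjt
        have hji : j = i := S.dt_inj (hjt.trans hi.symm)
        rw [hji, h] at hj
        omega
      rcases hlo : St S k (2 * m) τ with _ | l
      · rw [St_succ, St_succ, hl, hlo, hr]
        exact ⟨r, rfl, hdr⟩
      · have hfl0 : ¬ Fl S k m τ := by
          rintro ⟨x, hx1, hx2, hx3, hx4⟩
          obtain ⟨i', h1, h2, h3⟩ := S.flg x i (by rw [hx1, hx2]; exact h) (by omega)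
          rw [hx1, hx2] at h1
          exact hx4 i' h1 ⟨h2, by omega⟩
        have hfl1 : ¬ Fl S k m (τ + 1) := by
          rintro ⟨x, hx1, hx2, hx3, hx4⟩
          have hxe := hex x
          refine hfl0 ⟨x, hx1, hx2, by omega, fun j hj hj' => hx4 j hj ⟨hj'.1, ?_⟩⟩
          have := hj'.2
          omega
        have e0 : decide (Fl S k m τ) = false := by
          rw [decide_eq_false_iff_not]
          exact hfl0
        have e1 : decide (Fl S k m (τ + 1)) = false := by
          rw [decide_eq_false_iff_not]
          exact hfl1
        rw [St_succ, St_succ, hl, hlo, hr, e0, e1]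
        rcases hro : St S k (2 * m + 1) (τ + 1) with _ | r'
        · rw [hro] at hdr
          exact ⟨Tr.node false l r, rfl, Dth.rightN l r hdr⟩
        · rw [hro] at hdr
          exact ⟨Tr.node false l r, rfl, Dth.rightS l r r' hdr⟩

end Pool.Agent.Work.MP_e64a38_co.CZ
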