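import Pool.Agent.Work.MP_e64a38_co.CZ.EClm

/-!
# The number of exposures (size M)

Claim: `card X ≤ 3 * card ι`.

Let `H` be larger than all `lv x + 1` and `τ` larger than all `et x` and all `cl H (c H i)`, `i : ι`
(finite suprema). Every exposure belongs to a cell `(H, m)` with `m = c H i` for some `i` (`S.lft`), and
to only one (`in_excl`). So `card X = ∑ over m in the image of (c H) of #{x : InC H m x, et x < τ}
≤ ∑ ((w_m - 1) + 2 D_m) ≤ ∑ 3 w_m = 3 card ι` (`e_claim`, `D_m ≤ w_m`,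
`Finset.card_eq_sum_card_fiberwise`).
-/

set_option autoImplicit false

namespace Pool.Agent.Work.MP_e64a38_co.CZ

variable {ι X : Type} [Fintype ι] [Fintype X]

theorem esys_card (S : ESys ι X) : Fintype.card X ≤ 3 * Fintype.card ι := by
  classical
  obtain ⟨K, hK⟩ : ∃ K : ℕ, ∀ x, S.lv x + 1 ≤ K :=
    ⟨Finset.univ.sup fun x => S.lv x + 1, fun x => Finset.le_sup (f := fun x => S.lv x + 1)
      (Finset.mem_univ x)⟩
  obtain ⟨τ₁, hτ₁⟩ : ∃ τ₁ : ℕ, ∀ x, S.et x < τ₁ :=
    ⟨Finset.univ.sup (fun x => S.et x) + 1, fun x => Nat.lt_succ_of_le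
      (Finset.le_sup (f := fun x => S.et x) (Finset.mem_univ x))⟩
  obtain ⟨τ₂, hτ₂⟩ : ∃ τ₂ : ℕ, ∀ i, S.cl K (S.c K i) ≤ τ₂ :=
    ⟨Finset.univ.sup fun i => S.cl K (S.c K i), fun i =>
      Finset.le_sup (f := fun i => S.cl K (S.c K i)) (Finset.mem_univ i)⟩
  obtain ⟨τ, hτ⟩ : ∃ τ : ℕ, τ = max τ₁ τ₂ := ⟨_, rfl⟩
  have h1 : ∀ m ∈ Finset.univ.image (S.c K),
      (Finset.univ.filter (fun x => InC S K m x ∧ S.et x < τ)).card ≤
        3 * (Finset.univ.filter (fun i => S.c K i = m)).card := by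
    intro m hm
    obtain ⟨i, -, rfl⟩ := Finset.mem_image.1 hm
    obtain ⟨d, -, hd⟩ := e_claim S K (S.c K i) τ (by
      rw [hτ]; exact (hτ₂ i).trans (le_max_right _ _))
    have h2 : (Finset.univ.filter (fun j => S.c K j = S.c K i ∧ S.dt j < τ)).card ≤
        (Finset.univ.filter (fun j => S.c K j = S.c K i)).card :=
      Finset.card_le_card fun j hj =>
        Finset.mem_filter.2 ⟨Finset.mem_univ _, (Finset.mem_filter.1 hj).2.1⟩
    omega
  have h3 : (Finset.univ : Finset X) ⊆ (Finset.univ.image (S.c K)).biUnion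
      (fun m => Finset.univ.filter (fun x => InC S K m x ∧ S.et x < τ)) := by
    intro x _
    obtain ⟨i, hi, -⟩ := S.lft x
    refine Finset.mem_biUnion.2 ⟨S.c K i, Finset.mem_image_of_mem _ (Finset.mem_univ i),
      Finset.mem_filter.2 ⟨Finset.mem_univ _, ⟨hK x, i, (c_half S _ _ _).2 (Or.inl hi), rfl⟩, ?_⟩⟩
    rw [hτ]
    exact lt_of_lt_of_le (hτ₁ x) (le_max_left _ _)
  calc Fintype.card X = (Finset.univ : Finset X).card := Finset.card_univ.symm
    _ ≤ _ := Finset.card_le_card h3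
    _ ≤ ∑ m ∈ Finset.univ.image (S.c K),
        (Finset.univ.filter (fun x => InC S K m x ∧ S.et x < τ)).card := Finset.card_biUnion_le
    _ ≤ ∑ m ∈ Finset.univ.image (S.c K), 3 * (Finset.univ.filter (fun i => S.c K i = m)).card :=
        Finset.sum_le_sum h1
    _ = 3 * Fintype.card ι := by
        rw [← Finset.mul_sum, ← Finset.card_eq_sum_card_image, Finset.card_univ]

end Pool.Agent.Work.MP_e64a38_co.CZ
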