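import Mathlib

/-!
# Ranks (size S-M)

For `v : E → ℝ` on a finite type there is an injective `g : E → ℕ` with
`#{e' : v e' ≤ z} ≤ g e ↔ z < v e` for all `e`, `z`.
Proof: let `n = card E`, `σ : E ≃ Fin n`, and sort: `Tuple.sort (v ∘ σ.symm)` is a permutation `π` of
`Fin n` such that `v ∘ σ.symm ∘ π` is monotone; `g e = π.symm (σ e)`. The set `{e' : v e' ≤ z}` consists of
the `e'` with `g e' < N`, for some `N` (a down set, by monotonicity), so its card is `N`, and `z < v e` iff
`e` is not in it iff `N ≤ g e`.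
(Or by induction on the number of elements, removing an element with the largest value.)
-/

set_option autoImplicit false

namespace Pool.Agent.Work.MP_e64a38_co.CZ

open Classical in
private noncomputable def rkF {E : Type} [Fintype E] (v : E → ℝ) (e : E) : Finset E :=
  Finset.univ.filter (fun e' => v e' < v e ∨
    (v e' = v e ∧ Fintype.equivFin E e' < Fintype.equivFin E e))

private theorem mem_rkF {E : Type} [Fintype E] (v : E → ℝ) (e e' : E) :
    e' ∈ rkF v e ↔ (v e' < v e ∨
      (v e' = v e ∧ Fintype.equivFin E e' < Fintype.equivFin E e)) := by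
  unfold rkF
  rw [Finset.mem_filter]
  exact ⟨fun h => h.2, fun h => ⟨Finset.mem_univ _, h⟩⟩

private theorem rk_lt {E : Type} [Fintype E] (v : E → ℝ) {e e' : E} (h : e ∈ rkF v e') :
    (rkF v e).card < (rkF v e').card := by
  refine Finset.card_lt_card ⟨fun x hx => ?_, fun hs => ?_⟩
  · rw [mem_rkF] at hx h ⊢
    rcases hx with hx | hx
    · rcases h with h | h
      · exact Or.inl (hx.trans h)
      · exact Or.inl (h.1 ▸ hx)
    · rcases h with h | h
      · exact Or.inl (hx.1 ▸ h)
      · exact Or.inr ⟨hx.1.trans h.1, hx.2.trans h.2⟩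
  · have h1 := hs h
    rw [mem_rkF] at h1
    rcases h1 with h1 | h1
    · exact lt_irrefl _ h1
    · exact lt_irrefl _ h1.2

private theorem rk_total {E : Type} [Fintype E] (v : E → ℝ) {e e' : E} (h : e ≠ e') :
    e ∈ rkF v e' ∨ e' ∈ rkF v e := by
  rw [mem_rkF, mem_rkF]
  rcases lt_trichotomy (v e) (v e') with h1 | h1 | h1
  · exact Or.inl (Or.inl h1)
  · rcases lt_trichotomy (Fintype.equivFin E e) (Fintype.equivFin E e') with h2 | h2 | h2
    · exact Or.inl (Or.inr ⟨h1, h2⟩)
    · exact absurd ((Fintype.equivFin E).injective h2) h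
    · exact Or.inr (Or.inr ⟨h1.symm, h2⟩)
  · exact Or.inr (Or.inl h1)

open Classical in
theorem rank_ex {E : Type} [Fintype E] (v : E → ℝ) : ∃ g : E → ℕ, Function.Injective g ∧
    ∀ (e : E) (z : ℝ), (Finset.univ.filter (fun e' => v e' ≤ z)).card ≤ g e ↔ z < v e := by
  refine ⟨fun e => (rkF v e).card, fun e e' h => ?_, fun e z => ⟨fun h => ?_, fun h => ?_⟩⟩
  · by_contra hne
    have h' : (rkF v e).card = (rkF v e').card := h
    rcases rk_total v hne with h1 | h1
    · have := rk_lt v h1
      omega
    · have := rk_lt v h1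
      omega
  · by_contra hz
    rw [not_lt] at hz
    refine absurd h (not_le.2 (Finset.card_lt_card ⟨fun x hx => ?_, fun hs => ?_⟩))
    · rw [mem_rkF] at hx
      rw [Finset.mem_filter]
      refine ⟨Finset.mem_univ _, ?_⟩
      rcases hx with hx | hx
      · exact hx.le.trans hz
      · exact hx.1.le.trans hz
    · have h1 : e ∈ rkF v e := hs (Finset.mem_filter.2 ⟨Finset.mem_univ _, hz⟩)
      rw [mem_rkF] at h1
      rcases h1 with h1 | h1
      · exact lt_irrefl _ h1
      · exact lt_irrefl _ h1.2
  · refine Finset.card_le_card fun x hx => ?_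
    rw [Finset.mem_filter] at hx
    rw [mem_rkF]
    exact Or.inl (lt_of_le_of_lt hx.2 h)

end Pool.Agent.Work.MP_e64a38_co.CZ
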