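import Pool.Agent.Work.MP_e64a38_co.CZ.ECell

/-!
# When is the tree of a cell empty; nothing happens (size M)

* `st_none`: `St k m τ = none` iff no leaf `i` with `c k i = m` has `τ ≤ dt i`. Induction on `k`:
  `comb n = none` iff `n = 0`; `jn b o o' = none` iff `o = none` and `o' = none`; `c_half`.
* `st_same`: if no leaf of the cell `(k, m)` dies at time `τ` and no exposure of the cell `(k, m)` takes
  place at time `τ` then `St k m (τ + 1) = St k m τ`. Induction on `k`. Level 0: the two filters agree,
  since `τ ≤ dt i ↔ τ + 1 ≤ dt i` for the leaves of the cell. Level `k + 1`: the two halves do not change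
  (induction, `c_half`, `in_succ`), and `Fl k m (τ + 1) ↔ Fl k m τ`: a witness `x` of `Fl k m (τ + 1)` has
  `et x < τ + 1` and `et x ≠ τ` (since `x` is an exposure of the cell `(k + 1, m)`), the other condition
  is weaker; a witness of `Fl k m τ` is one of `Fl k m (τ + 1)` because no leaf of the left half dies at
  time `τ`. Note: only what happens IN the cell matters.
-/

set_option autoImplicit false

namespace Pool.Agent.Work.MP_e64a38_co.CZ

variable {ι X : Type} [Fintype ι]

omit [Fintype ι] in
private theorem comb_none (n : ℕ) : comb n = none ↔ n = 0 := by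
  cases n with
  | zero => exact ⟨fun _ => rfl, fun _ => rfl⟩
  | succ n =>
    constructor
    · intro h
      exfalso
      unfold comb at h
      cases hc : comb n with
      | none => rw [hc] at h; cases h
      | some t => rw [hc] at h; cases h
    · intro h
      omega

omit [Fintype ι] in
private theorem jn_none (b : Bool) (o o' : Option Tr) : jn b o o' = none ↔ o = none ∧ o' = none := by
  cases o with
  | none =>
    constructor
    · intro h
      exact ⟨rfl, h⟩
    · intro h
      exact h.2
  | some l =>
    cases o' with
    | none =>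
      constructor
      · intro h
        cases h
      · intro h
        cases h.1
    | some r =>
      constructor
      · intro h
        cases h
      · intro h
        cases h.1

theorem st_none (S : ESys ι X) (k : ℕ) (m : ℤ) (τ : ℕ) :
    St S k m τ = none ↔ ∀ i, S.c k i = m → ¬ τ ≤ S.dt i := by
  classical
  induction k generalizing m with
  | zero =>
    unfold St
    rw [comb_none, Finset.card_eq_zero, Finset.filter_eq_empty_iff]
    constructor
    · intro h i hi hτ
      exact h (Finset.mem_univ i) ⟨hi, hτ⟩
    · intro h i _ hi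
      exact h i hi.1 hi.2
  | succ k ih =>
    rw [St, jn_none, ih, ih]
    constructor
    · rintro ⟨h1, h2⟩ i hi
      rcases (c_half S k m i).mp hi with h | h
      · exact h1 i h
      · exact h2 i h
    · intro h
      exact ⟨fun i hi => h i ((c_half S k m i).mpr (Or.inl hi)),
        fun i hi => h i ((c_half S k m i).mpr (Or.inr hi))⟩

theorem st_same (S : ESys ι X) (k : ℕ) (m : ℤ) (τ : ℕ) (h : ∀ i, S.c k i = m → S.dt i ≠ τ)
    (h' : ∀ x, InC S k m x → S.et x ≠ τ) : St S k m (τ + 1) = St S k m τ := by
  classical
  induction k generalizing m with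
  | zero =>
    unfold St
    congr 2
    refine Finset.filter_congr fun i _ => ?_
    constructor
    · rintro ⟨h1, h2⟩
      exact ⟨h1, by omega⟩
    · rintro ⟨h1, h2⟩
      have := h i h1
      exact ⟨h1, by omega⟩
  | succ k ih =>
    have hfl : Fl S k m (τ + 1) ↔ Fl S k m τ := by
      constructor
      · rintro ⟨x, hx1, hx2, hx3, hx4⟩
        have hx5 : S.et x ≠ τ := h' x ((in_succ S k m x).mpr (Or.inl ⟨hx1, hx2⟩))
        refine ⟨x, hx1, hx2, by omega, fun i hi hc => hx4 i hi ⟨hc.1, by omega⟩⟩
      · rintro ⟨x, hx1, hx2, hx3, hx4⟩
        refine ⟨x, hx1, hx2, by omega, fun i hi hc => ?_⟩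
        have hx5 : S.dt i ≠ τ := h i ((c_half S k m i).mpr (Or.inl hi))
        exact hx4 i hi ⟨hc.1, by omega⟩
    have e1 : St S k (2 * m) (τ + 1) = St S k (2 * m) τ := by
      refine ih (2 * m) (fun i hi => h i ((c_half S k m i).mpr (Or.inl hi)))
        (fun x hx => h' x ((in_succ S k m x).mpr (Or.inr (Or.inl hx))))
    have e2 : St S k (2 * m + 1) (τ + 1) = St S k (2 * m + 1) τ := by
      refine ih (2 * m + 1) (fun i hi => h i ((c_half S k m i).mpr (Or.inr hi)))
        (fun x hx => h' x ((in_succ S k m x).mpr (Or.inr (Or.inr hx))))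
    rw [St, St, e1, e2]
    congr 1
    exact decide_eq_decide.mpr hfl

end Pool.Agent.Work.MP_e64a38_co.CZ
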