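import Pool.Agent.Work.MP_e64a38_co.CZ.FBas

/-!
# Cells are sign regions (size M)

`cel_eq`: let `l = {g l = 0}` for `l ∈ L`, `K` a cell and `p0 ∈ K`. Then
`K = {p ∈ inn : 0 < g l p * g l p0 for all l ∈ L}`.
Proof. `K = connectedComponentIn F p1`, `F = inn \ ⋃ l`; `p0 ∈ K`, so `K = connectedComponentIn F p0`
(`connectedComponentIn_eq`). The region on the right is convex (`inn_conv` and half planes) and contained
in `F`, contains `p0`, so it is preconnected and contained in `K`
(`IsPreconnected.subset_connectedComponentIn`). Conversely `K` is preconnected, contained in `F`, and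
`p ↦ g l p` is continuous and has no zero on it, so it does not change sign
(`IsPreconnected.intermediate_value`).
`cel_sub`: `K ⊆ inn`, `K` is not empty.
-/

set_option autoImplicit false

namespace Pool.Agent.Work.MP_e64a38_co.CZ

private theorem fc_aff (g : Af) (x y : ℝ × ℝ) (s t : ℝ) (hst : s + t = 1) :
    g.ev (s • x + t • y) = s * g.ev x + t * g.ev y := by
  simp only [Af.ev, Prod.fst_add, Prod.snd_add, Prod.smul_fst, Prod.smul_snd, smul_eq_mul]
  linear_combination (-g.c) * hst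

private theorem fc_cont (g : Af) : Continuous g.ev := by
  unfold Af.ev
  fun_prop

private theorem fc_mem {C : Con} {L : Finset (Set (ℝ × ℝ))} {p : ℝ × ℝ} :
    p ∈ C.inn \ ⋃ l ∈ L, l ↔ p ∈ C.inn ∧ ∀ l ∈ L, p ∉ l := by
  constructor
  · rintro ⟨h1, h2⟩
    refine ⟨h1, fun l hl hpl => h2 ?_⟩
    exact Set.mem_biUnion (s := (L : Set (Set (ℝ × ℝ)))) (t := fun l => l) hl hpl
  · rintro ⟨h1, h2⟩
    refine ⟨h1, fun h3 => ?_⟩
    obtain ⟨l, hl, hpl⟩ := Set.mem_iUnion₂.1 h3
    exact h2 l hl hpl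

theorem cel_eq (C : Con) (L : Finset (Set (ℝ × ℝ))) (g : Set (ℝ × ℝ) → Af)
    (hg : ∀ l ∈ L, l = {p | (g l).ev p = 0}) (K : Set (ℝ × ℝ)) (hK : IsCel C L K)
    (p0 : ℝ × ℝ) (hp : p0 ∈ K) :
    K = {p | p ∈ C.inn ∧ ∀ l ∈ L, 0 < (g l).ev p * (g l).ev p0} := by
  obtain ⟨p1, hp1, rfl⟩ := hK
  set Fr := C.inn \ ⋃ l ∈ L, l with hFr
  have hKe : connectedComponentIn Fr p1 = connectedComponentIn Fr p0 := connectedComponentIn_eq hp
  have hKs : connectedComponentIn Fr p1 ⊆ Fr := connectedComponentIn_subset Fr p1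
  have hpre : IsPreconnected (connectedComponentIn Fr p1) := isPreconnected_connectedComponentIn
  have hz : ∀ p ∈ Fr, ∀ l ∈ L, (g l).ev p ≠ 0 := by
    intro p hpF l hl h0
    refine (fc_mem.1 hpF).2 l hl ?_
    rw [hg l hl]
    exact h0
  have hp0F : p0 ∈ Fr := hKs hp
  apply Set.Subset.antisymm
  · intro p hpK
    have hpF := hKs hpK
    refine ⟨(fc_mem.1 hpF).1, fun l hl => ?_⟩
    by_contra hcon
    push Not at hcon
    have hc : ContinuousOn (g l).ev (connectedComponentIn Fr p1) := (fc_cont _).continuousOn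
    have h0 : (0 : ℝ) ∈ (g l).ev '' connectedComponentIn Fr p1 := by
      rcases le_total 0 ((g l).ev p) with h1 | h1
      · have h2 : (g l).ev p0 ≤ 0 := by
          by_contra h3
          push Not at h3
          have h4 : 0 < (g l).ev p := lt_of_le_of_ne h1 (hz p hpF l hl).symm
          linarith [mul_pos h4 h3]
        exact hpre.intermediate_value hp hpK hc ⟨h2, h1⟩
      · have h2 : 0 ≤ (g l).ev p0 := by
          by_contra h3
          push Not at h3
          have h4 : (g l).ev p < 0 := lt_of_le_of_ne h1 (hz p hpF l hl)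
          linarith [mul_pos_of_neg_of_neg h4 h3]
        exact hpre.intermediate_value hpK hp hc ⟨h1, h2⟩
    obtain ⟨q, hq, hq0⟩ := h0
    exact hz q (hKs hq) l hl hq0
  · have hR : IsPreconnected {p | p ∈ C.inn ∧ ∀ l ∈ L, 0 < (g l).ev p * (g l).ev p0} := by
      apply Convex.isPreconnected
      intro x hx y hy s t hs ht hst
      refine ⟨inn_conv C hx.1 hy.1 hs ht hst, fun l hl => ?_⟩
      rw [fc_aff _ _ _ _ _ hst]
      have h1 := hx.2 l hl
      have h2 := hy.2 l hl
      have h3 : (s * (g l).ev x + t * (g l).ev y) * (g l).ev p0 =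
          s * ((g l).ev x * (g l).ev p0) + t * ((g l).ev y * (g l).ev p0) := by ring
      rw [h3]
      rcases hs.eq_or_lt with h4 | h4
      · have h5 : t = 1 := by linarith
        rw [← h4, h5]
        linarith
      · have h5 := mul_pos h4 h1
        have h6 := mul_nonneg ht h2.le
        linarith
    rw [hKe]
    refine hR.subset_connectedComponentIn ?_ ?_
    · refine ⟨(fc_mem.1 hp0F).1, fun l hl => ?_⟩
      exact mul_self_pos.2 (hz p0 hp0F l hl)
    · intro p hpR
      refine fc_mem.2 ⟨hpR.1, fun l hl hpl => ?_⟩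
      have h1 := hpR.2 l hl
      rw [hg l hl] at hpl
      have h2 : (g l).ev p = 0 := hpl
      rw [h2, zero_mul] at h1
      exact lt_irrefl _ h1

theorem cel_sub (C : Con) (L : Finset (Set (ℝ × ℝ))) (K : Set (ℝ × ℝ)) (hK : IsCel C L K) :
    K ⊆ C.inn ∧ K.Nonempty ∧ ∀ l ∈ L, Disjoint K l := by
  obtain ⟨p1, hp1, rfl⟩ := hK
  have hKs := connectedComponentIn_subset (C.inn \ ⋃ l ∈ L, l) p1
  refine ⟨fun p hp => (fc_mem.1 (hKs hp)).1, ⟨p1, mem_connectedComponentIn hp1⟩, ?_⟩
  intro l hl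
  rw [Set.disjoint_left]
  intro p hp
  exact (fc_mem.1 (hKs hp)).2 l hl

end Pool.Agent.Work.MP_e64a38_co.CZ
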