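import Mathlib

/-!
# Conics, lines, cells (fixed file)

`Af` : affine forms on the plane.  `Con` : three linearly independent affine forms `f1, f2, f3`.
`inn` : the open convex region `f1² + f2² < f3²`, `0 < f3`; `crv` : its boundary curve
`f1² + f2² = f3²`, `0 < f3`. These are exactly the insides of ellipses, of parabolas and of the branches of
hyperbolas; the unit disc is given by `f1 = x`, `f2 = y`, `f3 = 1`.
`IsCel C L K` : `K` is a connected component of the region without the lines of `L`.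
`Zn C L K` : moreover `K` has an arc of the curve on its boundary (the closure of `K` contains infinitely
many points of the curve).
`Egs C L` : the pairs `(K, l)`, `K` such a cell, `l ∈ L` a line that carries an edge of `K` (the closure of
`K` contains more than one point of `l`).
-/

set_option autoImplicit false

namespace Pool.Agent.Work.MP_e64a38_co.CZ

/-- affine forms -/
structure Af where
  a : ℝ
  b : ℝ
  c : ℝ

/-- value of an affine form -/
def Af.ev (g : Af) (p : ℝ × ℝ) : ℝ := g.a * p.1 + g.b * p.2 + g.c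

/-- conics -/
structure Con where
  f1 : Af
  f2 : Af
  f3 : Af
  det : f1.a * (f2.b * f3.c - f2.c * f3.b) - f1.b * (f2.a * f3.c - f2.c * f3.a)
    + f1.c * (f2.a * f3.b - f2.b * f3.a) ≠ 0

/-- the region -/
def Con.inn (C : Con) : Set (ℝ × ℝ) :=
  {p | 0 < C.f3.ev p ∧ (C.f1.ev p) ^ 2 + (C.f2.ev p) ^ 2 < (C.f3.ev p) ^ 2}

/-- the curve -/
def Con.crv (C : Con) : Set (ℝ × ℝ) :=
  {p | 0 < C.f3.ev p ∧ (C.f1.ev p) ^ 2 + (C.f2.ev p) ^ 2 = (C.f3.ev p) ^ 2}

/-- lines -/
def IsLn (l : Set (ℝ × ℝ)) : Prop := ∃ g : Af, (g.a ≠ 0 ∨ g.b ≠ 0) ∧ l = {p | g.ev p = 0}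

/-- cells -/
def IsCel (C : Con) (L : Finset (Set (ℝ × ℝ))) (K : Set (ℝ × ℝ)) : Prop :=
  ∃ p ∈ C.inn \ ⋃ l ∈ L, l, K = connectedComponentIn (C.inn \ ⋃ l ∈ L, l) p

/-- cells of the curve -/
def Zn (C : Con) (L : Finset (Set (ℝ × ℝ))) (K : Set (ℝ × ℝ)) : Prop :=
  IsCel C L K ∧ (closure K ∩ C.crv).Infinite

/-- edges of the cells of the curve -/
def Egs (C : Con) (L : Finset (Set (ℝ × ℝ))) : Set (Set (ℝ × ℝ) × Set (ℝ × ℝ)) :=
  {t | Zn C L t.1 ∧ t.2 ∈ L ∧ (closure t.1 ∩ t.2).Nontrivial}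

/-- rotated homogeneous coordinates -/
def cX (C : Con) (u v : ℝ) (p : ℝ × ℝ) : ℝ := v * C.f1.ev p - u * C.f2.ev p
/-- rotated homogeneous coordinates -/
def cY (C : Con) (u v : ℝ) (p : ℝ × ℝ) : ℝ := u * C.f1.ev p + v * C.f2.ev p
/-- the denominator -/
def cD (C : Con) (u v : ℝ) (p : ℝ × ℝ) : ℝ := C.f3.ev p - cY C u v p
/-- first parabola coordinate -/
noncomputable def xx (C : Con) (u v : ℝ) (p : ℝ × ℝ) : ℝ := cX C u v p / cD C u v p
/-- second parabola coordinate -/
noncomputable def zz (C : Con) (u v : ℝ) (p : ℝ × ℝ) : ℝ := (C.f3.ev p + cY C u v p) / cD C u v p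

end Pool.Agent.Work.MP_e64a38_co.CZ
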