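import Pool.Agent.Work.MP_e64a38_co.CZ.FBas

/-!
# A direction that avoids all lines (size M)

There are `u, v` with `u² + v² = 1` such that `c1 u + c2 v + c3 ≠ 0` for all `l ∈ L` and all `c1, c2, c3` with
`g l = c1 f1 + c2 f2 + c3 f3`. Proof: for each `l ∈ L` the triple is unique (`f1, f2, f3` are linearly
independent as functions: the determinant) and not `(0, 0, 0)` (`g l` is not the zero function), so the
equation `c1 u + c2 v + c3 = 0` has at most two, so finitely many, solutions on the unit circle (if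
`c1 = c2 = 0` none). The unit circle is infinite, a finite union of finite sets is finite.
-/

set_option autoImplicit false

namespace Pool.Agent.Work.MP_e64a38_co.CZ

private theorem fo_uniq (C : Con) (d1 d2 d3 : ℝ)
    (h : ∀ p, d1 * C.f1.ev p + d2 * C.f2.ev p + d3 * C.f3.ev p = 0) :
    d1 = 0 ∧ d2 = 0 ∧ d3 = 0 := by
  have h0 := h (0, 0)
  have h1 := h (1, 0)
  have h2 := h (0, 1)
  simp only [Af.ev] at h0 h1 h2
  have hd := C.det
  refine ⟨?_, ?_, ?_⟩
  · have e : d1 * (C.f1.a * (C.f2.b * C.f3.c - C.f2.c * C.f3.b) -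
        C.f1.b * (C.f2.a * C.f3.c - C.f2.c * C.f3.a)
        + C.f1.c * (C.f2.a * C.f3.b - C.f2.b * C.f3.a)) = 0 := by
      linear_combination (C.f2.b * C.f3.c - C.f2.c * C.f3.b) * (h1 - h0) -
        (C.f2.a * C.f3.c - C.f2.c * C.f3.a) * (h2 - h0) +
        (C.f2.a * C.f3.b - C.f2.b * C.f3.a) * h0
    exact (mul_eq_zero.1 e).resolve_right hd
  · have e : d2 * (C.f1.a * (C.f2.b * C.f3.c - C.f2.c * C.f3.b) -
        C.f1.b * (C.f2.a * C.f3.c - C.f2.c * C.f3.a)
        + C.f1.c * (C.f2.a * C.f3.b - C.f2.b * C.f3.a)) = 0 := by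
      linear_combination (-(C.f1.b * C.f3.c - C.f1.c * C.f3.b)) * (h1 - h0) +
        (C.f1.a * C.f3.c - C.f1.c * C.f3.a) * (h2 - h0) -
        (C.f1.a * C.f3.b - C.f1.b * C.f3.a) * h0
    exact (mul_eq_zero.1 e).resolve_right hd
  · have e : d3 * (C.f1.a * (C.f2.b * C.f3.c - C.f2.c * C.f3.b) -
        C.f1.b * (C.f2.a * C.f3.c - C.f2.c * C.f3.a)
        + C.f1.c * (C.f2.a * C.f3.b - C.f2.b * C.f3.a)) = 0 := by
      linear_combination (C.f1.b * C.f2.c - C.f1.c * C.f2.b) * (h1 - h0) -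
        (C.f1.a * C.f2.c - C.f1.c * C.f2.a) * (h2 - h0) +
        (C.f1.a * C.f2.b - C.f1.b * C.f2.a) * h0
    exact (mul_eq_zero.1 e).resolve_right hd

/-- a nonzero quadratic polynomial has finitely many zeros. -/
private theorem fo_fin (A B D : ℝ) (h : ¬ (A = 0 ∧ B = 0 ∧ D = 0)) :
    {s : ℝ | A * s ^ 2 + B * s + D = 0}.Finite := by
  classical
  set P : Polynomial ℝ := Polynomial.C A * Polynomial.X ^ 2 + Polynomial.C B * Polynomial.X +
    Polynomial.C D with hP
  have hP0 : P ≠ 0 := by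
    intro h0
    apply h
    have c2 : P.coeff 2 = A := by
      rw [hP]
      simp [Polynomial.coeff_X, Polynomial.coeff_C]
    have c1 : P.coeff 1 = B := by
      rw [hP]
      simp [Polynomial.coeff_X, Polynomial.coeff_C]
    have c0 : P.coeff 0 = D := by
      rw [hP]
      simp
    rw [h0, Polynomial.coeff_zero] at c2 c1 c0
    exact ⟨c2.symm, c1.symm, c0.symm⟩
  refine (Polynomial.finite_setOf_isRoot hP0).subset ?_
  intro s hs
  have hs' : A * s ^ 2 + B * s + D = 0 := hs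
  change P.IsRoot s
  rw [Polynomial.IsRoot.def, hP]
  simp only [Polynomial.eval_add, Polynomial.eval_mul, Polynomial.eval_C, Polynomial.eval_pow,
    Polynomial.eval_X]
  exact hs'

theorem om_ex (C : Con) (L : Finset (Set (ℝ × ℝ))) (g : Set (ℝ × ℝ) → Af)
    (hg : ∀ l ∈ L, (g l).a ≠ 0 ∨ (g l).b ≠ 0) : ∃ u v : ℝ, u ^ 2 + v ^ 2 = 1 ∧
    ∀ l ∈ L, ∀ c1 c2 c3 : ℝ, (∀ p, (g l).ev p = c1 * C.f1.ev p + c2 * C.f2.ev p + c3 * C.f3.ev p) →
      c1 * u + c2 * v + c3 ≠ 0 := by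
  classical
  have hc : ∀ l, ∃ c : ℝ × ℝ × ℝ, ∀ p, (g l).ev p = c.1 * C.f1.ev p + c.2.1 * C.f2.ev p +
      c.2.2 * C.f3.ev p := by
    intro l
    obtain ⟨c1, c2, c3, h⟩ := con_cof C (g l)
    exact ⟨(c1, c2, c3), h⟩
  choose c hc using hc
  have hfin : (⋃ l ∈ L, {s : ℝ | ((c l).2.2 - (c l).1) * s ^ 2 + (2 * (c l).2.1) * s +
      ((c l).1 + (c l).2.2) = 0}).Finite := by
    refine Set.Finite.biUnion L.finite_toSet (fun l hl => ?_)
    apply fo_fin
    rintro ⟨h1, h2, h3⟩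
    have k1 : (c l).1 = 0 := by linarith
    have k2 : (c l).2.1 = 0 := by linarith
    have k3 : (c l).2.2 = 0 := by linarith
    have hz : ∀ p, (g l).ev p = 0 := by
      intro p
      rw [hc l p, k1, k2, k3]
      ring
    have z0 := hz (0, 0)
    have z1 := hz (1, 0)
    have z2 := hz (0, 1)
    simp only [Af.ev] at z0 z1 z2
    rcases hg l hl with h4 | h4
    · apply h4
      linarith
    · apply h4
      linarith
  obtain ⟨s, hs⟩ := hfin.infinite_compl.nonempty
  have hs0 : (1 + s ^ 2) ≠ 0 := by positivity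
  refine ⟨(1 - s ^ 2) / (1 + s ^ 2), 2 * s / (1 + s ^ 2), ?_, ?_⟩
  · field_simp
    ring
  · intro l hl c1 c2 c3 hcc h0
    obtain ⟨k1, k2, k3⟩ := fo_uniq C (c1 - (c l).1) (c2 - (c l).2.1) (c3 - (c l).2.2) (by
      intro p
      have e1 := hcc p
      have e2 := hc l p
      linear_combination e2 - e1)
    apply hs
    refine Set.mem_biUnion (s := (L : Set (Set (ℝ × ℝ)))) hl ?_
    have k1' : (c l).1 = c1 := by linarith
    have k2' : (c l).2.1 = c2 := by linarith
    have k3' : (c l).2.2 = c3 := by linarith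
    change ((c l).2.2 - (c l).1) * s ^ 2 + (2 * (c l).2.1) * s + ((c l).1 + (c l).2.2) = 0
    rw [k1', k2', k3']
    have h1 : (c1 * ((1 - s ^ 2) / (1 + s ^ 2)) + c2 * (2 * s / (1 + s ^ 2)) + c3) * (1 + s ^ 2) =
        (c3 - c1) * s ^ 2 + 2 * c2 * s + (c1 + c3) := by
      field_simp
      ring
    rw [← h1, h0, zero_mul]

end Pool.Agent.Work.MP_e64a38_co.CZ
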