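import Pool.Agent.Work.MP_e64a38_co.CZ.GDefs

/-!
# Elementary facts on visible crossings (size M)

`v` is the line: `v c x = p c * x + q c`, `v c x > φ x` iff `a c < x < b c`.
* `in_of_hi`: `φ x ≤ ... `: if `φ x < v c x` then `a c < x < b c` (`below`, and `ea`, `eb` at the ends).
* `vis_ord`: `a s < a q < f < b s < b q`, `a q < y < b s`.
  `f` is in both open intervals (`hi`, `eq`, `in_of_hi`). Since `p s < p q` and the lines meet at `f`:
  `v q x < v s x` for `x < f` and `v s x < v q x` for `x > f`. At `x = a q < f`: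
  `φ (a q) = v q (a q) < v s (a q)`, so `a s < a q`. At `x = b s > f`: `φ (b s) = v s (b s) < v q (b s)`,
  so `b s < b q`. The rest from `aq`, `as`.
* `vis_al`: if `c` is alive at `y` then `a c < f < b c` (`up`, `hi`, `in_of_hi`).
* `nest_lt`: if `a s ≤ a c`, `b c ≤ b s`, `a s < a c ∨ b c < b s` and `a c < x < b c`, then
  `v c x < v s x`. (At both ends of `c` the line of `s` is at least as high as the curve, at one of them
  strictly higher; the difference `v s - v c` is an affine function of `x`, `≥ 0` at `a c` and `b c` and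
  `> 0` at one of them, so `> 0` in between.)
* `fact_c`: if `c` is alive at `y` and `a s < a c` then `b s < b c`. Otherwise `c` is inside `s`,
  `a c < f < b c` by `vis_al`, so `v c f < v s f = v q f` by `nest_lt`, contradicting `up`.
* `vis_mir`: the mirror image of a visible crossing (`q`, `s` change places).
-/

set_option autoImplicit false

namespace Pool.Agent.Work.MP_e64a38_co.CZ

variable {ι : Type}

theorem in_of_hi (S : Sy ι) (c : ι) (x : ℝ) (h : S.φ x < S.v c x) : S.a c < x ∧ x < S.b c := by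
  have h1 : S.φ x < S.p c * x + S.q c := h
  constructor
  · by_contra hcon
    rw [not_lt] at hcon
    rcases hcon.lt_or_eq with h2 | h2
    · have := S.below c x (Or.inl h2)
      linarith
    · have := S.ea c
      rw [← h2] at this
      linarith
  · by_contra hcon
    rw [not_lt] at hcon
    rcases hcon.lt_or_eq with h2 | h2
    · have := S.below c x (Or.inr h2)
      linarith
    · have := S.eb c
      rw [h2] at this
      linarith

private theorem v_diff (S : Sy ι) {q s : ι} {f : ℝ} (h : S.v q f = S.v s f) (x : ℝ) :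
    S.v s x - S.v q x = (S.p s - S.p q) * (x - f) := by
  have h1 : S.p q * f + S.q q = S.p s * f + S.q s := h
  show S.p s * x + S.q s - (S.p q * x + S.q q) = (S.p s - S.p q) * (x - f)
  linear_combination -h1

theorem vis_ord (S : Sy ι) {q s : ι} {f y : ℝ} (h : Vis S q s f y) :
    S.a s < S.a q ∧ S.a q < f ∧ f < S.b s ∧ S.b s < S.b q ∧ S.a q < y ∧ y < S.b s := by
  have hq := in_of_hi S q f h.hi
  have hs := in_of_hi S s f (by rw [← h.eq]; exact h.hi)
  have hsl := h.sl
  refine ⟨?_, hq.1, hs.2, ?_, h.aq.1, h.as.2⟩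
  · have h1 := v_diff S h.eq (S.a q)
    have h2 : S.v q (S.a q) = S.φ (S.a q) := S.ea q
    have h3 : 0 < (S.p s - S.p q) * (S.a q - f) :=
      mul_pos_of_neg_of_neg (by linarith) (by linarith [hq.1])
    exact (in_of_hi S s (S.a q) (by linarith)).1
  · have h1 := v_diff S h.eq (S.b s)
    have h2 : S.v s (S.b s) = S.φ (S.b s) := S.eb s
    have h3 : (S.p s - S.p q) * (S.b s - f) < 0 :=
      mul_neg_of_neg_of_pos (by linarith) (by linarith [hs.2])
    exact (in_of_hi S q (S.b s) (by linarith)).2

theorem vis_al (S : Sy ι) {q s : ι} {f y : ℝ} (h : Vis S q s f y) (c : ι) (hc : Al S y c) :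
    S.a c < f ∧ f < S.b c :=
  in_of_hi S c f (lt_of_lt_of_le h.hi (h.up c hc))

theorem nest_lt (S : Sy ι) (s c : ι) (x : ℝ) (h1 : S.a s ≤ S.a c) (h2 : S.b c ≤ S.b s)
    (h3 : S.a s < S.a c ∨ S.b c < S.b s) (h4 : S.a c < x) (h5 : x < S.b c) : S.v c x < S.v s x := by
  have hc1 : S.v c (S.a c) = S.φ (S.a c) := S.ea c
  have hc2 : S.v c (S.b c) = S.φ (S.b c) := S.eb c
  have hlt := S.lt c
  have ha : S.a s < S.a c → S.φ (S.a c) < S.v s (S.a c) := fun h =>
    S.above s (S.a c) h (by linarith)
  have hb : S.b c < S.b s → S.φ (S.b c) < S.v s (S.b c) := fun h =>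
    S.above s (S.b c) (by linarith) h
  have ha' : S.φ (S.a c) ≤ S.v s (S.a c) := by
    rcases h1.lt_or_eq with h | h
    · exact (ha h).le
    · rw [← h]
      exact (S.ea s).ge
  have hb' : S.φ (S.b c) ≤ S.v s (S.b c) := by
    rcases h2.lt_or_eq with h | h
    · exact (hb h).le
    · rw [h]
      exact (S.eb s).ge
  have e1 : (S.b c - S.a c) * (S.v s x - S.v c x) =
      (S.b c - x) * (S.v s (S.a c) - S.v c (S.a c)) +
        (x - S.a c) * (S.v s (S.b c) - S.v c (S.b c)) := by
    unfold Sy.v
    ring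
  have p1 : 0 < S.b c - x := by linarith
  have p2 : 0 < x - S.a c := by linarith
  have hpos : 0 < (S.b c - S.a c) * (S.v s x - S.v c x) := by
    rw [e1]
    rcases h3 with h | h
    · have k1 : 0 < S.v s (S.a c) - S.v c (S.a c) := by
        have := ha h
        linarith
      have k2 : 0 ≤ S.v s (S.b c) - S.v c (S.b c) := by linarith
      have := mul_pos p1 k1
      have := mul_nonneg p2.le k2
      linarith
    · have k1 : 0 ≤ S.v s (S.a c) - S.v c (S.a c) := by linarith
      have k2 : 0 < S.v s (S.b c) - S.v c (S.b c) := by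
        have := hb h
        linarith
      have := mul_nonneg p1.le k1
      have := mul_pos p2 k2
      linarith
  have := (mul_pos_iff_of_pos_left (by linarith : 0 < S.b c - S.a c)).1 hpos
  linarith

theorem fact_c (S : Sy ι) {q s : ι} {f y : ℝ} (h : Vis S q s f y) (c : ι) (hc : Al S y c)
    (hac : S.a s < S.a c) : S.b s < S.b c := by
  by_contra hcon
  rw [not_lt] at hcon
  have h1 := vis_al S h c hc
  have h2 := nest_lt S s c f hac.le hcon (Or.inl hac) h1.1 h1.2
  have h3 := h.up c hc
  have h4 := h.eq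
  linarith

private theorem mir_v (S : Sy ι) (c : ι) (x : ℝ) : S.mir.v c (-x) = S.v c x := by
  show -S.p c * -x + S.q c = S.p c * x + S.q c
  ring

private theorem mir_al (S : Sy ι) (y : ℝ) (c : ι) : Al S.mir (-y) c ↔ Al S y c := by
  constructor
  · rintro ⟨h1, h2⟩
    have h1' : -S.b c < -y := h1
    have h2' : -y < -S.a c := h2
    exact ⟨by linarith, by linarith⟩
  · rintro ⟨h1, h2⟩
    exact ⟨neg_lt_neg h2, neg_lt_neg h1⟩

theorem vis_mir (S : Sy ι) {q s : ι} {f y : ℝ} (h : Vis S q s f y) : Vis S.mir s q (-f) (-y) where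
  off i := ⟨fun e => (h.off i).2 (neg_injective e), fun e => (h.off i).1 (neg_injective e)⟩
  aq := (mir_al S y s).2 h.as
  as := (mir_al S y q).2 h.aq
  sl := neg_lt_neg h.sl
  eq := by
    rw [mir_v, mir_v]
    exact h.eq.symm
  hi := by
    rw [mir_v, ← h.eq]
    show S.φ (- -f) < S.v q f
    rw [neg_neg]
    exact h.hi
  up c hc := by
    rw [mir_v, mir_v, ← h.eq]
    exact h.up c ((mir_al S y c).1 hc)
  ex c hc he := by
    rw [mir_v, mir_v, ← h.eq] at he
    have := h.ex c ((mir_al S y c).1 hc) he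
    exact ⟨neg_le_neg this.2, neg_le_neg this.1⟩
  dn c hc := by
    rw [mir_v, mir_v, ← h.eq]
    exact h.dn c fun hc' => hc ((mir_al S y c).2 hc')

end Pool.Agent.Work.MP_e64a38_co.CZ
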