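import Mathlib

/-!
# Three shifted dyadic grids (size M-L)

Let `h > 0`, `M` a natural number, `θ j = j h 2^M / 3` for `j = 0, 1, 2`. For `u < w ≤ f` with
`7 (f - w) ≤ f - u`, `3 h ≤ f - u` and `6 (f - u) ≤ h 2^M` there are `j`, `k`, `m` such that in the grid
`j` the point `u` is in the cell `(k, 2m)`, `w` and `f` are in the cell `(k, 2m+1)`, and
`h 2^(k+1) < 6 (f - u)`. (The cell `(k, n)` is `[θ + h 2^k n, θ + h 2^k (n+1))`.)

Proof. Write `ℓ = f - u > 0`. A point of level `k` of the grid `j` is a real `θ j + h 2^k n`; a point of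
level `l ≥ k` is also one of level `k`.
(1) Points of two different grids, both of level `k ≤ M`, are at distance `≥ h 2^k / 3`: the difference is
`h 2^k ((j - j') 2^(M-k) / 3 + n)`, and `(j - j') 2^(M-k)` is not divisible by 3 (`j ≠ j'`, `2^x` is not
divisible by 3), so `3 n + (j - j') 2^(M-k)` is a nonzero integer.
(2) Let `K` be the least natural number with `3 ℓ ≤ h 2^K`. Then `K ≥ 2` as `9 h ≤ 3 ℓ`, so
`h 2^K < 6 ℓ`, and `K ≤ M`. By (1) with `k = K` (distance `≥ ℓ`) the half open interval `(u, f]`, of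
length `ℓ`, contains points of level `K` of at most one grid (two points in `(u, f]` are at distance
`< ℓ`). So for at least two grids `j` the points `u` and `f` are in the same cell of level `K`.
(3) For such a `j` let `k + 1 ≤ K` be the smallest level at which `u` and `f` are in the same cell (at level
0 they are not since `ℓ ≥ 3 h`): at level `k` they are in different cells, whose parents agree, so `u` is
in `(k, 2m)` and `f` is in `(k, 2m+1)`. Moreover `ℓ < h 2^(k+1) ≤ h 2^K < 6 ℓ`.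
(4) Suppose that for both grids `j ≠ j'` of (2) `w` is not in the cell `(k, 2m+1)`, resp.
`(k', 2m'+1)`. Since `u < w ≤ f` the point `w` is then in the cell `(k, 2m)`, so the point
`θ j + h 2^k (2m+1)` is in `(w, f]`, similarly for `j'`. Both are points of level `min k k'`, so by (1)
their distance is `≥ h 2^(min k k') / 3 > ℓ / 6` (as `h 2^(k+1) > ℓ`, `h 2^(k'+1) > ℓ`); but they are both
in `(w, f]`, of length `≤ ℓ / 7`. Contradiction.
-/

set_option autoImplicit false

namespace Pool.Agent.Work.MP_e64a38_co.CZ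

private noncomputable def th (h : ℝ) (M j : ℕ) : ℝ := (j : ℝ) * h * 2 ^ M / 3

private noncomputable def cel (h : ℝ) (M j k : ℕ) (x : ℝ) : ℤ := ⌊(x - th h M j) / (h * 2 ^ k)⌋

private theorem cel_succ (h : ℝ) (M j k : ℕ) (x : ℝ) :
    cel h M j (k + 1) x = cel h M j k x / 2 := by
  unfold cel
  have h1 : (x - th h M j) / (h * 2 ^ (k + 1)) = (x - th h M j) / (h * 2 ^ k) / 2 := by
    rw [div_div, pow_succ]
    ring
  rw [h1]
  generalize (x - th h M j) / (h * 2 ^ k) = y
  have h2 := Int.floor_le y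
  have h3 := Int.lt_floor_add_one y
  have h4 := Int.ediv_mul_le ⌊y⌋ (show (2 : ℤ) ≠ 0 by norm_num)
  have h5 := Int.lt_ediv_add_one_mul_self ⌊y⌋ (show (0 : ℤ) < 2 by norm_num)
  rw [Int.floor_eq_iff]
  generalize ⌊y⌋ / 2 = m at *
  constructor
  · have : ((m * 2 : ℤ) : ℝ) ≤ ⌊y⌋ := by exact_mod_cast h4
    push_cast at this
    linarith
  · have h6 : ⌊y⌋ + 1 ≤ (m + 1) * 2 := by omega
    have : ((⌊y⌋ + 1 : ℤ) : ℝ) ≤ ((m + 1) * 2 : ℤ) := by exact_mod_cast h6
    push_cast at this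
    linarith

private theorem cel_mono {h : ℝ} (hh : 0 < h) (M j k : ℕ) {x y : ℝ} (hxy : x ≤ y) :
    cel h M j k x ≤ cel h M j k y := by
  unfold cel
  apply Int.floor_le_floor
  apply div_le_div_of_nonneg_right _ (by positivity)
  linarith

/-- distance of points of two different grids -/
private theorem sep {h : ℝ} (hh : 0 < h) {M k : ℕ} (hk : k ≤ M) {j j' : ℕ} (hj : j < 3) (hj' : j' < 3)
    (hne : j ≠ j') (n n' : ℤ) :
    h * 2 ^ k / 3 ≤ |(th h M j + h * 2 ^ k * n) - (th h M j' + h * 2 ^ k * n')| := by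
  have hN : ((j : ℤ) - j') * 2 ^ (M - k) + 3 * (n - n') ≠ 0 := by
    intro h0
    have h1 : (3 : ℤ) ∣ ((j : ℤ) - j') * 2 ^ (M - k) := ⟨-(n - n'), by linarith⟩
    have hp : Prime (3 : ℤ) := Int.prime_three
    rcases hp.dvd_or_dvd h1 with h2 | h2
    · omega
    · have h3 := hp.dvd_of_dvd_pow h2
      omega
  have h1 : (th h M j + h * 2 ^ k * n) - (th h M j' + h * 2 ^ k * n') =
      h * 2 ^ k / 3 * (((((j : ℤ) - j') * 2 ^ (M - k) + 3 * (n - n') : ℤ)) : ℝ) := by
    have h2 : (2 : ℝ) ^ M = 2 ^ k * 2 ^ (M - k) := by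
      rw [← pow_add]
      congr 1
      omega
    unfold th
    rw [h2]
    push_cast
    ring
  rw [h1, abs_mul, abs_of_pos (by positivity : 0 < h * 2 ^ k / 3)]
  have h2 : (1 : ℝ) ≤ |(((((j : ℤ) - j') * 2 ^ (M - k) + 3 * (n - n') : ℤ)) : ℝ)| := by
    rw [← Int.cast_abs]
    exact_mod_cast Int.one_le_abs hN
  have h3 : 0 < h * 2 ^ k / 3 := by positivity
  nlinarith

/-- a point of the grid between two points in different cells -/
private theorem between {h : ℝ} (hh : 0 < h) (M j k : ℕ) {x y : ℝ} {n : ℤ} (hx : cel h M j k x < n)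
    (hy : n ≤ cel h M j k y) : x < th h M j + h * 2 ^ k * n ∧ th h M j + h * 2 ^ k * n ≤ y := by
  have hp : 0 < h * 2 ^ k := by positivity
  constructor
  · unfold cel at hx
    rw [Int.floor_lt, div_lt_iff₀ hp] at hx
    linarith
  · unfold cel at hy
    rw [Int.le_floor, le_div_iff₀ hp] at hy
    linarith

private theorem same_lt {h : ℝ} (hh : 0 < h) (M j k : ℕ) {x y : ℝ}
    (hxy : cel h M j k x = cel h M j k y) : y - x < h * 2 ^ k := by
  have hp : 0 < h * 2 ^ k := by positivity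
  unfold cel at hxy
  have h1 := Int.floor_le ((x - th h M j) / (h * 2 ^ k))
  have h2 := Int.lt_floor_add_one ((y - th h M j) / (h * 2 ^ k))
  rw [hxy] at h1
  have h3 : (y - th h M j) / (h * 2 ^ k) < (x - th h M j) / (h * 2 ^ k) + 1 := by linarith
  rw [div_lt_iff₀ hp, add_mul, div_mul_cancel₀ _ hp.ne'] at h3
  linarith

/-- the splitting level of a grid in which `u` and `f` have the same cell of level `K` -/
private theorem level {h : ℝ} (hh : 0 < h) (M j K : ℕ) {u f : ℝ} (h3 : 3 * h ≤ f - u)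
    (hK : cel h M j K u = cel h M j K f) :
    ∃ (k : ℕ) (m : ℤ), k + 1 ≤ K ∧ cel h M j k u = 2 * m ∧ cel h M j k f = 2 * m + 1 ∧
      f - u < h * 2 ^ (k + 1) := by
  classical
  have hex : ∃ k, cel h M j k u = cel h M j k f := ⟨K, hK⟩
  obtain ⟨k', hk', hmin⟩ : ∃ k', cel h M j k' u = cel h M j k' f ∧
      ∀ l < k', cel h M j l u ≠ cel h M j l f :=
    ⟨Nat.find hex, Nat.find_spec hex, fun l hl => Nat.find_min hex hl⟩
  have hk0 : k' ≠ 0 := by
    rintro rfl
    have := same_lt hh M j 0 hk'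
    rw [pow_zero, mul_one] at this
    linarith
  obtain ⟨k, rfl⟩ := Nat.exists_eq_succ_of_ne_zero hk0
  have hkK : k + 1 ≤ K := by
    by_contra hcon
    exact hmin K (by omega) hK
  have h1 := hmin k (by omega)
  have h2 := cel_mono hh M j k (show u ≤ f by linarith)
  have h4 := hk'
  rw [Nat.succ_eq_add_one, cel_succ, cel_succ] at h4
  refine ⟨k, cel h M j k u / 2, hkK, by omega, by omega, ?_⟩
  exact same_lt hh M j (k + 1) hk'

private theorem two {h : ℝ} (hh : 0 < h) {M K : ℕ} (hKM : K ≤ M) {u w f : ℝ} (huw : u < w) (hwf : w ≤ f)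
    (h7 : 7 * (f - w) ≤ f - u) (h3 : 3 * h ≤ f - u) (hK6 : h * 2 ^ K < 6 * (f - u))
    {j j' : ℕ} (hj : j < 3) (hj' : j' < 3) (hne : j ≠ j')
    (hg : cel h M j K u = cel h M j K f) (hg' : cel h M j' K u = cel h M j' K f) :
    ∃ (j : ℕ) (k : ℕ) (m : ℤ), j < 3 ∧ cel h M j k u = 2 * m ∧ cel h M j k w = 2 * m + 1 ∧
      cel h M j k f = 2 * m + 1 ∧ h * 2 ^ (k + 1) < 6 * (f - u) := by
  obtain ⟨k, m, hk, hu, hf, hl⟩ := level hh M j K h3 hg
  obtain ⟨k', m', hk', hu', hf', hl'⟩ := level hh M j' K h3 hg'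
  have hlt : ∀ k, k + 1 ≤ K → h * 2 ^ (k + 1) < 6 * (f - u) := by
    intro k hk
    refine lt_of_le_of_lt ?_ hK6
    exact mul_le_mul_of_nonneg_left (pow_le_pow_right₀ (by norm_num) hk) hh.le
  have hw1 := cel_mono hh M j k huw.le
  have hw2 := cel_mono hh M j k hwf
  have hw1' := cel_mono hh M j' k' huw.le
  have hw2' := cel_mono hh M j' k' hwf
  by_cases hw : cel h M j k w = 2 * m + 1
  · exact ⟨j, k, m, hj, hu, hw, hf, hlt k hk⟩
  by_cases hw' : cel h M j' k' w = 2 * m' + 1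
  · exact ⟨j', k', m', hj', hu', hw', hf', hlt k' hk'⟩
  exfalso
  obtain ⟨a1, a2⟩ := between hh M j k (x := w) (y := f) (n := 2 * m + 1) (by omega) (by omega)
  obtain ⟨b1, b2⟩ := between hh M j' k' (x := w) (y := f) (n := 2 * m' + 1) (by omega) (by omega)
  -- both are points of level `min k k'`
  have key : ∀ (r : ℕ), r ≤ k → r ≤ k' → h * 2 ^ r / 3 < f - w := by
    intro r hr hr'
    have e1 : h * 2 ^ k * ((2 * m + 1 : ℤ) : ℝ) = h * 2 ^ r * ((2 ^ (k - r) * (2 * m + 1) : ℤ) : ℝ) := by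
      have : (2 : ℝ) ^ k = 2 ^ r * 2 ^ (k - r) := by
        rw [← pow_add]
        congr 1
        omega
      rw [this]
      push_cast
      ring
    have e2 : h * 2 ^ k' * ((2 * m' + 1 : ℤ) : ℝ) =
        h * 2 ^ r * ((2 ^ (k' - r) * (2 * m' + 1) : ℤ) : ℝ) := by
      have : (2 : ℝ) ^ k' = 2 ^ r * 2 ^ (k' - r) := by
        rw [← pow_add]
        congr 1
        omega
      rw [this]
      push_cast
      ring
    rw [e1] at a1 a2
    rw [e2] at b1 b2
    have h5 := sep hh (show r ≤ M by omega) hj hj' hne (2 ^ (k - r) * (2 * m + 1)) (2 ^ (k' - r) * (2 * m' + 1))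
    refine lt_of_le_of_lt h5 ?_
    rw [abs_lt]
    constructor <;> linarith
  rcases le_total k k' with hkk | hkk
  · have h5 := key k le_rfl hkk
    rw [pow_succ] at hl
    linarith
  · have h5 := key k' hkk le_rfl
    rw [pow_succ] at hl'
    linarith

theorem three_grids (h : ℝ) (hh : 0 < h) (M : ℕ) (u w f : ℝ) (huw : u < w) (hwf : w ≤ f)
    (h7 : 7 * (f - w) ≤ f - u) (h3 : 3 * h ≤ f - u) (h6 : 6 * (f - u) ≤ h * 2 ^ M) :
    ∃ (j : ℕ) (k : ℕ) (m : ℤ), j < 3 ∧
      ⌊(u - (j : ℝ) * h * 2 ^ M / 3) / (h * 2 ^ k)⌋ = 2 * m ∧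
      ⌊(w - (j : ℝ) * h * 2 ^ M / 3) / (h * 2 ^ k)⌋ = 2 * m + 1 ∧
      ⌊(f - (j : ℝ) * h * 2 ^ M / 3) / (h * 2 ^ k)⌋ = 2 * m + 1 ∧
      h * 2 ^ (k + 1) < 6 * (f - u) := by
  classical
  change ∃ (j : ℕ) (k : ℕ) (m : ℤ), j < 3 ∧ cel h M j k u = 2 * m ∧ cel h M j k w = 2 * m + 1 ∧
      cel h M j k f = 2 * m + 1 ∧ h * 2 ^ (k + 1) < 6 * (f - u)
  have hl : 0 < f - u := by linarith
  have hex : ∃ K, 3 * (f - u) ≤ h * 2 ^ K := ⟨M, by linarith⟩
  obtain ⟨K, hK, hmin⟩ : ∃ K, 3 * (f - u) ≤ h * 2 ^ K ∧ ∀ l < K, ¬ 3 * (f - u) ≤ h * 2 ^ l :=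
    ⟨Nat.find hex, Nat.find_spec hex, fun l hl => Nat.find_min hex hl⟩
  have hK0 : K ≠ 0 := by
    rintro rfl
    rw [pow_zero, mul_one] at hK
    linarith
  have hKM : K ≤ M := by
    by_contra hcon
    exact hmin M (by omega) (by linarith)
  have hK6 : h * 2 ^ K < 6 * (f - u) := by
    obtain ⟨K', rfl⟩ := Nat.exists_eq_succ_of_ne_zero hK0
    have h1 := hmin K' (by omega)
    push Not at h1
    rw [Nat.succ_eq_add_one, pow_succ]
    linarith
  have good : ∀ j j' : ℕ, j < 3 → j' < 3 → j ≠ j' → cel h M j K u ≠ cel h M j K f →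
      cel h M j' K u = cel h M j' K f := by
    intro j j' hj hj' hne hb
    by_contra hb'
    have c1 := cel_mono hh M j K (show u ≤ f by linarith)
    have c2 := cel_mono hh M j' K (show u ≤ f by linarith)
    obtain ⟨a1, a2⟩ := between hh M j K (x := u) (y := f) (n := cel h M j K f)
      (lt_of_le_of_ne c1 hb) le_rfl
    obtain ⟨b1, b2⟩ := between hh M j' K (x := u) (y := f) (n := cel h M j' K f)
      (lt_of_le_of_ne c2 hb') le_rfl
    have h5 := sep hh hKM hj hj' hne (cel h M j K f) (cel h M j' K f)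
    have h8 : |(th h M j + h * 2 ^ K * (cel h M j K f : ℝ)) -
        (th h M j' + h * 2 ^ K * (cel h M j' K f : ℝ))| < f - u := by
      rw [abs_lt]
      constructor <;> linarith
    linarith
  by_cases g0 : cel h M 0 K u = cel h M 0 K f
  · by_cases g1 : cel h M 1 K u = cel h M 1 K f
    · exact two hh hKM huw hwf h7 h3 hK6 (by norm_num) (by norm_num) (by norm_num) g0 g1
    · have g2 := good 1 2 (by norm_num) (by norm_num) (by norm_num) g1
      exact two hh hKM huw hwf h7 h3 hK6 (by norm_num) (by norm_num) (by norm_num) g0 g2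
  · have g1 := good 0 1 (by norm_num) (by norm_num) (by norm_num) g0
    have g2 := good 0 2 (by norm_num) (by norm_num) (by norm_num) g0
    exact two hh hKM huw hwf h7 h3 hK6 (by norm_num) (by norm_num) (by norm_num) g1 g2

end Pool.Agent.Work.MP_e64a38_co.CZ
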