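import Pool.Agent.Work.MP_e64a38_co.CZ.GSys
import Pool.Agent.Work.MP_e64a38_co.CZ.GShift

/-!
# Strong crossings seen from far away (size M)

If `7 (f - a q) ≤ f - a s` and `6 (f - a s) < y - a s` for all pairs of the family, then `P` has at most
`9 card ι` elements. (Any convex curve.)

Proof. If `P` is empty nothing is to be shown. Let `ℓ t = f t - a t.2 > 0` (`vis_ord`), `h` a third of the
least `ℓ t`, and `M` such that `h 2^M ≥ 6 ℓ t` for all `t ∈ P`. By `three_grids` with `u = a s`, `w = a q`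
(`a s < a q < f` by `vis_ord`) every `t ∈ P` has some `j < 3`, `k`, `m`. For each `j` the family `P_j` of the
`t` with this `j` satisfies the hypothesis of `grid_card` for `θ = j h 2^M / 3`: `f` is in the cell
`(k, 2m+1)`, so `f < R = θ + h 2^k (2m+2)`; `a s` is in the cell `(k, 2m)`, so
`R = (θ + h 2^k (2m)) + h 2^(k+1) ≤ a s + h 2^(k+1) < a s + 6 (f - a s) < y`. So `P_j` has at most
`3 card ι` elements, and `P` is the union of `P_0`, `P_1`, `P_2`.
-/

set_option autoImplicit false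

namespace Pool.Agent.Work.MP_e64a38_co.CZ

variable {ι : Type} [Fintype ι]

theorem far_card (S : Sy ι) (P : Finset (ι × ι)) (f y : ι × ι → ℝ) (hP : Fam S P f y)
    (h1 : ∀ t ∈ P, 7 * (f t - S.a t.1) ≤ f t - S.a t.2)
    (h2 : ∀ t ∈ P, 6 * (f t - S.a t.2) < y t - S.a t.2) : P.card ≤ 9 * Fintype.card ι := by
  classical
  rcases P.eq_empty_or_nonempty with hPe | hPn
  · rw [hPe, Finset.card_empty]
    exact Nat.zero_le _
  have hl : ∀ t ∈ P, 0 < f t - S.a t.2 := fun t ht => by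
    have := vis_ord S (hP t ht)
    linarith [this.1, this.2.1]
  obtain ⟨t0, ht0, hmin⟩ := P.exists_min_image (fun t => f t - S.a t.2) hPn
  obtain ⟨t1, ht1, hmax⟩ := P.exists_max_image (fun t => f t - S.a t.2) hPn
  obtain ⟨h, hhdef⟩ : ∃ h : ℝ, h = (f t0 - S.a t0.2) / 3 := ⟨_, rfl⟩
  have hh : 0 < h := by
    have := hl t0 ht0
    rw [hhdef]
    positivity
  obtain ⟨M, hM⟩ : ∃ M : ℕ, 6 * (f t1 - S.a t1.2) ≤ h * 2 ^ M := by
    obtain ⟨M, hM⟩ := pow_unbounded_of_one_lt (6 * (f t1 - S.a t1.2) / h)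
      (by norm_num : (1 : ℝ) < 2)
    refine ⟨M, ?_⟩
    rw [div_lt_iff₀ hh] at hM
    linarith
  have key : ∀ t ∈ P, ∃ j : ℕ, j < 3 ∧ ∃ (k : ℕ) (m : ℤ),
      ⌊(S.a t.2 - (j : ℝ) * h * 2 ^ M / 3) / (h * 2 ^ k)⌋ = 2 * m ∧
      ⌊(S.a t.1 - (j : ℝ) * h * 2 ^ M / 3) / (h * 2 ^ k)⌋ = 2 * m + 1 ∧
      f t < (j : ℝ) * h * 2 ^ M / 3 + h * 2 ^ k * (2 * m + 2) ∧
      (j : ℝ) * h * 2 ^ M / 3 + h * 2 ^ k * (2 * m + 2) < y t := by
    intro t ht
    have ho := vis_ord S (hP t ht)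
    have e1 : f t0 - S.a t0.2 ≤ f t - S.a t.2 := hmin t ht
    have e2 : f t - S.a t.2 ≤ f t1 - S.a t1.2 := hmax t ht
    obtain ⟨j, k, m, hj, g1, g2, g3, g4⟩ := three_grids h hh M (S.a t.2) (S.a t.1) (f t)
      ho.1 ho.2.1.le (h1 t ht) (by rw [hhdef]; linarith) (by linarith)
    refine ⟨j, hj, k, m, g1, g2, ?_, ?_⟩
    · have hp : 0 < h * 2 ^ k := by positivity
      have e3 := Int.lt_floor_add_one ((f t - (j : ℝ) * h * 2 ^ M / 3) / (h * 2 ^ k))
      rw [g3, div_lt_iff₀ hp] at e3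
      push_cast at e3
      linarith
    · have hp : 0 < h * 2 ^ k := by positivity
      have e3 := Int.floor_le ((S.a t.2 - (j : ℝ) * h * 2 ^ M / 3) / (h * 2 ^ k))
      rw [g1, le_div_iff₀ hp] at e3
      push_cast at e3
      rw [pow_succ] at g4
      have e4 := h2 t ht
      linarith
  choose! J hJ hJ' using key
  have hmaps : ∀ t ∈ P, J t ∈ Finset.range 3 := fun t ht => Finset.mem_range.mpr (hJ t ht)
  have hmul := Finset.card_le_mul_card_image_of_maps_to hmaps (3 * Fintype.card ι) (by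
    intro j _
    refine grid_card S (P.filter fun t => J t = j) f y
      (fun t ht => hP t (Finset.mem_of_mem_filter t ht)) h ((j : ℝ) * h * 2 ^ M / 3) hh ?_
    intro t ht
    obtain ⟨htP, htJ⟩ := Finset.mem_filter.mp ht
    have := hJ' t htP
    rw [htJ] at this
    exact this)
  rw [Finset.card_range] at hmul
  omega

end Pool.Agent.Work.MP_e64a38_co.CZ
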