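import Pool.Agent.Work.MP_e64a38_co.CZ.GPar

/-!
# Strong crossings seen from nearby (size M-L)

If `50 (f - a s) ≤ b s - f`, `7 (f - a q) ≤ f - a s` and `y - a s ≤ 6 (f - a s)` for all pairs of the
family, then `P.card ≤ 2 card ι`.

Proof. Call `t = (q, s) ∈ P` first if no `t' = (q, s') ∈ P` (same `q`) has `y t' < y t`. The map `t ↦ t.1` is
injective on the first elements: if `t ≠ t'` are both first with the same `q` then `y t = y t'`, and
`fact_a` gives `b s < y t' = y t < b s`. So there are at most `card ι` first elements.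

Let `t = (q, s)` be not first and `u' = (q, u) ∈ P` with `y u' < y t`. Write `f_u`, `y_u` for its data. By
`fact_a` `b u < y`, `f_u ≤ f`. Put `ℓ = f - a s`. `a q - a s = ℓ - (f - a q) ≥ 6 ℓ / 7`, and
`a q - a u < f_u - a u ≤ (b u - f_u) / 50 < (y - f_u) / 50 < (y - a s) / 50 ≤ 6 ℓ / 50 < a q - a s`
(`a s < a q < f_u`). So `a s < a u < a q` and `b u < y`. Let `c` be a chord with `a s < a c < a q`, `b c < y`
and `b c` as large as possible. Then `b c ≥ b u > f_u > a q`, i.e. `a q < b c`.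

The map `t ↦ c t` is injective on the non first elements. Let `t₁ = (q₁, s₁) ≠ t₂ = (q₂, s₂)` have the same
`c`, wlog `y₁ ≤ y₂`. We have `a s_i < a c < a q_i < b c < y₁` (for `i = 1, 2`; `b c < y₁` is the condition
for `t₁`). So `q₂` and `s₂` are alive at `y₁` (`b q₂ > b s₂ > y₂ ≥ y₁`). If `y₂ < b s₁` then `s₁` and `q₁`
are alive at `y₂` (`b s₁ < b q₁`), and `four` gives `t₁ = t₂`. So `b s₁ < y₂` (`off`), in particular
`y₁ < y₂`. If `a s₂ < a s₁` then `s₁` is a candidate in the choice of `c` for `t₂` (`a s₂ < a s₁ < a q₂`,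
`b s₁ < y₂`), so `b s₁ ≤ b c < y₁ < b s₁`, contradiction. So `a s₁ ≤ a s₂`.
Now `y₁ - a s₁ ≤ 6 (f₁ - a s₁) ≤ (6/50) (b s₁ - f₁) < (6/50) (y₂ - f₁) < (6/50) (y₂ - a s₁)
= (6/50) ((y₂ - y₁) + (y₁ - a s₁))`, so `y₁ - a s₁ < (6/44) (y₂ - y₁) ≤ (6/44) (y₂ - a s₂)`
(`a s₂ < a c < y₁`). On the other hand `a q₂ - a s₂ ≥ (6/7) (f₂ - a s₂) ≥ (1/7) (y₂ - a s₂)`. As
`6/44 < 1/7`: `a q₂ - a s₂ > y₁ - a s₁ ≥ y₁ - a s₂`, i.e. `a q₂ > y₁`, contradicting `a q₂ < b c < y₁`.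
-/

set_option autoImplicit false

namespace Pool.Agent.Work.MP_e64a38_co.CZ

variable {ι : Type} [Fintype ι]

omit [Fintype ι] in
private theorem nc_key (S : Sy ι) (P : Finset (ι × ι)) (f y : ι × ι → ℝ) (hP : Fam S P f y)
    (h1 : ∀ t ∈ P, 50 * (f t - S.a t.2) ≤ S.b t.2 - f t)
    (h2 : ∀ t ∈ P, 7 * (f t - S.a t.1) ≤ f t - S.a t.2)
    (h3 : ∀ t ∈ P, y t - S.a t.2 ≤ 6 * (f t - S.a t.2)) (t₁ t₂ : ι × ι) (ht₁ : t₁ ∈ P)
    (ht₂ : t₂ ∈ P) (hy : y t₁ ≤ y t₂) (c : ι) (a1 : S.a t₁.2 < S.a c) (a2 : S.a c < S.a t₁.1)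
    (a4 : S.b c < y t₁) (b1 : S.a t₂.2 < S.a c)
    (b2 : S.a c < S.a t₂.1) (b3 : S.a t₂.1 < S.b c)
    (b5 : ∀ c', S.a t₂.2 < S.a c' → S.a c' < S.a t₂.1 → S.b c' < y t₂ → S.b c' ≤ S.b c) :
    t₁ = t₂ := by
  obtain ⟨o1, o2, o3, o4, o5, o6⟩ := vis_ord S (hP t₁ ht₁)
  obtain ⟨p1, p2, p3, p4, p5, p6⟩ := vis_ord S (hP t₂ ht₂)
  have k1 : Al S (y t₁) t₂.1 := ⟨by linarith, by linarith⟩
  have k2 : Al S (y t₁) t₂.2 := ⟨by linarith, by linarith⟩
  by_cases hc : y t₂ < S.b t₁.2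
  · have k3 : Al S (y t₂) t₁.1 := ⟨by linarith, by linarith⟩
    have k4 : Al S (y t₂) t₁.2 := ⟨by linarith, by linarith⟩
    obtain ⟨e1, e2⟩ := four S (hP t₁ ht₁) (hP t₂ ht₂) k1 k2 k3 k4 (by linarith) (by linarith)
    exact Prod.ext e1 e2
  · exfalso
    have hne : y t₂ ≠ S.b t₁.2 := ((hP t₂ ht₂).off t₁.2).2
    have hlt : S.b t₁.2 < y t₂ := lt_of_le_of_ne (not_lt.1 hc) (Ne.symm hne)
    by_cases has : S.a t₂.2 < S.a t₁.2
    · have := b5 t₁.2 has (by linarith) hlt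
      linarith
    · have has' : S.a t₁.2 ≤ S.a t₂.2 := not_lt.1 has
      have q1 := h1 t₁ ht₁
      have q3 := h3 t₁ ht₁
      have r2 := h2 t₂ ht₂
      have r3 := h3 t₂ ht₂
      linarith

theorem near_card (S : Sy ι) (P : Finset (ι × ι)) (f y : ι × ι → ℝ) (hP : Fam S P f y)
    (h1 : ∀ t ∈ P, 50 * (f t - S.a t.2) ≤ S.b t.2 - f t)
    (h2 : ∀ t ∈ P, 7 * (f t - S.a t.1) ≤ f t - S.a t.2)
    (h3 : ∀ t ∈ P, y t - S.a t.2 ≤ 6 * (f t - S.a t.2)) : P.card ≤ 2 * Fintype.card ι := by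
  classical
  have hA : (P.filter (fun t => ∀ t' ∈ P, t'.1 = t.1 → y t ≤ y t')).card ≤ Fintype.card ι := by
    apply Finset.card_le_card_of_injOn (fun t => t.1) (fun _ _ => Finset.mem_univ _)
    intro t ht t' ht' he
    have ht1 := Finset.mem_filter.1 (Finset.mem_coe.1 ht)
    have ht1' := Finset.mem_filter.1 (Finset.mem_coe.1 ht')
    have he' : t.1 = t'.1 := he
    have hy1 : y t ≤ y t' := ht1.2 t' ht1'.1 he'.symm
    by_contra hne
    have hs : t.2 ≠ t'.2 := fun h => hne (Prod.ext he' h)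
    have hv' := hP t' ht1'.1
    rw [← he'] at hv'
    have h5 := (fact_a S (hP t ht1.1) hv' hy1 hs).1
    have h6 := ht1'.2 t ht1.1 he'
    have h7 := (vis_ord S (hP t ht1.1)).2.2.2.2.2
    linarith
  have hex : ∀ t ∈ P.filter (fun t => ¬ ∀ t' ∈ P, t'.1 = t.1 → y t ≤ y t'),
      ∃ c, S.a t.2 < S.a c ∧ S.a c < S.a t.1 ∧ S.b c < y t ∧ S.a t.1 < S.b c ∧
        ∀ c', S.a t.2 < S.a c' → S.a c' < S.a t.1 → S.b c' < y t → S.b c' ≤ S.b c := by
    intro t ht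
    obtain ⟨htP, hn⟩ := Finset.mem_filter.1 ht
    push Not at hn
    obtain ⟨t', ht', he, hy⟩ := hn
    have hs : t'.2 ≠ t.2 := by
      intro h
      have : t' = t := Prod.ext he h
      rw [this] at hy
      exact lt_irrefl _ hy
    have hv' := hP t' ht'
    rw [he] at hv'
    obtain ⟨e1, e2⟩ := fact_a S hv' (hP t htP) hy.le hs
    obtain ⟨o1, o2, o3, o4, o5, o6⟩ := vis_ord S (hP t htP)
    obtain ⟨p1, p2, p3, p4, p5, p6⟩ := vis_ord S hv'
    have q1 := h1 t' ht'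
    have q2 := h2 t htP
    have q3 := h3 t htP
    have c1 : S.a t.2 < S.a t'.2 := by linarith
    obtain ⟨c, hc, hmax⟩ := Finset.exists_max_image
      (Finset.univ.filter (fun c => S.a t.2 < S.a c ∧ S.a c < S.a t.1 ∧ S.b c < y t)) S.b
      ⟨t'.2, Finset.mem_filter.2 ⟨Finset.mem_univ _, c1, p1, e1⟩⟩
    obtain ⟨-, d1, d2, d3⟩ := Finset.mem_filter.1 hc
    have d4 := hmax t'.2 (Finset.mem_filter.2 ⟨Finset.mem_univ _, c1, p1, e1⟩)
    refine ⟨c, d1, d2, d3, by linarith, ?_⟩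
    intro c' u1 u2 u3
    exact hmax c' (Finset.mem_filter.2 ⟨Finset.mem_univ _, u1, u2, u3⟩)
  have hex' : ∀ t : ι × ι, ∃ c : ι, t ∈ P.filter (fun t => ¬ ∀ t' ∈ P, t'.1 = t.1 → y t ≤ y t') →
      S.a t.2 < S.a c ∧ S.a c < S.a t.1 ∧ S.b c < y t ∧ S.a t.1 < S.b c ∧
        ∀ c', S.a t.2 < S.a c' → S.a c' < S.a t.1 → S.b c' < y t → S.b c' ≤ S.b c := by
    intro t
    by_cases h : t ∈ P.filter (fun t => ¬ ∀ t' ∈ P, t'.1 = t.1 → y t ≤ y t')
    · obtain ⟨c, hc⟩ := hex t h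
      exact ⟨c, fun _ => hc⟩
    · exact ⟨t.1, fun h' => absurd h' h⟩
  choose c hcc using hex'
  have hB : (P.filter (fun t => ¬ ∀ t' ∈ P, t'.1 = t.1 → y t ≤ y t')).card ≤
      Fintype.card ι := by
    apply Finset.card_le_card_of_injOn c (fun _ _ => Finset.mem_univ _)
    intro t ht t' ht' he
    have hm := Finset.mem_coe.1 ht
    have hm' := Finset.mem_coe.1 ht'
    have htP := (Finset.mem_filter.1 hm).1
    have htP' := (Finset.mem_filter.1 hm').1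
    rcases le_total (y t) (y t') with hy | hy
    · apply nc_key S P f y hP h1 h2 h3 t t' htP htP' hy (c t) (hcc _ hm).1 (hcc _ hm).2.1 (hcc _ hm).2.2.1
      · rw [he]; exact (hcc _ hm').1
      · rw [he]; exact (hcc _ hm').2.1
      · rw [he]; exact (hcc _ hm').2.2.2.1
      · rw [he]; exact (hcc _ hm').2.2.2.2
    · symm
      apply nc_key S P f y hP h1 h2 h3 t' t htP' htP hy (c t') (hcc _ hm').1 (hcc _ hm').2.1
        (hcc _ hm').2.2.1
      · rw [← he]; exact (hcc _ hm).1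
      · rw [← he]; exact (hcc _ hm).2.1
      · rw [← he]; exact (hcc _ hm).2.2.2.1
      · rw [← he]; exact (hcc _ hm).2.2.2.2
  have hsum := Finset.card_filter_add_card_filter_not
    (s := P) (fun t => ∀ t' ∈ P, t'.1 = t.1 → y t ≤ y t')
  omega

end Pool.Agent.Work.MP_e64a38_co.CZ
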