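import Pool.Agent.Work.MP_e64a38_co.CZ.GLastS
import Pool.Agent.Work.MP_e64a38_co.CZ.GNear
import Pool.Agent.Work.MP_e64a38_co.CZ.GFar

/-!
# Crossings near the left end and near the right end (size S-M)

`lu_card`: on the parabola, if `50 (f - a s) ≤ b s - f` for all pairs then `P.card ≤ 13 card ι`. Split `P`:
(1) `b s - f ≤ 10 (y - f)`: `last_s`, at most `n`. Otherwise `10 (y - f) < b s - f` and
(2) `b q - f < 7 (b s - f)`: `weak_q`, at most `n`. Otherwise `7 (b s - f) ≤ b q - f`, i.e.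
`7 (f - a q) ≤ f - a s` (`par_ratio`), and (3) `y - a s ≤ 6 (f - a s)`: `near_card`, at most `2 n`, or
(4) `6 (f - a s) < y - a s`: `far_card`, at most `9 n`.

`ru_card`: if `50 (b q - f) ≤ f - a q` for all pairs then `P.card ≤ 13 card ι`. Apply `lu_card` to the mirror
image: `P' = P.image Prod.swap`, `f' t = - f t.swap`, `y' t = - y t.swap` (`vis_mir`, `par_mir`):
`f' - a' s' = - f + b q`, `b' s' - f' = - a q + f`.
-/

set_option autoImplicit false

namespace Pool.Agent.Work.MP_e64a38_co.CZ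

variable {ι : Type} [Fintype ι]

private theorem card_split (P : Finset (ι × ι)) (p : ι × ι → Prop) [DecidablePred p] :
    P.card ≤ (P.filter p).card + (P.filter (fun t => ¬ p t)).card := by
  classical
  have h : P ⊆ P.filter p ∪ P.filter (fun t => ¬ p t) := by
    intro t ht
    rw [Finset.mem_union, Finset.mem_filter, Finset.mem_filter]
    by_cases hp : p t
    · exact Or.inl ⟨ht, hp⟩
    · exact Or.inr ⟨ht, hp⟩
  exact (Finset.card_le_card h).trans (Finset.card_union_le _ _)

theorem lu_card (S : Sy ι) (hS : Par S) (P : Finset (ι × ι)) (f y : ι × ι → ℝ) (hP : Fam S P f y)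
    (h1 : ∀ t ∈ P, 50 * (f t - S.a t.2) ≤ S.b t.2 - f t) : P.card ≤ 13 * Fintype.card ι := by
  classical
  have c1 := card_split P (fun t => S.b t.2 - f t ≤ 10 * (y t - f t))
  set P1 := P.filter (fun t => S.b t.2 - f t ≤ 10 * (y t - f t)) with hP1
  set R := P.filter (fun t => ¬ (S.b t.2 - f t ≤ 10 * (y t - f t))) with hR
  have c2 := card_split R (fun t => S.b t.1 - f t < 7 * (S.b t.2 - f t))
  set P2 := R.filter (fun t => S.b t.1 - f t < 7 * (S.b t.2 - f t)) with hP2
  set R2 := R.filter (fun t => ¬ (S.b t.1 - f t < 7 * (S.b t.2 - f t))) with hR2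
  have c3 := card_split R2 (fun t => y t - S.a t.2 ≤ 6 * (f t - S.a t.2))
  set P3 := R2.filter (fun t => y t - S.a t.2 ≤ 6 * (f t - S.a t.2)) with hP3
  set P4 := R2.filter (fun t => ¬ (y t - S.a t.2 ≤ 6 * (f t - S.a t.2))) with hP4
  have sub1 : ∀ t ∈ P1, t ∈ P := fun t ht => (Finset.mem_filter.1 ht).1
  have subR : ∀ t ∈ R, t ∈ P := fun t ht => (Finset.mem_filter.1 ht).1
  have subP2 : ∀ t ∈ P2, t ∈ R := fun t ht => (Finset.mem_filter.1 ht).1
  have subR2 : ∀ t ∈ R2, t ∈ R := fun t ht => (Finset.mem_filter.1 ht).1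
  have subP3 : ∀ t ∈ P3, t ∈ R2 := fun t ht => (Finset.mem_filter.1 ht).1
  have subP4 : ∀ t ∈ P4, t ∈ R2 := fun t ht => (Finset.mem_filter.1 ht).1
  have ratio : ∀ t ∈ R2, 7 * (f t - S.a t.1) ≤ f t - S.a t.2 := by
    intro t ht
    have h7 := (Finset.mem_filter.1 ht).2
    exact (par_ratio S hS (hP t (subR t (subR2 t ht))) 7 (by norm_num)).1 (not_lt.1 h7)
  have b1 : P1.card ≤ Fintype.card ι := by
    refine last_s S P1 f y (fun t ht => hP t (sub1 t ht)) (fun t ht => h1 t (sub1 t ht)) ?_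
    intro t ht
    exact (Finset.mem_filter.1 ht).2
  have b2 : P2.card ≤ Fintype.card ι := by
    refine weak_q S P2 f y (fun t ht => hP t (subR t (subP2 t ht)))
      (fun t ht => h1 t (subR t (subP2 t ht))) ?_ ?_
    · intro t ht
      exact not_le.1 (Finset.mem_filter.1 (subP2 t ht)).2
    · intro t ht
      exact (Finset.mem_filter.1 ht).2
  have b3 : P3.card ≤ 2 * Fintype.card ι := by
    refine near_card S P3 f y (fun t ht => hP t (subR t (subR2 t (subP3 t ht))))
      (fun t ht => h1 t (subR t (subR2 t (subP3 t ht)))) (fun t ht => ratio t (subP3 t ht)) ?_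
    intro t ht
    exact (Finset.mem_filter.1 ht).2
  have b4 : P4.card ≤ 9 * Fintype.card ι := by
    refine far_card S P4 f y (fun t ht => hP t (subR t (subR2 t (subP4 t ht))))
      (fun t ht => ratio t (subP4 t ht)) ?_
    intro t ht
    exact not_le.1 (Finset.mem_filter.1 ht).2
  omega

theorem ru_card (S : Sy ι) (hS : Par S) (P : Finset (ι × ι)) (f y : ι × ι → ℝ) (hP : Fam S P f y)
    (h1 : ∀ t ∈ P, 50 * (S.b t.1 - f t) ≤ f t - S.a t.1) : P.card ≤ 13 * Fintype.card ι := by
  classical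
  have hmem : ∀ t, t ∈ P.image Prod.swap → t.swap ∈ P := by
    intro t ht
    obtain ⟨u, hu, rfl⟩ := Finset.mem_image.1 ht
    rwa [Prod.swap_swap]
  have h := lu_card S.mir (par_mir S hS) (P.image Prod.swap) (fun t => - f t.swap)
    (fun t => - y t.swap) (fun t ht => vis_mir S (hP t.swap (hmem t ht))) (by
      intro t ht
      have h2 := h1 t.swap (hmem t ht)
      have e1 : S.mir.a t.2 = - S.b t.2 := rfl
      have e2 : S.mir.b t.2 = - S.a t.2 := rfl
      have e3 : t.swap.1 = t.2 := rfl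
      rw [e3] at h2
      rw [e1, e2]
      show 50 * (- f t.swap - (- S.b t.2)) ≤ - S.a t.2 - (- f t.swap)
      linarith)
  rwa [Finset.card_image_of_injective _ Prod.swap_injective] at h

end Pool.Agent.Work.MP_e64a38_co.CZ
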