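import Pool.Agent.Work.MP_e64a38_co.CZ.GPar

/-!
# Two injective classes (size M)

`last_s`: if `50 (f - a s) ≤ b s - f` and `b s - f ≤ 10 (y - f)` for all pairs of the family, then
`P.card ≤ card ι`.
Proof: `t ↦ t.2` is injective on `P`. Let `t = (q, s)`, `t' = (q', s)`, `q ≠ q'`, wlog `y ≤ y'`. By `fact_b`
`y < a q'`, and `a q' < f'`. As `y - f ≥ (b s - f) / 10 > 0` we have `f < y < f'`. Then
`f' - a s > y - a s > y - f ≥ (b s - f) / 10 > (b s - f') / 10 ≥ 5 (f' - a s)`, contradiction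
(`f' - a s > 0`).

`weak_q`: if `50 (f - a s) ≤ b s - f`, `10 (y - f) < b s - f` and `b q - f < 7 (b s - f)` for all pairs,
then `P.card ≤ card ι`.
Proof: `t ↦ t.1` is injective on `P`. Let `t = (q, s)`, `t' = (q, s')`, `s ≠ s'`, wlog `y ≤ y'`. By `fact_a`
`b s < y'` and `f ≤ f'`. With `R = b s' - f' > 0`: `b s - f < y' - f = (y' - f') + (f' - f) < R / 10 +
(f' - f)`, and `f' - f < f' - a q < f' - a s' ≤ R / 50` (`a q < f`, `a s' < a q`). So
`b s - f < 0.12 R ≤ 0.12 (b q - f') ≤ 0.12 (b q - f) < 0.12 * 7 (b s - f) = 0.84 (b s - f)`, contradiction.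
-/

set_option autoImplicit false

namespace Pool.Agent.Work.MP_e64a38_co.CZ

variable {ι : Type} [Fintype ι]

omit [Fintype ι] in
private theorem ls_key (S : Sy ι) {q q' s : ι} {f y f' y' : ℝ} (h : Vis S q s f y)
    (h' : Vis S q' s f' y') (hy : y ≤ y') (a1 : 50 * (f' - S.a s) ≤ S.b s - f')
    (a2 : S.b s - f ≤ 10 * (y - f)) : q = q' := by
  by_contra hq
  have h1 := fact_b S h h' hy hq
  obtain ⟨k1, k2, k3, k4, k5, k6⟩ := vis_ord S h
  obtain ⟨l1, l2, l3, l4, l5, l6⟩ := vis_ord S h'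
  linarith

omit [Fintype ι] in
private theorem wq_key (S : Sy ι) {q s s' : ι} {f y f' y' : ℝ} (h : Vis S q s f y)
    (h' : Vis S q s' f' y') (hy : y ≤ y') (a1 : 50 * (f' - S.a s') ≤ S.b s' - f')
    (a2 : 10 * (y' - f') < S.b s' - f') (a3 : S.b q - f < 7 * (S.b s - f)) : s = s' := by
  by_contra hs
  obtain ⟨h1, h2⟩ := fact_a S h h' hy hs
  obtain ⟨k1, k2, k3, k4, k5, k6⟩ := vis_ord S h
  obtain ⟨l1, l2, l3, l4, l5, l6⟩ := vis_ord S h'
  linarith

theorem last_s (S : Sy ι) (P : Finset (ι × ι)) (f y : ι × ι → ℝ) (hP : Fam S P f y)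
    (h1 : ∀ t ∈ P, 50 * (f t - S.a t.2) ≤ S.b t.2 - f t)
    (h2 : ∀ t ∈ P, S.b t.2 - f t ≤ 10 * (y t - f t)) : P.card ≤ Fintype.card ι := by
  classical
  have hinj : Set.InjOn Prod.snd (P : Set (ι × ι)) := by
    rintro ⟨q, s⟩ ht ⟨q', s'⟩ ht' he
    simp only at he
    subst he
    have ht : (q, s) ∈ P := ht
    have ht' : (q', s) ∈ P := ht'
    have v1 := hP _ ht
    have v2 := hP _ ht'
    simp only at v1 v2
    have e : q = q' := by
      rcases le_total (y (q, s)) (y (q', s)) with hy | hy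
      · exact ls_key S v1 v2 hy (h1 _ ht') (h2 _ ht)
      · exact (ls_key S v2 v1 hy (h1 _ ht) (h2 _ ht')).symm
    rw [e]
  rw [← Finset.card_image_of_injOn hinj]
  exact Finset.card_le_univ _

theorem weak_q (S : Sy ι) (P : Finset (ι × ι)) (f y : ι × ι → ℝ) (hP : Fam S P f y)
    (h1 : ∀ t ∈ P, 50 * (f t - S.a t.2) ≤ S.b t.2 - f t)
    (h2 : ∀ t ∈ P, 10 * (y t - f t) < S.b t.2 - f t)
    (h3 : ∀ t ∈ P, S.b t.1 - f t < 7 * (S.b t.2 - f t)) : P.card ≤ Fintype.card ι := by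
  classical
  have hinj : Set.InjOn Prod.fst (P : Set (ι × ι)) := by
    rintro ⟨q, s⟩ ht ⟨q', s'⟩ ht' he
    simp only at he
    subst he
    have ht : (q, s) ∈ P := ht
    have ht' : (q, s') ∈ P := ht'
    have v1 := hP _ ht
    have v2 := hP _ ht'
    simp only at v1 v2
    have e : s = s' := by
      rcases le_total (y (q, s)) (y (q, s')) with hy | hy
      · exact wq_key S v1 v2 hy (h1 _ ht') (h2 _ ht') (h3 _ ht)
      · exact (wq_key S v2 v1 hy (h1 _ ht) (h2 _ ht) (h3 _ ht')).symm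
    rw [e]
  rw [← Finset.card_image_of_injOn hinj]
  exact Finset.card_le_univ _

end Pool.Agent.Work.MP_e64a38_co.CZ
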