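import Pool.Agent.Work.MP_e64a38_co.CZ.GFour

/-!
# The parabola (size S)

* `par_v`: `v i x - x ^ 2 = (x - a i) * (b i - x)`.
* `par_eq`: at a visible crossing `(f - a s) (b s - f) = (f - a q) (b q - f)`, and for every `c` alive at
  `y`: `(f - a s) (b s - f) ≤ (f - a c) (b c - f)`.
* `par_mir`: the mirror image of a system on the parabola is one.
* `par_ratio`: for a real `K > 0`: `K (b s - f) ≤ b q - f ↔ K (f - a q) ≤ f - a s`
  (all four differences are positive by `vis_ord`, and `par_eq`).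
-/

set_option autoImplicit false

namespace Pool.Agent.Work.MP_e64a38_co.CZ

variable {ι : Type}

theorem par_v (S : Sy ι) (hS : Par S) (i : ι) (x : ℝ) :
    S.v i x - x ^ 2 = (x - S.a i) * (S.b i - x) := by
  rw [Sy.v, hS.1 i, hS.2.1 i]
  ring

theorem par_eq (S : Sy ι) (hS : Par S) {q s : ι} {f y : ℝ} (h : Vis S q s f y) :
    (f - S.a s) * (S.b s - f) = (f - S.a q) * (S.b q - f) ∧
    ∀ c, Al S y c → (f - S.a s) * (S.b s - f) ≤ (f - S.a c) * (S.b c - f) := by
  have h1 := h.eq
  rw [← par_v S hS, ← par_v S hS]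
  refine ⟨by rw [h1], fun c hc => ?_⟩
  rw [← par_v S hS c f]
  have h2 := h.up c hc
  linarith

theorem par_mir (S : Sy ι) (hS : Par S) : Par S.mir := by
  refine ⟨fun i => ?_, fun i => ?_, fun x => ?_⟩
  · show - S.p i = - S.b i + - S.a i
    rw [hS.1 i]
    ring
  · show S.q i = - (- S.b i * - S.a i)
    rw [hS.2.1 i]
    ring
  · show S.φ (-x) = x ^ 2
    rw [hS.2.2]
    ring

theorem par_ratio (S : Sy ι) (hS : Par S) {q s : ι} {f y : ℝ} (h : Vis S q s f y) (K : ℝ)
    (hK : 0 < K) : K * (S.b s - f) ≤ S.b q - f ↔ K * (f - S.a q) ≤ f - S.a s := by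
  obtain ⟨h1, h2, h3, h4, -, -⟩ := vis_ord S h
  have h5 := (par_eq S hS h).1
  have e1 : 0 < f - S.a q := by linarith
  have e2 : 0 < S.b s - f := by linarith
  constructor
  · intro h6
    have h7 := mul_le_mul_of_nonneg_left h6 e1.le
    rw [← h5] at h7
    refine le_of_mul_le_mul_right ?_ e2
    calc K * (f - S.a q) * (S.b s - f) = (f - S.a q) * (K * (S.b s - f)) := by ring
      _ ≤ (f - S.a s) * (S.b s - f) := h7
  · intro h6
    have h7 := mul_le_mul_of_nonneg_right h6 e2.le
    rw [h5] at h7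
    refine le_of_mul_le_mul_left ?_ e1
    calc (f - S.a q) * (K * (S.b s - f)) = K * (f - S.a q) * (S.b s - f) := by ring
      _ ≤ (f - S.a q) * (S.b q - f) := h7

end Pool.Agent.Work.MP_e64a38_co.CZ
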