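import Pool.Agent.Work.MP_e64a38_co.CZ.GFour
import Pool.Agent.Work.MP_e64a38_co.CZ.EMain
import Pool.Agent.Work.MP_e64a38_co.CZ.ERank

/-!
# Visible crossings that fit into one dyadic grid (size M-L)

Let `h > 0`, `θ` real. The cell `(k, m)` is `[θ + h 2^k m, θ + h 2^k (m + 1))`. Suppose that every pair
`t = (q, s)` of the family `P` fits into the grid: there are `k`, `m` such that `a s` is in the cell
`(k, 2m)`, `a q` is in the cell `(k, 2m+1)`, and `f < R < y` for `R = θ + h 2^k (2m + 2)`, the right end of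
the cell `(k+1, m)`. Then `P` has at most `3 card ι` elements. (Any convex curve.)

Proof. Build an `ESys` on `ι` and `X = {t // t ∈ P}` and apply `esys_card`.
`c k i = ⌊(a i - θ) / (h 2^k)⌋` (`c_succ`: `⌊z / 2⌋ = ⌊z⌋ / 2`, `Int.floor_div_natCast` or by hand).
Choose `k = lv t`, `m = nd t` as in the hypothesis. Let `E = ι ⊕ X`, `v (inl i) = b i`, `v (inr t) = y t`, `g`
from `rank_ex`; `dt i = g (inl i)`, `et t = g (inr t)` (injective, disjoint),
`cl k m = #{e : v e ≤ θ + h 2^k (m+1)}`. From `rank_ex`: `v e < v e' → g e < g e'`, hence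
`g e < g e' → v e ≤ v e'`; `cl k m ≤ g e ↔ θ + h 2^k (m+1) < v e`. Since `y t` is never an end (`off`):
`et t < dt i ↔ y t < b i`, `dt i < et t ↔ b i < y t`.
* `cl_mono`: `θ + h 2^k (m+1) ≤ θ + h 2^(k+1) (m/2 + 1)` since `m + 1 ≤ 2 (m/2) + 2`; cards are monotone.
* `closed`: `R < y`.
* `lft`: `s`, `y < b s`. `rgt`: `q`, `y < b q` (`vis_ord`).
* `top`: let `t`, `i`, `j`, `κ ≥ lv t + 1`, `i` in the cell `(lv t + 1, nd t)`, `c κ j = c κ i + 1`, and the
  cell `(κ+1, c (κ+1) i)`, which also contains `j`, is closed: its right end is `< y t`, so `a j < y t`.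
  If not `dt j < et t` then `b j > y t`, so `j` is alive at `y t`, hence `a j < f t` (`vis_al`). But
  `f t < R_t ≤` right end of `(κ, c κ i)` `= θ + h 2^κ (c κ j) ≤ a j`, contradiction. (Right ends increase
  along ancestors, see `cl_mono`; `c κ i` is obtained from `nd t` by halving.)
* `flg`: `j` in the right half, `y t < b j`. `a j < R_t < y t`, so `j` is alive at `y t`, and
  `a s < θ + h 2^k (2m+1) ≤ a j`; by `fact_c` `b s < b j`. Take `i = s`.
* `sep`: `t ≠ t'` with the same cell, `et t < et t'`, so `y t ≤ y t'`. Take `i = s` (the second component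
  of `t`). `y t < b s`. If `b s < y t'` fails then `y t' < b s`. The chords of `t` and `t'` are born before
  `R < y t ≤ y t'`, `y t' < b s < b q`, `y t ≤ y t' < b s' < b q'`, so all four are alive at `y t` and
  `y t'`; `a s, a s'` are in the left half, `a q, a q'` in the right half; `four` gives `t = t'`, but
  `et t < et t'`.
-/

set_option autoImplicit false

namespace Pool.Agent.Work.MP_e64a38_co.CZ

variable {ι : Type} [Fintype ι]

private theorem fl_iff (θ h a : ℝ) (hh : 0 < h) (k : ℕ) (m : ℤ) :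
    ⌊(a - θ) / (h * 2 ^ k)⌋ = m ↔ θ + h * 2 ^ k * m ≤ a ∧ a < θ + h * 2 ^ k * (m + 1) := by
  have hp : (0 : ℝ) < h * 2 ^ k := by positivity
  rw [Int.floor_eq_iff, le_div_iff₀ hp, div_lt_iff₀ hp]
  constructor
  · rintro ⟨h1, h2⟩
    constructor
    · nlinarith
    · nlinarith
  · rintro ⟨h1, h2⟩
    constructor
    · nlinarith
    · nlinarith

private theorem half_le (m : ℤ) : (m : ℝ) + 1 ≤ 2 * (((m / 2 : ℤ) : ℝ) + 1) := by
  have h1 : m + 1 ≤ 2 * (m / 2 + 1) := by omega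
  exact_mod_cast h1

private theorem rt_mono (θ h : ℝ) (hh : 0 < h) (k : ℕ) (m : ℤ) :
    θ + h * 2 ^ k * ((m : ℝ) + 1) ≤ θ + h * 2 ^ (k + 1) * (((m / 2 : ℤ) : ℝ) + 1) := by
  have hp : (0 : ℝ) < h * 2 ^ k := by positivity
  have h1 := half_le m
  have h2 : h * 2 ^ k * ((m : ℝ) + 1) ≤ h * 2 ^ k * (2 * (((m / 2 : ℤ) : ℝ) + 1)) :=
    mul_le_mul_of_nonneg_left h1 hp.le
  have h3 : h * 2 ^ (k + 1) * (((m / 2 : ℤ) : ℝ) + 1) =
      h * 2 ^ k * (2 * (((m / 2 : ℤ) : ℝ) + 1)) := by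
    rw [pow_succ]; ring
  linarith

private theorem fl_succ (θ h a : ℝ) (k : ℕ) :
    ⌊(a - θ) / (h * 2 ^ (k + 1))⌋ = ⌊(a - θ) / (h * 2 ^ k)⌋ / 2 := by
  have h1 : (a - θ) / (h * 2 ^ (k + 1)) = (a - θ) / (h * 2 ^ k) / ((2 : ℕ) : ℝ) := by
    rw [div_div, pow_succ]
    congr 1
    push_cast
    ring
  rw [h1, Int.floor_div_natCast]
  norm_num

private theorem rt_anc (θ h a : ℝ) (hh : 0 < h) (K k : ℕ) (hk : K ≤ k) :
    θ + h * 2 ^ K * ((⌊(a - θ) / (h * 2 ^ K)⌋ : ℝ) + 1) ≤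
    θ + h * 2 ^ k * ((⌊(a - θ) / (h * 2 ^ k)⌋ : ℝ) + 1) := by
  induction k, hk using Nat.le_induction with
  | base => exact le_refl _
  | succ n hn' ih =>
    refine ih.trans ?_
    have h1 := rt_mono θ h hh n ⌊(a - θ) / (h * 2 ^ n)⌋
    rw [← fl_succ] at h1
    exact h1

theorem grid_card (S : Sy ι) (P : Finset (ι × ι)) (f y : ι × ι → ℝ) (hP : Fam S P f y) (h θ : ℝ)
    (hh : 0 < h) (hg : ∀ t ∈ P, ∃ (k : ℕ) (m : ℤ), ⌊(S.a t.2 - θ) / (h * 2 ^ k)⌋ = 2 * m ∧
      ⌊(S.a t.1 - θ) / (h * 2 ^ k)⌋ = 2 * m + 1 ∧ f t < θ + h * 2 ^ k * (2 * m + 2) ∧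
      θ + h * 2 ^ k * (2 * m + 2) < y t) : P.card ≤ 3 * Fintype.card ι := by
  classical
  have hg' : ∀ t : {t // t ∈ P}, ∃ (k : ℕ) (m : ℤ), ⌊(S.a t.1.2 - θ) / (h * 2 ^ k)⌋ = 2 * m ∧
      ⌊(S.a t.1.1 - θ) / (h * 2 ^ k)⌋ = 2 * m + 1 ∧ f t.1 < θ + h * 2 ^ k * (2 * m + 2) ∧
      θ + h * 2 ^ k * (2 * m + 2) < y t.1 := fun t => hg t.1 t.2
  choose lv nd g1 g2 g3 g4 using hg'
  obtain ⟨g, ginj, hgr⟩ := rank_ex (E := ι ⊕ {t // t ∈ P})
    (fun e => Sum.elim (fun i => S.b i) (fun t => y t.1) e)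
  have glt : ∀ e e' : ι ⊕ {t // t ∈ P},
      Sum.elim (fun i => S.b i) (fun t => y t.1) e < Sum.elim (fun i => S.b i) (fun t => y t.1) e' →
      g e < g e' := by
    intro e e' hlt
    have h1 := (hgr e' (Sum.elim (fun i => S.b i) (fun t => y t.1) e)).2 hlt
    have h2 := (hgr e (Sum.elim (fun i => S.b i) (fun t => y t.1) e)).not.2 (lt_irrefl _)
    exact lt_of_lt_of_le (not_le.1 h2) h1
  have gle : ∀ e e' : ι ⊕ {t // t ∈ P}, g e < g e' →
      Sum.elim (fun i => S.b i) (fun t => y t.1) e ≤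
        Sum.elim (fun i => S.b i) (fun t => y t.1) e' := by
    intro e e' hlt
    by_contra hn
    exact absurd (glt e' e (not_le.1 hn)) (not_lt.2 hlt.le)
  have ylt : ∀ (t : {t // t ∈ P}) (i : ι), g (Sum.inr t) < g (Sum.inl i) → y t.1 < S.b i := by
    intro t i hlt
    have h1 : y t.1 ≤ S.b i := gle _ _ hlt
    exact lt_of_le_of_ne h1 ((hP t.1 t.2).off i).2
  have ylt' : ∀ (t : {t // t ∈ P}) (i : ι), y t.1 < S.b i → g (Sum.inr t) < g (Sum.inl i) :=
    fun t i hlt => glt _ _ hlt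
  have blt' : ∀ (t : {t // t ∈ P}) (i : ι), S.b i < y t.1 → g (Sum.inl i) < g (Sum.inr t) :=
    fun t i hlt => glt _ _ hlt
  have hR : ∀ t : {t // t ∈ P}, θ + h * 2 ^ (lv t + 1) * ((nd t : ℝ) + 1) =
      θ + h * 2 ^ (lv t) * (2 * (nd t : ℝ) + 2) := by
    intro t; rw [pow_succ]; ring
  -- position of the chords of one cell
  have left_cell : ∀ (t : {t // t ∈ P}) (i : ι), ⌊(S.a i - θ) / (h * 2 ^ (lv t))⌋ = 2 * nd t →
      S.a i < θ + h * 2 ^ (lv t) * (2 * (nd t : ℝ) + 1) := by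
    intro t i hi
    have := ((fl_iff θ h (S.a i) hh (lv t) (2 * nd t)).1 hi).2
    push_cast at this
    exact this
  have right_cell : ∀ (t : {t // t ∈ P}) (i : ι), ⌊(S.a i - θ) / (h * 2 ^ (lv t))⌋ = 2 * nd t + 1 →
      θ + h * 2 ^ (lv t) * (2 * (nd t : ℝ) + 1) ≤ S.a i ∧
      S.a i < θ + h * 2 ^ (lv t) * (2 * (nd t : ℝ) + 2) := by
    intro t i hi
    have := (fl_iff θ h (S.a i) hh (lv t) (2 * nd t + 1)).1 hi
    push_cast at this
    refine ⟨this.1, ?_⟩
    have h2 := this.2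
    have e : (2 * (nd t : ℝ) + 1 + 1) = 2 * (nd t : ℝ) + 2 := by ring
    rwa [e] at h2
  have hle12 : ∀ t : {t // t ∈ P}, θ + h * 2 ^ (lv t) * (2 * (nd t : ℝ) + 1) <
      θ + h * 2 ^ (lv t) * (2 * (nd t : ℝ) + 2) := by
    intro t
    have hp : (0 : ℝ) < h * 2 ^ (lv t) := by positivity
    nlinarith
  let T : ESys ι {t // t ∈ P} :=
    { c := fun k i => ⌊(S.a i - θ) / (h * 2 ^ k)⌋
      c_succ := fun k i => fl_succ θ h (S.a i) k
      cl := fun k m => (Finset.univ.filter (fun e : ι ⊕ {t // t ∈ P} =>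
        Sum.elim (fun i => S.b i) (fun t => y t.1) e ≤ θ + h * 2 ^ k * ((m : ℝ) + 1))).card
      cl_mono := by
        intro k m
        apply Finset.card_le_card
        intro e he
        rw [Finset.mem_filter] at he ⊢
        exact ⟨he.1, he.2.trans (rt_mono θ h hh k m)⟩
      dt := fun i => g (Sum.inl i)
      et := fun t => g (Sum.inr t)
      dt_inj := fun i j hij => Sum.inl_injective (ginj hij)
      et_inj := fun i j hij => Sum.inr_injective (ginj hij)
      disj := by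
        intro i x hix
        exact absurd (ginj hix) (by simp)
      lv := lv
      nd := nd
      closed := by
        intro t
        apply (hgr (Sum.inr t) _).2
        show θ + h * 2 ^ (lv t + 1) * ((nd t : ℝ) + 1) < y t.1
        rw [hR t]
        exact g4 t
      lft := by
        intro t
        exact ⟨t.1.2, g1 t, ylt' t _ (vis_ord S (hP t.1 t.2)).2.2.2.2.2⟩
      rgt := by
        intro t
        obtain ⟨o1, o2, o3, o4, o5, o6⟩ := vis_ord S (hP t.1 t.2)
        exact ⟨t.1.1, g2 t, ylt' t _ (by linarith)⟩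
      top := by
        intro t i j k hk hi hj hj' hcl
        by_contra hn
        have hlt : g (Sum.inr t) < g (Sum.inl j) := by
          rcases lt_trichotomy (g (Sum.inl j)) (g (Sum.inr t)) with h1 | h1 | h1
          · exact absurd h1 hn
          · exact absurd (ginj h1) (by simp)
          · exact h1
        have hb := ylt t j hlt
        have hcl' := (hgr (Sum.inr t) _).1 hcl
        have hy : θ + h * 2 ^ (k + 1) * ((⌊(S.a i - θ) / (h * 2 ^ (k + 1))⌋ : ℝ) + 1) < y t.1 :=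
          hcl'
        have haj := ((fl_iff θ h (S.a j) hh (k + 1) _).1 hj').2
        have hal : Al S (y t.1) j := ⟨lt_trans haj hy, hb⟩
        have haf := (vis_al S (hP t.1 t.2) j hal).1
        have hmon := rt_anc θ h (S.a i) hh (lv t + 1) k hk
        have hi' : ⌊(S.a i - θ) / (h * 2 ^ (lv t + 1))⌋ = nd t := hi
        rw [hi', hR t] at hmon
        have hj2 : ⌊(S.a j - θ) / (h * 2 ^ k)⌋ = ⌊(S.a i - θ) / (h * 2 ^ k)⌋ + 1 := hj
        have haj2 := ((fl_iff θ h (S.a j) hh k _).1 hj2).1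
        push_cast at haj2
        have := g3 t
        linarith
      flg := by
        intro t j hj hlt
        have hb := ylt t j hlt
        obtain ⟨r1, r2⟩ := right_cell t j hj
        have hal : Al S (y t.1) j := ⟨lt_trans r2 (g4 t), hb⟩
        have hs := left_cell t t.1.2 (g1 t)
        have hc := fact_c S (hP t.1 t.2) j hal (lt_of_lt_of_le hs r1)
        exact ⟨t.1.2, g1 t, ylt' t _ (vis_ord S (hP t.1 t.2)).2.2.2.2.2,
          glt (Sum.inl t.1.2) (Sum.inl j) hc⟩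
      sep := by
        intro t t' hl hn hlt
        have hyy : y t.1 ≤ y t'.1 := gle _ _ hlt
        obtain ⟨o1, o2, o3, o4, o5, o6⟩ := vis_ord S (hP t.1 t.2)
        obtain ⟨p1, p2, p3, p4, p5, p6⟩ := vis_ord S (hP t'.1 t'.2)
        refine ⟨t.1.2, g1 t, ylt' t _ o6, ?_⟩
        apply blt' t' t.1.2
        by_contra hc
        have hne : y t'.1 ≠ S.b t.1.2 := ((hP t'.1 t'.2).off t.1.2).2
        have hlt2 : y t'.1 < S.b t.1.2 := lt_of_le_of_ne (not_lt.1 hc) hne
        have L1 := left_cell t t.1.2 (g1 t)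
        have R1 := right_cell t t.1.1 (g2 t)
        have L2 := left_cell t' t'.1.2 (g1 t')
        have R2 := right_cell t' t'.1.1 (g2 t')
        have M1 := g4 t
        have M2 := hle12 t
        rw [← hl, ← hn] at L2 R2
        have e := four S (hP t.1 t.2) (hP t'.1 t'.2) ⟨by linarith [R2.2], by linarith⟩
          ⟨by linarith, by linarith⟩ ⟨by linarith [R1.2], by linarith⟩
          ⟨by linarith, hlt2⟩ (by linarith [R2.1]) (by linarith [R1.1])
        have ett : t = t' := Subtype.ext (Prod.ext e.1 e.2)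
        rw [ett] at hlt
        exact lt_irrefl _ hlt }
  have hcard := esys_card T
  rwa [Fintype.card_coe] at hcard

end Pool.Agent.Work.MP_e64a38_co.CZ
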