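import Pool.Agent.Work.MP_e64a38_co.CZ.TDefs

/-!
# Elementary facts on runs and potentials (size M)

* `run_trans`: induction on the second run (each constructor of `Run` extends at the end).
* `pot_nonneg`: the empty run.
* `pot_none`, `pot_leaf`: show by induction on the run `Run (false, o) s v` (generalise the start: the
  start state is `(false, none)`, resp. `(false, some leaf)`) the invariant `s.2 = none ∧ v ≤ 0`, resp.
  `(s.2 = none ∨ s.2 = some leaf) ∧ v ≤ 0`; `Exo Tr.leaf t'` is impossible, `Dth Tr.leaf o` gives
  `o = none`.
* `pot_expo`: a run of value `v` from `some t'` in mode top, preceded by the flagging, is a run of value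
  `v + 1` from `some t`.
* `pot_death`: a run of value `v` from `o`, preceded by down (cost 1), death (cost 1), up (0), is a run of
  value `v - 2` from `some t`.
* `dth_none`: a death that leaves nothing happens only at a single leaf (cases on `Dth`).
* `spn_nonneg`, `spn_exo`, `spn_dth`: induction. For `spn_dth` (claim `spn t ≤ spnO o + 1`):
  leaf `0 ≤ 1`; leftN: `[b] + spn r ≤ spn r + 1`; leftS: `[b] + spn r ≤ (0 + spn r) + 1`; rightN: by
  induction `spn r ≤ 0 + 1`, and `spn (node false l r) = spn r ≤ 1 ≤ spn l + 1`; rightS: by induction.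
-/

set_option autoImplicit false

namespace Pool.Agent.Work.MP_e64a38_co.CZ

theorem run_trans {s s' s'' : Bool × Option Tr} {v w : ℤ} (h : Run s s' v) (h' : Run s' s'' w) :
    Run s s'' (v + w) := by
  induction h' with
  | refl => rw [add_zero]; exact h
  | expo _ he ih => rw [← add_assoc]; exact Run.expo ih he
  | down _ ih => rw [← add_sub_assoc]; exact Run.down ih
  | up _ ih => exact Run.up ih
  | death _ hd ih => rw [← add_sub_assoc]; exact Run.death ih hd

theorem pot_nonneg {o : Option Tr} {d : ℤ} (h : Pot o d) : 0 ≤ d := h _ 0 (Run.refl _)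

theorem pot_mono {o : Option Tr} {d e : ℤ} (h : Pot o d) (hde : d ≤ e) : Pot o e :=
  fun s v hr => (h s v hr).trans hde

theorem pot_none : Pot none 0 := by
  intro s v hr
  have h : s.2 = none ∧ v ≤ 0 := by
    induction hr with
    | refl => exact ⟨rfl, le_refl _⟩
    | expo _ _ ih => exact absurd ih.1 (by simp)
    | down _ ih => exact ⟨ih.1, by have := ih.2; linarith⟩
    | up _ ih => exact ih
    | death _ _ ih => exact absurd ih.1 (by simp)
  exact h.2

private theorem not_exo_leaf {t : Tr} : ¬ Exo Tr.leaf t := by
  intro h
  cases h

private theorem dth_leaf {o : Option Tr} (h : Dth Tr.leaf o) : o = none := by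
  cases h
  rfl

theorem pot_leaf : Pot (some Tr.leaf) 0 := by
  intro s v hr
  have h : (s.2 = none ∨ s.2 = some Tr.leaf) ∧ v ≤ 0 := by
    induction hr with
    | refl => exact ⟨Or.inr rfl, le_refl _⟩
    | @expo t t' v _ he ih =>
      exfalso
      rcases ih.1 with h1 | h1
      · simp at h1
      · have h2 : t = Tr.leaf := Option.some.inj h1
        rw [h2] at he
        exact not_exo_leaf he
    | down _ ih => exact ⟨ih.1, by have := ih.2; linarith⟩
    | up _ ih => exact ih
    | @death t o v _ hd ih =>
      rcases ih.1 with h1 | h1
      · simp at h1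
      · have h2 : t = Tr.leaf := Option.some.inj h1
        rw [h2] at hd
        exact ⟨Or.inl (dth_leaf hd), by have := ih.2; linarith⟩
  exact h.2

theorem pot_expo {t t' : Tr} {d : ℤ} (h : Pot (some t) d) (he : Exo t t') : Pot (some t') (d - 1) := by
  intro s v hr
  have h1 := h s _ (run_trans (Run.expo (Run.refl _) he) hr)
  linarith

theorem pot_death {t : Tr} {o : Option Tr} {d : ℤ} (h : Pot (some t) d) (hd : Dth t o) :
    Pot o (d + 2) := by
  intro s v hr
  have h1 := h s _ (run_trans (Run.up (Run.death (Run.down (Run.refl _)) hd)) hr)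
  linarith

theorem dth_none {t : Tr} (h : Dth t none) : t = Tr.leaf := by
  cases h
  rfl

theorem spn_nonneg (t : Tr) : 0 ≤ spn t := by
  induction t with
  | leaf => exact le_refl _
  | node b l r _ ihr =>
    show 0 ≤ (if b then 1 else 0) + spn r
    cases b
    · simpa using ihr
    · simp only [if_true]
      linarith

theorem spn_exo {t t' : Tr} (h : Exo t t') : spn t' = spn t + 1 := by
  induction h with
  | here l r =>
    show (if true = true then (1 : ℤ) else 0) + spn r = (if false = true then (1 : ℤ) else 0) + spn r + 1
    simp only [if_true, Bool.false_eq_true, if_false]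
    ring
  | right b l r r' _ ih =>
    show (if b = true then (1 : ℤ) else 0) + spn r' = (if b = true then (1 : ℤ) else 0) + spn r + 1
    rw [ih]
    ring

theorem spn_dth {t : Tr} {o : Option Tr} (h : Dth t o) : spn t ≤ spnO o + 1 := by
  induction h with
  | leaf =>
    show (0 : ℤ) ≤ 0 + 1
    norm_num
  | leftN b l r _ _ =>
    show (if b = true then (1 : ℤ) else 0) + spn r ≤ spn r + 1
    split_ifs
    · linarith
    · linarith
  | leftS b l l' r _ _ =>
    show (if b = true then (1 : ℤ) else 0) + spn r ≤ (if false = true then (1 : ℤ) else 0) + spn r + 1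
    simp only [Bool.false_eq_true, if_false]
    split_ifs
    · linarith
    · linarith
  | rightN l r _ ih =>
    show (if false = true then (1 : ℤ) else 0) + spn r ≤ spn l + 1
    have h1 : spn r ≤ 0 + 1 := ih
    have h2 := spn_nonneg l
    simp only [Bool.false_eq_true, if_false]
    linarith
  | rightS l r r' _ ih =>
    show (if false = true then (1 : ℤ) else 0) + spn r ≤ (if false = true then (1 : ℤ) else 0) + spn r' + 1
    have h1 : spn r ≤ spn r' + 1 := ih
    simp only [Bool.false_eq_true, if_false]
    linarith

end Pool.Agent.Work.MP_e64a38_co.CZ
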