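import Mathlib

/-!
# Flagged binary trees (fixed file)

`Tr` : binary trees, every inner node carries a flag (`true` = flagged).
`Dth t o` : `o` is obtained from `t` by the death of one leaf.  A leaf may die only if it is in the RIGHT
part of no flagged node; its death clears the flags of all nodes that contain it; a node one side of
which is empty disappears.
`Exo t t'` : `t'` is obtained from `t` by flagging one unflagged node of the right spine.
`spn` : the number of flagged nodes of the right spine.
`Run` : runs of a one player game on a tree, with two modes (`false` = top, `true` = under):
in mode top a node of the spine may be flagged (gain `1`), one may go from top to under (cost `1`) and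
from under to top (free), in mode under leaves may die (cost `1` each).
`Pot o d` : no run that starts at the tree `o` in mode top has a value above `d`.
-/

set_option autoImplicit false

namespace Pool.Agent.Work.MP_e64a38_co.CZ

/-- binary trees with flags -/
inductive Tr where
  | leaf : Tr
  | node : Bool → Tr → Tr → Tr

/-- death of a leaf -/
inductive Dth : Tr → Option Tr → Prop where
  | leaf : Dth Tr.leaf none
  | leftN (b : Bool) (l r : Tr) : Dth l none → Dth (Tr.node b l r) (some r)
  | leftS (b : Bool) (l l' r : Tr) : Dth l (some l') → Dth (Tr.node b l r) (some (Tr.node false l' r))
  | rightN (l r : Tr) : Dth r none → Dth (Tr.node false l r) (some l)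
  | rightS (l r r' : Tr) : Dth r (some r') → Dth (Tr.node false l r) (some (Tr.node false l r'))

/-- flagging of a node of the right spine -/
inductive Exo : Tr → Tr → Prop where
  | here (l r : Tr) : Exo (Tr.node false l r) (Tr.node true l r)
  | right (b : Bool) (l r r' : Tr) : Exo r r' → Exo (Tr.node b l r) (Tr.node b l r')

/-- number of flagged nodes of the right spine -/
def spn : Tr → ℤ
  | Tr.leaf => 0
  | Tr.node b _ r => (if b then 1 else 0) + spn r

/-- the same for a possibly empty tree -/
def spnO : Option Tr → ℤ
  | none => 0
  | some t => spn t

/-- runs; the state is (mode, tree), mode `false` = top, mode `true` = under -/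
inductive Run : Bool × Option Tr → Bool × Option Tr → ℤ → Prop where
  | refl (s : Bool × Option Tr) : Run s s 0
  | expo {s : Bool × Option Tr} {t t' : Tr} {v : ℤ} :
      Run s (false, some t) v → Exo t t' → Run s (false, some t') (v + 1)
  | down {s : Bool × Option Tr} {o : Option Tr} {v : ℤ} :
      Run s (false, o) v → Run s (true, o) (v - 1)
  | up {s : Bool × Option Tr} {o : Option Tr} {v : ℤ} :
      Run s (true, o) v → Run s (false, o) v
  | death {s : Bool × Option Tr} {t : Tr} {o : Option Tr} {v : ℤ} :
      Run s (true, some t) v → Dth t o → Run s (true, o) (v - 1)

/-- the potential of `o` is at most `d` -/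
def Pot (o : Option Tr) (d : ℤ) : Prop := ∀ s v, Run (false, o) s v → v ≤ d

/-- join of two possibly empty trees -/
def jn : Bool → Option Tr → Option Tr → Option Tr
  | _, none, o => o
  | _, some l, none => some l
  | b, some l, some r => some (Tr.node b l r)

/-- the comb with `n` leaves, nothing flagged -/
def comb : ℕ → Option Tr
  | 0 => none
  | n + 1 => jn false (some Tr.leaf) (comb n)

end Pool.Agent.Work.MP_e64a38_co.CZ
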