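import Pool.Agent.Work.MP_e64a38_co.CZ.TBas

/-!
# The potential of a joined tree (size M-L, the key lemma)

Claim: if `Pot (some A) dA` and `Pot (some B) dB` then `Pot (some (node false A B)) (dA + dB + 1)`.
(Checked by computer for all trees with at most 11 leaves.)

Proof. Put `jn' f none B' = some B'`, `jn' f (some A') B' = some (node f A' B')` (for a Boolean `f`, a
possibly empty tree `A'` and a tree `B'`; this is `jn f A' (some B')`), and `[f] = 1` if `f`, else `0`.
By induction on a run `Run (false, some (node false A B)) (m, o) v` one shows: (P1) or (P2), where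

(P1) there are `f A' B' α β μ` with `o = jn f A' (some B')`, (`A' = none → f = false`),
     `Run (false, some A) (true, A') α`, `Run (false, some B) (μ, some B') β` and
     either `m = false`, `μ = false`, `v ≤ β + [f]`, `v ≤ α + 1 + [f] + spn B'`,
     or `m = true`, (`μ = false` and `v ≤ β + [f] - 1`, or `μ = true` and `v ≤ β + [f]`),
        `v ≤ α + 1 + spn B'`;
(P2) there is `α` with `Run (false, some A) (m, o) α` and `v ≤ α + 1`.

Start: (P1) with `f = false`, `A' = some A`, `α = -1` (down), `B' = B`, `β = 0`, `v = 0`: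
`0 ≤ 0`, `0 ≤ -1 + 1 + 0 + spn B` (`spn_nonneg`).
Steps from (P1):
* expo (so `m = false`). If `A' = none` the flagging is one of `B'`: `β` and `spn B'` and `v` all grow by
  one (`spn_exo`). If `A' = some _` the flagging is either that of the root (`f` from false to true, `[f]`
  grows by one, `v` by one) or one of `B'` (as before).
* down: `v` falls by one; keep `μ = false`: `v - 1 ≤ β + [f] - 1`; `v - 1 ≤ α + [f] + spn B' ≤
  α + 1 + spn B'`.
* up: if `μ = true` apply up to the run of `B`; `v ≤ β + [f]` in both cases, and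
  `v ≤ α + 1 + spn B' ≤ α + 1 + [f] + spn B'`.
* death (so `m = true`, `v` falls by one):
  - in `A'` (with `A' = some A1`, rules leftN, leftS): the new flag is false, the run of `A` is extended by
    the death, `α` falls by one. New claims: `v - 1 ≤ (β + [f] - 1) - 1 ≤ β - 1` if `μ = false`,
    `v - 1 ≤ β + [f] - 1 ≤ β` if `μ = true`; `v - 1 ≤ (α - 1) + 1 + spn B'`.
    (If `A1` dies completely the new `A'` is `none` and the new tree is `some B'`.)
  - in `B'` and `B'` survives (rules rightS, where `f = false`, or a death of `B'` itself if `A' = none`):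
    if `μ = false` the run of `B` first goes down, so `β` falls by two and the new `μ` is true:
    `v - 1 ≤ β + [f] - 2`, fine; if `μ = true`, `β` falls by one. Second claim: `spn` falls by at most one
    (`spn_dth`): `v - 1 ≤ α + 1 + spn B' - 1 ≤ α + 1 + spn B''`.
  - in `B'` and `B'` dies out (then `B' = leaf` by `dth_none`, `spn B' = 0`, and `f = false` or
    `A' = none`): the new tree is `A'`, (P2) holds with the run `Run (false, some A) (true, A') α`:
    `v - 1 ≤ α + 1 + 0 - 1 ≤ α + 1`.
Steps from (P2): every move of the big run is also a move of the run of `A`, with the same change of value.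
End: in (P1) `v ≤ β + 1 ≤ dB + 1` and `0 ≤ dA`; in (P2) `v ≤ α + 1 ≤ dA + 1` and `0 ≤ dB`.
-/

set_option autoImplicit false

namespace Pool.Agent.Work.MP_e64a38_co.CZ

/-- the value of a flag -/
private def fl (f : Bool) : ℤ := if f then 1 else 0

private theorem fl_nonneg (f : Bool) : 0 ≤ fl f := by
  cases f
  · exact le_rfl
  · exact zero_le_one

private theorem fl_le (f : Bool) : fl f ≤ 1 := by
  cases f
  · exact zero_le_one
  · exact le_rfl

/-- the alternative (P1) -/
private def Pa (A B : Tr) (m : Bool) (o : Option Tr) (v : ℤ) : Prop :=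
  ∃ (f : Bool) (A' : Option Tr) (B' : Tr) (α β : ℤ) (μ : Bool),
    o = jn f A' (some B') ∧ (A' = none → f = false) ∧
    Run (false, some A) (true, A') α ∧ Run (false, some B) (μ, some B') β ∧
    ((m = false ∧ μ = false ∧ v ≤ β + fl f ∧ v ≤ α + 1 + fl f + spn B') ∨
     (m = true ∧ ((μ = false ∧ v ≤ β + fl f - 1) ∨ (μ = true ∧ v ≤ β + fl f)) ∧
        v ≤ α + 1 + spn B'))

/-- the alternative (P2) -/
private def Pb (A : Tr) (m : Bool) (o : Option Tr) (v : ℤ) : Prop :=
  ∃ α : ℤ, Run (false, some A) (m, o) α ∧ v ≤ α + 1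

private theorem pa_start (A B : Tr) : Pa A B false (some (Tr.node false A B)) 0 := by
  refine ⟨false, some A, B, -1, 0, false, rfl, fun h => absurd h (by simp), ?_, Run.refl _,
    Or.inl ⟨rfl, rfl, ?_, ?_⟩⟩
  · exact Run.down (Run.refl _)
  · exact le_rfl
  · have h1 := spn_nonneg B
    have h2 : fl false = 0 := rfl
    rw [h2]
    linarith

private theorem pa_expo {A B t t' : Tr} {v : ℤ} (h : Pa A B false (some t) v) (he : Exo t t') :
    Pa A B false (some t') (v + 1) := by
  obtain ⟨f, A', B', α, β, μ, ho, hf, hA, hB, hv⟩ := h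
  rcases hv with ⟨-, hμ, v1, v2⟩ | ⟨hm, -⟩
  swap
  · exact absurd hm (by decide)
  subst hμ
  cases A' with
  | none =>
    have ht : t = B' := Option.some.inj ho
    subst ht
    have hs := spn_exo he
    exact ⟨f, none, t', α, β + 1, false, rfl, hf, hA, hB.expo he,
      Or.inl ⟨rfl, rfl, by linarith, by linarith⟩⟩
  | some A1 =>
    have ht : t = Tr.node f A1 B' := Option.some.inj ho
    subst ht
    cases he with
    | here =>
      have h1 : fl false = 0 := rfl
      have h2 : fl true = 1 := rfl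
      rw [h1] at v1 v2
      exact ⟨true, some A1, B', α, β, false, rfl, fun h => absurd h (by simp), hA, hB,
        Or.inl ⟨rfl, rfl, by rw [h2]; linarith, by rw [h2]; linarith⟩⟩
    | right _ _ _ r' he' =>
      have hs := spn_exo he'
      exact ⟨f, some A1, r', α, β + 1, false, rfl, fun h => absurd h (by simp), hA, hB.expo he',
        Or.inl ⟨rfl, rfl, by linarith, by linarith⟩⟩

private theorem pa_down {A B : Tr} {o : Option Tr} {v : ℤ} (h : Pa A B false o v) :
    Pa A B true o (v - 1) := by
  obtain ⟨f, A', B', α, β, μ, ho, hf, hA, hB, hv⟩ := h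
  rcases hv with ⟨-, hμ, v1, v2⟩ | ⟨hm, -⟩
  swap
  · exact absurd hm (by decide)
  have h1 := fl_le f
  exact ⟨f, A', B', α, β, μ, ho, hf, hA, hB,
    Or.inr ⟨rfl, Or.inl ⟨hμ, by linarith⟩, by linarith⟩⟩

private theorem pa_up {A B : Tr} {o : Option Tr} {v : ℤ} (h : Pa A B true o v) :
    Pa A B false o v := by
  obtain ⟨f, A', B', α, β, μ, ho, hf, hA, hB, hv⟩ := h
  rcases hv with ⟨hm, -⟩ | ⟨-, v1, v2⟩
  · exact absurd hm (by decide)
  have h1 := fl_nonneg f
  rcases v1 with ⟨hμ, v1⟩ | ⟨hμ, v1⟩
  · exact ⟨f, A', B', α, β, μ, ho, hf, hA, hB, Or.inl ⟨rfl, hμ, by linarith, by linarith⟩⟩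
  · subst hμ
    exact ⟨f, A', B', α, β, false, ho, hf, hA, hB.up, Or.inl ⟨rfl, rfl, by linarith, by linarith⟩⟩

/-- the run of `B` after a death -/
private theorem pa_dB {B B' B'' : Tr} {β : ℤ} {μ : Bool} {v : ℤ} {f : Bool}
    (hB : Run (false, some B) (μ, some B') β) (hd : Dth B' (some B''))
    (v1 : (μ = false ∧ v ≤ β + fl f - 1) ∨ (μ = true ∧ v ≤ β + fl f)) :
    ∃ β', Run (false, some B) (true, some B'') β' ∧ v - 1 ≤ β' + fl f := by
  rcases v1 with ⟨hμ, v1⟩ | ⟨hμ, v1⟩
  · subst hμ
    exact ⟨β - 1 - 1, hB.down.death hd, by linarith⟩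
  · subst hμ
    exact ⟨β - 1, hB.death hd, by linarith⟩

private theorem pa_death {A B t : Tr} {o : Option Tr} {v : ℤ} (h : Pa A B true (some t) v)
    (hd : Dth t o) : Pa A B true o (v - 1) ∨ Pb A true o (v - 1) := by
  obtain ⟨f, A', B', α, β, μ, ho, hf, hA, hB, hv⟩ := h
  rcases hv with ⟨hm, -⟩ | ⟨-, v1, v2⟩
  · exact absurd hm (by decide)
  have hf1 := fl_le f
  have h0 : fl false = 0 := rfl
  have v3 : (μ = false ∧ v - 1 ≤ β + fl false - 1) ∨ (μ = true ∧ v - 1 ≤ β + fl false) := by
    rw [h0]
    rcases v1 with ⟨hμ, v1⟩ | ⟨hμ, v1⟩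
    · exact Or.inl ⟨hμ, by linarith⟩
    · exact Or.inr ⟨hμ, by linarith⟩
  cases A' with
  | none =>
    have ht : t = B' := Option.some.inj ho
    subst ht
    cases o with
    | none =>
      right
      have hl := dth_none hd
      have hs : spn t = 0 := by rw [hl]; rfl
      rw [hs] at v2
      exact ⟨α, hA, by linarith⟩
    | some t' =>
      left
      obtain ⟨β', hB', v4⟩ := pa_dB hB hd v1
      have hs := spn_dth hd
      have hs' : spnO (some t') = spn t' := rfl
      rw [hs'] at hs
      exact ⟨f, none, t', α, β', true, rfl, hf, hA, hB', Or.inr ⟨rfl, Or.inr ⟨rfl, v4⟩,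
        by linarith⟩⟩
  | some A1 =>
    have ht : t = Tr.node f A1 B' := Option.some.inj ho
    subst ht
    cases hd with
    | leftN _ _ _ hd' =>
      left
      exact ⟨false, none, B', α - 1, β, μ, rfl, fun _ => rfl, hA.death hd', hB,
        Or.inr ⟨rfl, v3, by linarith⟩⟩
    | leftS _ _ l' _ hd' =>
      left
      exact ⟨false, some l', B', α - 1, β, μ, rfl, fun _ => rfl, hA.death hd', hB,
        Or.inr ⟨rfl, v3, by linarith⟩⟩
    | rightN _ _ hd' =>
      right
      have hl := dth_none hd'
      have hs : spn B' = 0 := by rw [hl]; rfl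
      rw [hs] at v2
      exact ⟨α, hA, by linarith⟩
    | rightS _ _ r' hd' =>
      left
      obtain ⟨β', hB', v4⟩ := pa_dB hB hd' v1
      have hs := spn_dth hd'
      have hs' : spnO (some r') = spn r' := rfl
      rw [hs'] at hs
      exact ⟨false, some A1, r', α, β', true, rfl, fun _ => rfl, hA, hB',
        Or.inr ⟨rfl, Or.inr ⟨rfl, v4⟩, by linarith⟩⟩

private theorem tj_inv {A B : Tr} {s' : Bool × Option Tr} {v : ℤ}
    (h : Run (false, some (Tr.node false A B)) s' v) : Pa A B s'.1 s'.2 v ∨ Pb A s'.1 s'.2 v := by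
  induction h with
  | refl =>
    left
    exact pa_start A B
  | expo hr he ih =>
    rcases ih with h1 | ⟨α, h1, h2⟩
    · exact Or.inl (pa_expo h1 he)
    · exact Or.inr ⟨α + 1, h1.expo he, by linarith⟩
  | down hr ih =>
    rcases ih with h1 | ⟨α, h1, h2⟩
    · exact Or.inl (pa_down h1)
    · exact Or.inr ⟨α - 1, h1.down, by linarith⟩
  | up hr ih =>
    rcases ih with h1 | ⟨α, h1, h2⟩
    · exact Or.inl (pa_up h1)
    · exact Or.inr ⟨α, h1.up, h2⟩
  | death hr hd ih =>
    rcases ih with h1 | ⟨α, h1, h2⟩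
    · exact pa_death h1 hd
    · exact Or.inr ⟨α - 1, h1.death hd, by linarith⟩

theorem pot_join {A B : Tr} {dA dB : ℤ} (hA : Pot (some A) dA) (hB : Pot (some B) dB) :
    Pot (some (Tr.node false A B)) (dA + dB + 1) := by
  intro s v h
  have hA0 := pot_nonneg hA
  have hB0 := pot_nonneg hB
  rcases tj_inv h with ⟨f, A', B', α, β, μ, ho, hf, hrA, hrB, hv⟩ | ⟨α, h1, h2⟩
  · have h1 := hB _ _ hrB
    have h2 := fl_le f
    rcases hv with ⟨-, -, v1, -⟩ | ⟨-, v1, -⟩
    · linarith
    · rcases v1 with ⟨-, v1⟩ | ⟨-, v1⟩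
      · linarith
      · linarith
  · have h3 := hA _ _ h1
    linarith

end Pool.Agent.Work.MP_e64a38_co.CZ
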