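import Pool.Agent.Work.MP_e64a38_co.CZ.ZVis

/-!
# The number of upper edges (size M)

`∑ A ∈ Sgs S, #{i ∈ A : Ed S A i} ≤ (Sgs S).card + (Prs S).card`.

Proof. Let `U_A = {i ∈ A : Ed S A i}`. Slopes of different elements of `U_A` are different (`ed_sl`). For
`A ∈ Sgs S` choose `y_A` off with `Sg S y_A = A`. If `i ∈ U_A` is not the element with the largest slope, let
`q ∈ U_A` be the element with the smallest slope `> p i`; by `up_vis` `(q, i) ∈ Prs S`, seen from `y_A`. So
`#U_A ≤ 1 + #V_A` with `V_A = {t ∈ Prs S : ∃ f, Vis S t.1 t.2 f y_A}`. Finally the `V_A` are pairwise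
disjoint: let `t = (q, s)` be seen from `y` and from `y'`; `f` is the same (the lines have one common
point). A chord `c` alive at `y` has `v c f ≥ v q f` (`up`), one not alive at `y'` has `v c f < v q f` (`dn`);
so alive at `y` implies alive at `y'` and vice versa, `Sg S y = Sg S y'`. So
`∑ #V_A ≤ (Prs S).card` (`Finset.card_biUnion`).
-/

set_option autoImplicit false

namespace Pool.Agent.Work.MP_e64a38_co.CZ

variable {ι : Type} [Fintype ι]

open Classical in
theorem up_card (S : Sy ι) (hS : Par S) :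
    ∑ A ∈ Sgs S, (Finset.univ.filter (fun i => i ∈ A ∧ Ed S A i)).card ≤
      (Sgs S).card + (Prs S).card := by
  have hch : ∀ A ∈ Sgs S, ∃ y, Off S y ∧ Sg S y = A := by
    intro A hA
    unfold Sgs at hA
    rw [Finset.mem_filter] at hA
    exact hA.2
  choose! yy hyo hyA using hch
  obtain ⟨W, hW⟩ : ∃ W : Finset ι → Finset (ι × ι), ∀ A, W A =
      (Prs S).filter (fun t => ∃ f, Vis S t.1 t.2 f (yy A)) := ⟨_, fun _ => rfl⟩
  have hU : ∀ A ∈ Sgs S, (Finset.univ.filter (fun i => i ∈ A ∧ Ed S A i)).card ≤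
      1 + (W A).card := by
    intro A hA
    obtain ⟨Q, hQ⟩ : ∃ Q, Q = Finset.univ.filter (fun i => i ∈ A ∧ Ed S A i) := ⟨_, rfl⟩
    rw [← hQ]
    have hQm : ∀ i, i ∈ Q ↔ i ∈ A ∧ Ed S A i := by
      intro i
      rw [hQ, Finset.mem_filter]
      exact ⟨fun h => h.2, fun h => ⟨Finset.mem_univ _, h⟩⟩
    have hslope : ∀ i ∈ Q, ∀ j ∈ Q, i ≠ j → S.p i ≠ S.p j := by
      intro i hi j hj hij hp
      obtain ⟨hiA, x, hx⟩ := (hQm i).1 hi
      obtain ⟨hjA, z, hz⟩ := (hQm j).1 hj
      obtain ⟨h1, h2⟩ := ed_sl S A hij hiA hjA hx hz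
      obtain ⟨-, h3⟩ := ed_sl S A hij.symm hjA hiA hz hx
      rcases lt_or_gt_of_ne h1 with h4 | h4
      · exact (h2.1 h4).ne hp.symm
      · exact (h3.1 h4).ne hp
    rcases Finset.eq_empty_or_nonempty Q with hQe | hQn
    · rw [hQe, Finset.card_empty]
      exact Nat.zero_le _
    obtain ⟨t, ht, hmax⟩ := Finset.exists_max_image Q (fun c => S.p c) hQn
    have hsub : Q.erase t ⊆ (W A).image Prod.snd := by
      intro i hi
      rw [Finset.mem_erase] at hi
      obtain ⟨hit, hiQ⟩ := hi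
      have h1 : S.p i < S.p t := lt_of_le_of_ne (hmax i hiQ) (hslope i hiQ t ht hit)
      obtain ⟨q, hq, hmin⟩ := Finset.exists_min_image (Q.filter fun c => S.p i < S.p c)
        (fun c => S.p c) ⟨t, by rw [Finset.mem_filter]; exact ⟨ht, h1⟩⟩
      rw [Finset.mem_filter] at hq
      obtain ⟨hqA, hqE⟩ := (hQm q).1 hq.1
      obtain ⟨hiA, hiE⟩ := (hQm i).1 hiQ
      have hy := hyA A hA
      obtain ⟨f, hf⟩ := up_vis S hS (yy A) (hyo A hA) q i (by rw [hy]; exact hqA)
        (by rw [hy]; exact hiA) (by rw [hy]; exact hqE) (by rw [hy]; exact hiE) hq.2 (by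
          intro c hc hcE hcc
          rw [hy] at hc hcE
          have h2 := hmin c (by
            rw [Finset.mem_filter]
            exact ⟨(hQm c).2 ⟨hc, hcE⟩, hcc.1⟩)
          exact absurd hcc.2 (not_lt.2 h2))
      rw [Finset.mem_image]
      refine ⟨(q, i), ?_, rfl⟩
      rw [hW, Finset.mem_filter]
      refine ⟨?_, f, hf⟩
      unfold Prs
      rw [Finset.mem_filter]
      exact ⟨Finset.mem_univ _, f, yy A, hf⟩
    have h1 := (Finset.card_le_card hsub).trans Finset.card_image_le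
    rw [Finset.card_erase_of_mem ht] at h1
    omega
  have hdisj : ∀ A ∈ Sgs S, ∀ B ∈ Sgs S, A ≠ B → Disjoint (W A) (W B) := by
    intro A hA B hB hAB
    rw [Finset.disjoint_left]
    intro t h1 h2
    apply hAB
    rw [hW, Finset.mem_filter] at h1 h2
    obtain ⟨-, f, hf⟩ := h1
    obtain ⟨-, g, hg⟩ := h2
    have hfg : f = g := by
      have e1 := hf.eq
      have e2 := hg.eq
      have e3 := hf.sl
      unfold Sy.v at e1 e2
      have e4 : (S.p t.1 - S.p t.2) * (f - g) = 0 := by linarith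
      rcases mul_eq_zero.1 e4 with e5 | e5
      · linarith
      · linarith
    subst hfg
    rw [← hyA A hA, ← hyA B hB]
    ext c
    unfold Sg
    rw [Finset.mem_filter, Finset.mem_filter]
    constructor
    · rintro ⟨-, hc⟩
      refine ⟨Finset.mem_univ _, ?_⟩
      by_contra hc'
      exact absurd (hf.up c hc) (not_le.2 (hg.dn c hc'))
    · rintro ⟨-, hc⟩
      refine ⟨Finset.mem_univ _, ?_⟩
      by_contra hc'
      exact absurd (hg.up c hc) (not_le.2 (hf.dn c hc'))
  have hbi : ∑ A ∈ Sgs S, (W A).card = ((Sgs S).biUnion W).card := by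
    rw [Finset.card_biUnion]
    intro A hA B hB hAB
    exact hdisj A hA B hB hAB
  calc ∑ A ∈ Sgs S, (Finset.univ.filter (fun i => i ∈ A ∧ Ed S A i)).card
      ≤ ∑ A ∈ Sgs S, (1 + (W A).card) := Finset.sum_le_sum hU
    _ = (Sgs S).card + ((Sgs S).biUnion W).card := by
        rw [Finset.sum_add_distrib, Finset.sum_const, smul_eq_mul, mul_one, hbi]
    _ ≤ (Sgs S).card + (Prs S).card := by
        refine Nat.add_le_add_left (Finset.card_le_card ?_) _
        rw [Finset.biUnion_subset]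
        intro A _
        rw [hW]
        exact Finset.filter_subset _ _

end Pool.Agent.Work.MP_e64a38_co.CZ
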