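import Pool.Agent.Work.MP_e64a38_co.CZ.ZDefs
import Pool.Agent.Work.MP_e64a38_co.CZ.GFour

/-!
# Consecutive upper edges of a cell (size M-L)

Let `y` be off, `A = Sg S y`. For upper edges (`i ∈ A`, `EdAt S A i x`):

* `ed_sl`: if `i ≠ j` are in `A`, `EdAt S A i x`, `EdAt S A j z`, then `x ≠ z`, and `x < z ↔ p j < p i`.
  (`v i x < v j x` and `v j z < v i z`; affine functions.)
* `up_vis`: let the curve be the parabola (only convexity of `φ` is used), `q, s ∈ A` upper edges with
  `p s < p q` and no upper edge `c ∈ A` with `p s < p c < p q`. Then `∃ f, Vis S q s f y`.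
  Proof. `EdAt S A q x`, `EdAt S A s z`, `x < z` (`ed_sl`). `v q - v s` is affine, negative at `x`, positive
  at `z`; let `f` be its zero, `x < f < z`, `h = v q f = v s f`.
  (1) For `w ∈ [x, z]` let `m w` be the least value of `v c w`, `c ∈ A` (`A` is not empty). `m` is concave:
  `m w ≥ (1-r) m x + r m z` for `w = (1-r) x + r z`, where `m x = v q x`, `m z = v s z`. For a chord `d ∉ A`:
  `v d x < v q x = m x`, `v d z < v s z = m z`, so `v d w < m w` for all `w ∈ [x, z]`; the same for the curve: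
  `w ^ 2 ≤ (1-r) x ^ 2 + r z ^ 2 < m w`.
  (2) `v c f ≥ h` for all `c ∈ A`: otherwise `m f < h`. Let `c ∈ A` be with `v c f = m f` and, among those,
  with the largest slope. Then for `w < f` close to `f` the chord `c` is strictly lowest among `A` over `w`
  (for `c' ∈ A` with `v c' f = m f`: `p c' < p c`, different lines through one point have different slopes
  (`inj`); the others are higher near `f` by continuity) and strictly above all `d ∉ A` and above the curve
  by (1). So `EdAt S A c w`, `c` is an upper edge. `v c f < v q f`, `v c x > v q x` (`c ≠ q`), `x < f`, so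
  `p c < p q`; `v c f < v s f`, `v c z > v s z`, so `p s < p c`. Contradiction.
  (3) `ex`: `c ∈ A`, `v c f = h`, `c ≠ q`: `v c x > v q x`, so `p c ≤ p q`; `c ≠ s`: `v c z > v s z`, so
  `p s ≤ p c`. `dn` and `hi`: (1) at `w = f`, as `m f = h`.
-/

set_option autoImplicit false

namespace Pool.Agent.Work.MP_e64a38_co.CZ

variable {ι : Type} [Fintype ι]

theorem ed_sl (S : Sy ι) (A : Finset ι) {i j : ι} {x z : ℝ} (hij : i ≠ j) (hi : i ∈ A) (hj : j ∈ A)
    (h : EdAt S A i x) (h' : EdAt S A j z) : x ≠ z ∧ (x < z ↔ S.p j < S.p i) := by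
  have h1 := (h.2 j hij.symm).1 hj
  have h2 := (h'.2 i hij).1 hi
  unfold Sy.v at h1 h2
  have h3 : (S.p j - S.p i) * (z - x) < 0 := by nlinarith
  refine ⟨?_, ?_, ?_⟩
  · rintro rfl
    rw [sub_self, mul_zero] at h3
    exact lt_irrefl _ h3
  · intro hxz
    by_contra hc
    have h4 : 0 ≤ (S.p j - S.p i) * (z - x) := mul_nonneg (by linarith) (by linarith)
    linarith
  · intro hp
    by_contra hc
    have h4 : 0 ≤ (S.p j - S.p i) * (z - x) :=
      mul_nonneg_of_nonpos_of_nonpos (by linarith) (by linarith)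
    linarith

/-- affine functions between two points -/
private theorem zv_aff {p q p' q' x z w : ℝ} (h1 : p * x + q < p' * x + q')
    (h2 : p * z + q < p' * z + q') (hx : x ≤ w) (hz : w ≤ z) : p * w + q < p' * w + q' := by
  by_contra hc
  have hc' : p' * w + q' ≤ p * w + q := not_lt.1 hc
  have h3 : 0 < (p' - p) * x + (q' - q) := by linarith
  have h4 : 0 < (p' - p) * z + (q' - q) := by linarith
  have h5 : (p' - p) * w + (q' - q) ≤ 0 := by linarith
  rcases eq_or_lt_of_le hx with h6 | h6
  · rw [← h6] at h5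
    linarith
  rcases eq_or_lt_of_le hz with h7 | h7
  · rw [h7] at h5
    linarith
  nlinarith [mul_pos (sub_pos.2 h6) h4, mul_pos (sub_pos.2 h7) h3,
    mul_nonneg (sub_nonneg.2 (hx.trans hz)) (neg_nonneg.2 h5)]

private theorem zv_sq {p q x z w : ℝ} (h1 : x ^ 2 < p * x + q)
    (h2 : z ^ 2 < p * z + q) (hx : x ≤ w) (hz : w ≤ z) : w ^ 2 < p * w + q := by
  rcases eq_or_lt_of_le hx with h6 | h6
  · rw [← h6]
    exact h1
  rcases eq_or_lt_of_le hz with h7 | h7
  · rw [h7]
    exact h2
  have h3 : 0 < (z - x) * (w - x) * (z - w) :=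
    mul_pos (mul_pos (by linarith) (by linarith)) (by linarith)
  have h4 : (z - x) * (p * w + q - w ^ 2) = (z - w) * (p * x + q - x ^ 2) +
      (w - x) * (p * z + q - z ^ 2) + (z - x) * (w - x) * (z - w) := by ring
  have h5 : 0 < (z - x) * (p * w + q - w ^ 2) := by
    rw [h4]
    have h8 := mul_pos (sub_pos.2 h7) (sub_pos.2 h1)
    have h9 := mul_pos (sub_pos.2 h6) (sub_pos.2 h2)
    linarith
  have h8 := (mul_pos_iff_of_pos_left (by linarith : 0 < z - x)).1 h5
  linarith

private theorem mem_Sg (S : Sy ι) (y : ℝ) (c : ι) : c ∈ Sg S y ↔ Al S y c := by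
  classical
  unfold Sg
  simp

theorem up_vis (S : Sy ι) (hS : Par S) (y : ℝ) (hy : Off S y) (q s : ι) (hq : q ∈ Sg S y)
    (hs : s ∈ Sg S y) (heq : Ed S (Sg S y) q) (hes : Ed S (Sg S y) s) (hsl : S.p s < S.p q)
    (hcons : ∀ c ∈ Sg S y, Ed S (Sg S y) c → ¬ (S.p s < S.p c ∧ S.p c < S.p q)) :
    ∃ f, Vis S q s f y := by
  classical
  obtain ⟨x, hx⟩ := heq
  obtain ⟨z, hz⟩ := hes
  have hqs : q ≠ s := by
    rintro rfl
    exact lt_irrefl _ hsl
  have hxz : x < z := (ed_sl S _ hqs hq hs hx hz).2.2 hsl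
  have hd : 0 < S.p q - S.p s := by linarith
  obtain ⟨f, hf⟩ : ∃ f, (S.p q - S.p s) * f = S.q s - S.q q :=
    ⟨(S.q s - S.q q) / (S.p q - S.p s), by field_simp⟩
  have hqx := (hx.2 s hqs.symm).1 hs
  have hsz := (hz.2 q hqs).1 hq
  unfold Sy.v at hqx hsz
  have hxf : x < f := by
    by_contra hc
    have := mul_le_mul_of_nonneg_left (not_lt.1 hc) hd.le
    nlinarith
  have hfz : f < z := by
    by_contra hc
    have := mul_le_mul_of_nonneg_left (not_lt.1 hc) hd.le
    nlinarith
  have heq' : S.v q f = S.v s f := by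
    unfold Sy.v
    linarith
  -- chords of `A` at `x` and `z`
  have hAx : ∀ c ∈ Sg S y, S.v q x ≤ S.v c x := by
    intro c hc
    by_cases hcq : c = q
    · rw [hcq]
    · exact ((hx.2 c hcq).1 hc).le
  have hAz : ∀ c ∈ Sg S y, S.v s z ≤ S.v c z := by
    intro c hc
    by_cases hcs : c = s
    · rw [hcs]
    · exact ((hz.2 c hcs).1 hc).le
  have hD : ∀ c ∈ Sg S y, ∀ d, d ∉ Sg S y → ∀ w, x ≤ w → w ≤ z → S.v d w < S.v c w := by
    intro c hc d hdA w hw1 hw2
    have hdq : d ≠ q := fun h => hdA (h ▸ hq)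
    have hds : d ≠ s := fun h => hdA (h ▸ hs)
    exact zv_aff (lt_of_lt_of_le ((hx.2 d hdq).2 hdA) (hAx c hc))
      (lt_of_lt_of_le ((hz.2 d hds).2 hdA) (hAz c hc)) hw1 hw2
  have hP : ∀ c ∈ Sg S y, ∀ w, x ≤ w → w ≤ z → S.φ w < S.v c w := by
    intro c hc w hw1 hw2
    have h1 := lt_of_lt_of_le hx.1 (hAx c hc)
    have h2 := lt_of_lt_of_le hz.1 (hAz c hc)
    rw [hS.2.2] at h1 h2 ⊢
    exact zv_sq h1 h2 hw1 hw2
  -- the crossing is the lowest point
  have hup : ∀ c ∈ Sg S y, S.v q f ≤ S.v c f := by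
    by_contra hcon
    push Not at hcon
    obtain ⟨e, he, hef⟩ := hcon
    obtain ⟨c0, hc0, hmin⟩ := Finset.exists_min_image (Sg S y) (fun c => S.v c f) ⟨e, he⟩
    obtain ⟨c, hcm, hmax⟩ := Finset.exists_max_image
      ((Sg S y).filter fun c => S.v c f = S.v c0 f) (fun c => S.p c) ⟨c0, by simp [hc0]⟩
    rw [Finset.mem_filter] at hcm
    obtain ⟨hcA, hcf⟩ := hcm
    have hch : S.v c f < S.v q f := by
      rw [hcf]
      exact lt_of_le_of_lt (hmin e he) hef
    have hev : ∀ᶠ w in nhdsWithin f (Set.Iio f), ∀ c' ∈ Sg S y, c' ≠ c → S.v c w < S.v c' w := by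
      rw [Filter.eventually_all_finset]
      intro c' hc'
      by_cases hcc : c' = c
      · exact Filter.Eventually.of_forall fun w h => absurd hcc h
      · have h1 := hmin c' hc'
        rcases eq_or_lt_of_le h1 with h2 | h2
        · have h3 := hmax c' (by rw [Finset.mem_filter]; exact ⟨hc', h2.symm⟩)
          have h4 : S.p c' < S.p c := by
            refine lt_of_le_of_ne h3 fun h5 => hcc (S.inj c' c h5 ?_)
            have h6 : S.v c' f = S.v c f := by rw [hcf, ← h2]
            unfold Sy.v at h6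
            rw [h5] at h6
            linarith
          filter_upwards [self_mem_nhdsWithin] with w hw _
          have hw' : w < f := hw
          have h6 : S.v c' f = S.v c f := by rw [hcf, ← h2]
          unfold Sy.v at h6 ⊢
          nlinarith [mul_pos (sub_pos.2 h4) (sub_pos.2 hw')]
        · have h3 : S.v c f < S.v c' f := by
            rw [hcf]
            exact h2
          have hcont : ContinuousAt (fun w => S.v c' w - S.v c w) f := by
            unfold Sy.v
            fun_prop
          have h4 : ∀ᶠ w in nhds f, 0 < S.v c' w - S.v c w :=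
            hcont.eventually (lt_mem_nhds (by linarith))
          filter_upwards [nhdsWithin_le_nhds h4] with w hw _
          linarith
    have hev2 : ∀ᶠ w in nhdsWithin f (Set.Iio f), x < w :=
      nhdsWithin_le_nhds (lt_mem_nhds hxf)
    obtain ⟨w, ⟨hw1, hw2⟩, hw3⟩ := ((hev.and hev2).and self_mem_nhdsWithin).exists
    have hw3' : w < f := hw3
    have hEd : Ed S (Sg S y) c := by
      refine ⟨w, hP c hcA w hw2.le (hw3'.le.trans hfz.le), ?_⟩
      intro j hj
      exact ⟨fun hjA => hw1 j hjA hj, fun hjA => hD c hcA j hjA w hw2.le (hw3'.le.trans hfz.le)⟩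
    apply hcons c hcA hEd
    have hcq : c ≠ q := by
      rintro rfl
      exact lt_irrefl _ hch
    have hcs : c ≠ s := by
      rintro rfl
      rw [heq'] at hch
      exact lt_irrefl _ hch
    have h1 := (hx.2 c hcq).1 hcA
    have h2 := (hz.2 c hcs).1 hcA
    have h3 := hch
    rw [heq'] at h3
    unfold Sy.v at h1 h2 h3 hch
    constructor
    · by_contra hc
      have := mul_le_mul_of_nonneg_right (not_lt.1 hc) (sub_nonneg.2 hfz.le)
      nlinarith
    · by_contra hc
      have := mul_le_mul_of_nonneg_right (not_lt.1 hc) (sub_nonneg.2 hxf.le)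
      nlinarith
  refine ⟨f, ⟨hy, (mem_Sg S y q).1 hq, (mem_Sg S y s).1 hs, hsl, heq', hP q hq f hxf.le hfz.le,
    fun c hc => hup c ((mem_Sg S y c).2 hc), ?_, ?_⟩⟩
  · intro c hc hcf
    have hcA := (mem_Sg S y c).2 hc
    have hcf' : S.v c f = S.v s f := by rw [hcf, heq']
    constructor
    · by_cases hcs : c = s
      · rw [hcs]
      · have h2 := (hz.2 c hcs).1 hcA
        unfold Sy.v at h2 hcf'
        by_contra hc'
        have := mul_lt_mul_of_pos_right (not_le.1 hc') (sub_pos.2 hfz)
        nlinarith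
    · by_cases hcq : c = q
      · rw [hcq]
      · have h2 := (hx.2 c hcq).1 hcA
        unfold Sy.v at h2 hcf
        by_contra hc'
        have := mul_lt_mul_of_pos_right (not_le.1 hc') (sub_pos.2 hxf)
        nlinarith
  · intro c hc
    exact hD q hq c (fun h => hc ((mem_Sg S y c).1 h)) f hxf.le hfz.le

end Pool.Agent.Work.MP_e64a38_co.CZ
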